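import Mathlib

set_option autoImplicit false
open MeasureTheory Filter Topology Finset

namespace Pool.Agent.H514R3

/-- the lag between two times -/
def lag (j k : ℕ) : ℕ := ((j : ℤ) - k).natAbs

/-- positive semidefinite sequences (real, extended evenly) -/
def PD (r : ℕ → ℝ) : Prop :=
  ∀ (N : ℕ) (a : ℕ → ℝ), 0 ≤ ∑ j ∈ range N, ∑ k ∈ range N, a j * a k * r (lag j k)

/-- Fejer type density -/
noncomputable def fej (r : ℕ → ℝ) (N : ℕ) (x : ℝ) : ℝ :=
  (1 / (N : ℝ)) * ∑ j ∈ range N, ∑ k ∈ range N, Real.cos (((j : ℤ) - k : ℤ) * x) * r (lag j k)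

lemma fej_nonneg {r : ℕ → ℝ} (hr : PD r) (N : ℕ) (x : ℝ) : 0 ≤ fej r N x := by
  unfold fej
  refine mul_nonneg (by positivity) ?_
  have h1 := hr N (fun j => Real.cos (j * x))
  have h2 := hr N (fun j => Real.sin (j * x))
  have h3 : ∑ j ∈ range N, ∑ k ∈ range N, Real.cos (((j : ℤ) - k : ℤ) * x) * r (lag j k)
      = (∑ j ∈ range N, ∑ k ∈ range N, Real.cos (j * x) * Real.cos (k * x) * r (lag j k))
      + ∑ j ∈ range N, ∑ k ∈ range N, Real.sin (j * x) * Real.sin (k * x) * r (lag j k) := by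
    rw [← Finset.sum_add_distrib]
    refine Finset.sum_congr rfl fun j _ => ?_
    rw [← Finset.sum_add_distrib]
    refine Finset.sum_congr rfl fun k _ => ?_
    have : (((j : ℤ) - k : ℤ) : ℝ) * x = j * x - k * x := by push_cast; ring
    rw [this, Real.cos_sub]; ring
  rw [h3]; linarith

lemma fej_cont (r : ℕ → ℝ) (N : ℕ) : Continuous (fej r N) := by
  unfold fej; fun_prop

lemma int_cos_int (n : ℤ) : ∫ x in (0:ℝ)..Real.pi, Real.cos (n * x) = if n = 0 then Real.pi else 0 := by
  by_cases h : n = 0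
  · simp [h]
  · simp only [h, if_false]
    have hn : (n : ℝ) ≠ 0 := by exact_mod_cast h
    rw [intervalIntegral.integral_comp_mul_left (fun x => Real.cos x) hn]
    rw [integral_cos]
    simp [Real.sin_int_mul_pi]

lemma int_cos_cos (n : ℤ) (m : ℕ) :
    ∫ x in (0:ℝ)..Real.pi, Real.cos (n * x) * Real.cos (m * x)
      = Real.pi * ((1/2) * (if n = m then 1 else 0) + (1/2) * (if n = -m then 1 else 0)) := by
  have h : ∀ x : ℝ, Real.cos (n * x) * Real.cos (m * x)
      = (1/2) * Real.cos (((n - m : ℤ) : ℝ) * x) + (1/2) * Real.cos (((n + m : ℤ) : ℝ) * x) := by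
    intro x
    push_cast
    rw [sub_mul, add_mul, Real.cos_sub, Real.cos_add]; ring
  simp_rw [h]
  rw [intervalIntegral.integral_add, intervalIntegral.integral_const_mul,
    intervalIntegral.integral_const_mul, int_cos_int, int_cos_int]
  · have e1 : (n - m = 0) ↔ (n = (m:ℤ)) := by omega
    have e2 : (n + m = 0) ↔ (n = -(m:ℤ)) := by omega
    simp only [e1, e2]
    split_ifs <;> ring
  · exact (by fun_prop : Continuous fun x : ℝ => (1/2) * Real.cos (((n - m : ℤ) : ℝ) * x)).intervalIntegrable _ _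
  · exact (by fun_prop : Continuous fun x : ℝ => (1/2) * Real.cos (((n + m : ℤ) : ℝ) * x)).intervalIntegrable _ _

lemma count_pairs (N m : ℕ) :
    (∑ j ∈ range N, ∑ k ∈ range N, if ((j : ℤ) - k = m) then (1:ℝ) else 0) = ((N - m : ℕ) : ℝ) := by
  have h1 : ∀ j ∈ range N, (∑ k ∈ range N, if ((j : ℤ) - k = m) then (1:ℝ) else 0)
      = if m ≤ j then 1 else 0 := by
    intro j hj
    rw [mem_range] at hj
    by_cases hm : m ≤ j
    · rw [if_pos hm]
      rw [Finset.sum_eq_single (j - m)]
      · rw [if_pos]; omega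
      · intro k _ hk; rw [if_neg]; omega
      · intro h; exfalso; apply h; rw [mem_range]; omega
    · rw [if_neg hm]
      apply Finset.sum_eq_zero
      intro k _; rw [if_neg]; omega
  rw [Finset.sum_congr rfl h1, Finset.sum_boole]
  congr 1
  have : (range N).filter (fun j => m ≤ j) = Finset.Ico m N := by
    ext x; simp [Finset.mem_Ico]; omega
  rw [this, Nat.card_Ico]

lemma count_pairs' (N m : ℕ) :
    (∑ j ∈ range N, ∑ k ∈ range N, if ((j : ℤ) - k = -m) then (1:ℝ) else 0) = ((N - m : ℕ) : ℝ) := by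
  rw [Finset.sum_comm, ← count_pairs N m]
  refine Finset.sum_congr rfl fun j _ => Finset.sum_congr rfl fun k _ => ?_
  have : ((k : ℤ) - j = -m) ↔ ((j : ℤ) - k = m) := by omega
  simp only [this]

lemma int_fej (r : ℕ → ℝ) (N m : ℕ) :
    ∫ x in (0:ℝ)..Real.pi, (fej r N x / Real.pi) * Real.cos (m * x)
      = (1 / (N:ℝ)) * ((N - m : ℕ) : ℝ) * r m := by
  have h : ∀ x : ℝ, (fej r N x / Real.pi) * Real.cos (m * x)
      = (1 / ((N:ℝ) * Real.pi)) * ∑ j ∈ range N, ∑ k ∈ range N,
        r (lag j k) * (Real.cos (((j : ℤ) - k : ℤ) * x) * Real.cos (m * x)) := by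
    intro x
    unfold fej
    simp only [Finset.mul_sum, Finset.sum_mul, Finset.sum_div]
    refine Finset.sum_congr rfl fun j _ => ?_
    refine Finset.sum_congr rfl fun k _ => ?_
    rw [show (1 / ((N:ℝ) * Real.pi)) = (1 / (N:ℝ)) * (1 / Real.pi) by
      rw [one_div_mul_one_div]]
    ring
  simp_rw [h]
  rw [intervalIntegral.integral_const_mul, intervalIntegral.integral_finsetSum]
  · have h2 : ∀ j ∈ range N, ∫ x in (0:ℝ)..Real.pi, ∑ k ∈ range N,
        r (lag j k) * (Real.cos (((j : ℤ) - k : ℤ) * x) * Real.cos (m * x))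
        = ∑ k ∈ range N, r m * (Real.pi * ((1/2) * (if ((j:ℤ) - k) = m then 1 else 0)
          + (1/2) * (if ((j:ℤ) - k) = -m then 1 else 0))) := by
      intro j _
      rw [intervalIntegral.integral_finsetSum]
      · refine Finset.sum_congr rfl fun k _ => ?_
        rw [intervalIntegral.integral_const_mul, int_cos_cos]
        by_cases h1 : ((j:ℤ) - k) = m
        · have : lag j k = m := by unfold lag; omega
          rw [this]
        · by_cases h2 : ((j:ℤ) - k) = -m
          · have : lag j k = m := by unfold lag; omega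
            rw [this]
          · simp [h1, h2]
      · intro k _
        exact (by fun_prop : Continuous fun x : ℝ => r (lag j k) *
          (Real.cos (((j : ℤ) - k : ℤ) * x) * Real.cos (m * x))).intervalIntegrable _ _
    rw [Finset.sum_congr rfl h2]
    have h3 : ∑ j ∈ range N, ∑ k ∈ range N, r m * (Real.pi * ((1/2) * (if ((j:ℤ) - k) = m then (1:ℝ) else 0)
          + (1/2) * (if ((j:ℤ) - k) = -m then (1:ℝ) else 0)))
        = r m * Real.pi * (1/2) * (∑ j ∈ range N, ∑ k ∈ range N, if ((j:ℤ) - k) = m then (1:ℝ) else 0)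
          + r m * Real.pi * (1/2) * (∑ j ∈ range N, ∑ k ∈ range N, if ((j:ℤ) - k) = -m then (1:ℝ) else 0) := by
      rw [Finset.mul_sum, Finset.mul_sum, ← Finset.sum_add_distrib]
      refine Finset.sum_congr rfl fun j _ => ?_
      rw [Finset.mul_sum, Finset.mul_sum, ← Finset.sum_add_distrib]
      refine Finset.sum_congr rfl fun k _ => ?_
      ring
    rw [h3, count_pairs, count_pairs']
    have hp : Real.pi ≠ 0 := Real.pi_ne_zero
    by_cases hN : (N:ℝ) = 0
    · simp [hN]
    · field_simp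
      ring
  · intro j _
    exact (by fun_prop : Continuous fun x : ℝ => ∑ k ∈ range N, r (lag j k) *
          (Real.cos (((j : ℤ) - k : ℤ) * x) * Real.cos (m * x))).intervalIntegrable _ _

/-- the approximating measures -/
noncomputable def sig (r : ℕ → ℝ) (N : ℕ) : Measure ℝ :=
  (volume.restrict (Set.Icc 0 Real.pi)).withDensity (fun x => ENNReal.ofReal (fej r N x / Real.pi))

lemma integral_sig {r : ℕ → ℝ} (hr : PD r) (N : ℕ) (g : ℝ → ℝ) :
    ∫ x, g x ∂(sig r N) = ∫ x in (0:ℝ)..Real.pi, (fej r N x / Real.pi) * g x := by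
  unfold sig
  rw [integral_withDensity_eq_integral_toReal_smul]
  · rw [intervalIntegral.integral_of_le Real.pi_pos.le, integral_Icc_eq_integral_Ioc]
    refine integral_congr_ae (Filter.Eventually.of_forall fun x => ?_)
    simp only [smul_eq_mul]
    rw [ENNReal.toReal_ofReal (div_nonneg (fej_nonneg hr N x) Real.pi_pos.le)]
  · exact ((fej_cont r N).measurable.div_const _).ennreal_ofReal
  · exact Filter.Eventually.of_forall fun x => ENNReal.ofReal_lt_top

instance fin_sig (r : ℕ → ℝ) (N : ℕ) : IsFiniteMeasure (sig r N) := by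
  unfold sig
  apply isFiniteMeasure_withDensity_ofReal
  have : Integrable (fun x => fej r N x / Real.pi) (volume.restrict (Set.Icc 0 Real.pi)) := by
    exact (((fej_cont r N).div_const _).continuousOn).integrableOn_compact isCompact_Icc
  exact this.2

/-- **Herglotz theorem** (real even form, folded to `[0,π]`). -/
theorem herglotz (r : ℕ → ℝ) (hr : PD r) :
    ∃ σ : Measure ℝ, IsFiniteMeasure σ ∧ σ (Set.Icc 0 Real.pi)ᶜ = 0 ∧
      ∀ m : ℕ, r m = ∫ x, Real.cos (m * x) ∂σ := by
  have hmass : ∀ N : ℕ, (sig r N).real Set.univ ≤ r 0 := by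
    intro N
    have h := integral_sig hr N (fun _ => 1)
    have h2 := int_fej r N 0
    simp only [Nat.cast_zero, zero_mul, Real.cos_zero] at h2
    rw [h2] at h
    simp only [integral_const, smul_eq_mul, mul_one] at h
    rw [h]
    by_cases hN : (N:ℝ) = 0
    · have h0 : 0 ≤ r 0 := by
        have := hr 1 (fun _ => 1)
        simpa [lag] using this
      simp [hN, h0]
    · simp only [Nat.sub_zero]
      rw [one_div, inv_mul_cancel₀ hN, one_mul]
  have hr0 : 0 ≤ r 0 := by
    have := hr 1 (fun _ => 1)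
    simpa [lag] using this
  let F : ℕ → FiniteMeasure ℝ := fun N => ⟨sig r N, fin_sig r N⟩
  have hF : ∀ N, F N ∈ {μ : FiniteMeasure ℝ | μ.mass ≤ (r 0).toNNReal ∧ μ (Set.Icc 0 Real.pi)ᶜ = 0} := by
    intro N
    constructor
    · have : ((F N).mass : ℝ) ≤ r 0 := by
        have := hmass N
        exact this
      rw [← NNReal.coe_le_coe, Real.coe_toNNReal _ hr0]
      exact this
    · rw [FiniteMeasure.null_iff_toMeasure_null]
      show (sig r N) (Set.Icc 0 Real.pi)ᶜ = 0
      unfold sig
      apply withDensity_absolutelyContinuous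
      rw [Measure.restrict_apply measurableSet_Icc.compl]
      simp
  have hK := isCompact_setOfPred_finiteMeasure_le_of_isCompact (E := ℝ) (r 0).toNNReal
    (isCompact_Icc (a := (0:ℝ)) (b := Real.pi))
  have hU : ((hyperfilter ℕ).map F : Filter (FiniteMeasure ℝ)) ≤
      𝓟 {μ : FiniteMeasure ℝ | μ.mass ≤ (r 0).toNNReal ∧ μ (Set.Icc 0 Real.pi)ᶜ = 0} := by
    rw [Filter.le_principal_iff]
    exact Filter.mem_map.2 (Filter.Eventually.of_forall hF)
  obtain ⟨σ, hσ, hlim⟩ := hK.ultrafilter_le_nhds ((hyperfilter ℕ).map F) hU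
  refine ⟨σ, inferInstance, ?_, ?_⟩
  · have := hσ.2
    rwa [FiniteMeasure.null_iff_toMeasure_null] at this
  · intro m
    have ht : Tendsto F (hyperfilter ℕ : Filter ℕ) (𝓝 σ) := hlim
    rw [FiniteMeasure.tendsto_iff_forall_integral_tendsto] at ht
    let g : BoundedContinuousFunction ℝ ℝ := BoundedContinuousFunction.ofNormedAddCommGroup
      (fun x => Real.cos (m * x)) (by fun_prop) 1 (fun x => by
        rw [Real.norm_eq_abs]; exact Real.abs_cos_le_one _)
    have h1 := ht g
    have h2 : ∀ N, ∫ x, g x ∂((F N : FiniteMeasure ℝ) : Measure ℝ) = (1 / (N:ℝ)) * ((N - m : ℕ) : ℝ) * r m := by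
      intro N
      have e1 : ∫ x, g x ∂((F N : FiniteMeasure ℝ) : Measure ℝ) = ∫ x, Real.cos (m * x) ∂(sig r N) := rfl
      rw [e1, integral_sig hr, int_fej]
    simp_rw [h2] at h1
    have h3 : Tendsto (fun N : ℕ => (1 / (N:ℝ)) * ((N - m : ℕ) : ℝ) * r m) atTop (𝓝 (r m)) := by
      have h4 : Tendsto (fun N : ℕ => (1 - (m:ℝ) * (1 / (N:ℝ))) * r m) atTop (𝓝 ((1 - (m:ℝ) * 0) * r m)) :=
        ((tendsto_const_nhds.sub (tendsto_one_div_atTop_nhds_zero_nat.const_mul _)).mul_const _)
      simp only [mul_zero, sub_zero, one_mul] at h4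
      refine h4.congr' ?_
      filter_upwards [eventually_ge_atTop (m+1)] with N hN
      have hN0 : (N:ℝ) ≠ 0 := by
        have : 0 < N := by omega
        positivity
      rw [Nat.cast_sub (by omega)]
      field_simp
    have h5 : Tendsto (fun N : ℕ => (1 / (N:ℝ)) * ((N - m : ℕ) : ℝ) * r m) (hyperfilter ℕ : Filter ℕ) (𝓝 (r m)) :=
      h3.mono_left (Nat.hyperfilter_le_atTop)
    exact tendsto_nhds_unique h5 h1

end Pool.Agent.H514R3
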