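import Mathlib
import Pool.Agent.H514R3.Herg

set_option autoImplicit false
open MeasureTheory Filter Topology Finset ProbabilityTheory

namespace Pool.Agent.H514R3

/-- finite linear functional -/
def lin (N : ℕ) (a w : ℕ → ℝ) : ℝ := ∑ j ∈ range N, a j * w j

/-- exponential of a finite linear functional -/
noncomputable def ex (N : ℕ) (a w : ℕ → ℝ) : ℂ := Complex.exp ((lin N a w : ℝ) * Complex.I)

lemma lin_meas (N : ℕ) (a : ℕ → ℝ) : Measurable (lin N a) := by
  unfold lin; fun_prop

lemma ex_meas (N : ℕ) (a : ℕ → ℝ) : Measurable (ex N a) := by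
  unfold ex
  have := lin_meas N a
  fun_prop

lemma ex_norm (N : ℕ) (a w : ℕ → ℝ) : ‖ex N a w‖ = 1 := Complex.norm_exp_ofReal_mul_I _

lemma ex_int (N : ℕ) (a : ℕ → ℝ) (γ : Measure (ℕ → ℝ)) [IsFiniteMeasure γ] : Integrable (ex N a) γ := by
  refine Integrable.mono' (g := fun _ => (1:ℝ)) (integrable_const _) (ex_meas N a).aestronglyMeasurable ?_
  exact Filter.Eventually.of_forall fun w => (ex_norm N a w).le

lemma iid_char (lam : Measure ℝ) [IsProbabilityMeasure lam] (N : ℕ) (b : ℕ → ℝ) :
    ∫ w, ex N b w ∂(Measure.infinitePi (fun _ : ℕ => lam))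
      = ∏ i ∈ range N, ∫ x, Complex.exp ((b i * x : ℝ) * Complex.I) ∂lam := by
  have h1 : ∀ w : ℕ → ℝ, ex N b w = (fun y : ↥(range N) → ℝ =>
      ∏ i : ↥(range N), Complex.exp ((b i * y i : ℝ) * Complex.I)) ((range N).restrict w) := by
    intro w
    simp only [Finset.restrict_def]
    rw [Finset.prod_coe_sort (range N) (fun i => Complex.exp ((b i * w i : ℝ) * Complex.I)),
      ← Complex.exp_sum, ← Finset.sum_mul]
    unfold ex lin
    push_cast
    rfl
  simp_rw [h1]
  rw [integral_restrict_infinitePi (μ := fun _ : ℕ => lam) (s := range N)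
    (f := fun y : ↥(range N) → ℝ => ∏ i : ↥(range N), Complex.exp ((b i * y i : ℝ) * Complex.I))]
  · rw [integral_fintype_prod_eq_prod
      (f := fun (i : ↥(range N)) (x : ℝ) => Complex.exp ((b i * x : ℝ) * Complex.I))]
    rw [Finset.prod_coe_sort (range N) (fun i => ∫ x, Complex.exp ((b i * x : ℝ) * Complex.I) ∂lam)]
  · exact (by fun_prop : Measurable fun y : ↥(range N) → ℝ =>
      ∏ i : ↥(range N), Complex.exp ((b i * y i : ℝ) * Complex.I)).aestronglyMeasurable

theorem ext_of_ex (μ ν : Measure (ℕ → ℝ)) [IsFiniteMeasure μ] [IsFiniteMeasure ν]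
    (h : ∀ N a, ∫ w, ex N a w ∂μ = ∫ w, ex N a w ∂ν) : μ = ν := by
  have key : ∀ I : Finset ℕ, ν.map (I.restrict (π := fun _ : ℕ => ℝ)) = μ.map (I.restrict (π := fun _ : ℕ => ℝ)) := by
    intro I
    have hm : Measurable (I.restrict (π := fun _ : ℕ => ℝ)) := Finset.measurable_restrict I
    have f1 : IsFiniteMeasure (μ.map (I.restrict (π := fun _ : ℕ => ℝ))) := Measure.isFiniteMeasure_map μ _
    have f2 : IsFiniteMeasure (ν.map (I.restrict (π := fun _ : ℕ => ℝ))) := Measure.isFiniteMeasure_map ν _
    apply Measure.ext_of_charFunDual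
    funext L
    rw [charFunDual_apply, charFunDual_apply]
    have hc : Continuous fun v : (I → ℝ) => Complex.exp ((L v : ℂ) * Complex.I) := by fun_prop
    rw [integral_map hm.aemeasurable hc.aestronglyMeasurable, integral_map hm.aemeasurable hc.aestronglyMeasurable]
    classical
    set a : ℕ → ℝ := fun j => if hj : j ∈ I then L (Pi.single ⟨j, hj⟩ 1) else 0 with ha
    set N := I.sup id + 1 with hN
    have hIN : I ⊆ range N := by
      intro x hx
      rw [mem_range, hN]
      exact Nat.lt_succ_of_le (Finset.le_sup (f := id) hx)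
    have hL : ∀ w : ℕ → ℝ, L (I.restrict w) = lin N a w := by
      intro w
      have e1 : (I.restrict w : I → ℝ) = ∑ i : I, (w i) • (Pi.single i (1:ℝ) : I → ℝ) := by
        ext i
        simp [Finset.sum_apply, Pi.single_apply]
      rw [e1, map_sum]
      unfold lin
      rw [← Finset.sum_subset hIN (f := fun j => a j * w j)]
      · rw [← Finset.sum_coe_sort I]
        refine Finset.sum_congr rfl fun i _ => ?_
        rw [map_smul, ha]
        simp [mul_comm]
      · intro x _ hx
        simp [ha, hx]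
    simp_rw [hL]
    exact (h N a).symm
  have k1 : IsProjectiveLimit μ (fun I : Finset ℕ => μ.map (I.restrict (π := fun _ : ℕ => ℝ))) := fun I => rfl
  have k2 : IsProjectiveLimit ν (fun I : Finset ℕ => μ.map (I.restrict (π := fun _ : ℕ => ℝ))) := key
  have : ∀ I : Finset ℕ, IsFiniteMeasure (μ.map (I.restrict (π := fun _ : ℕ => ℝ))) := fun I =>
    Measure.isFiniteMeasure_map μ _
  exact IsProjectiveLimit.unique k1 k2

/-- a law of a sequence which is Gaussian with covariance `K` -/
def HasCov (γ : Measure (ℕ → ℝ)) (K : ℕ → ℕ → ℝ) : Prop :=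
  ∀ (N : ℕ) (a : ℕ → ℝ), ∫ w, ex N a w ∂γ
    = Complex.exp ((-(1/2) * ∑ j ∈ range N, ∑ k ∈ range N, a j * a k * K j k : ℝ) : ℂ)

theorem exists_gauss_of_chol (L K : ℕ → ℕ → ℝ) (hL : ∀ n i, n < i → L n i = 0)
    (hK : ∀ N j k, j < N → k < N → K j k = ∑ i ∈ range N, L j i * L k i) :
    ∃ γ : Measure (ℕ → ℝ), IsProbabilityMeasure γ ∧ HasCov γ K := by
  let W : (ℕ → ℝ) → (ℕ → ℝ) := fun g n => ∑ i ∈ range (n+1), L n i * g i
  have hW : Measurable W := by
    rw [measurable_pi_iff]; intro n
    show Measurable fun g : ℕ → ℝ => ∑ i ∈ range (n+1), L n i * g i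
    fun_prop
  refine ⟨(Measure.infinitePi (fun _ : ℕ => gaussianReal 0 1)).map W,
    Measure.isProbabilityMeasure_map hW.aemeasurable, ?_⟩
  intro N a
  rw [integral_map hW.aemeasurable (ex_meas N a).aestronglyMeasurable]
  set b : ℕ → ℝ := fun i => ∑ j ∈ range N, a j * L j i with hb
  have h1 : ∀ g : ℕ → ℝ, ex N a (W g) = ex N b g := by
    intro g
    unfold ex
    have : lin N a (W g) = lin N b g := by
      unfold lin
      have e : ∀ j ∈ range N, a j * W g j = ∑ i ∈ range N, a j * L j i * g i := by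
        intro j hj
        rw [mem_range] at hj
        show a j * ∑ i ∈ range (j+1), L j i * g i = _
        rw [Finset.mul_sum]
        have hs : range (j+1) ⊆ range N := Finset.range_subset_range.2 hj
        rw [← Finset.sum_subset hs (f := fun i => a j * L j i * g i)]
        · refine Finset.sum_congr rfl fun i _ => ?_
          ring
        · intro i _ hi
          rw [mem_range, not_lt] at hi
          rw [hL j i (by omega)]; ring
      rw [Finset.sum_congr rfl e, Finset.sum_comm]
      refine Finset.sum_congr rfl fun i _ => ?_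
      rw [hb, Finset.sum_mul]
    rw [this]
  simp_rw [h1]
  rw [iid_char]
  have h2 : ∀ i ∈ range N, ∫ x, Complex.exp ((b i * x : ℝ) * Complex.I) ∂(gaussianReal 0 1)
      = Complex.exp ((-(1/2) * (b i)^2 : ℝ) : ℂ) := by
    intro i _
    have := charFun_gaussianReal (μ := 0) (v := 1) (b i)
    rw [charFun_apply_real] at this
    push_cast at this ⊢
    rw [this]
    congr 1
    simp
    ring
  rw [Finset.prod_congr rfl h2, ← Complex.exp_sum]
  congr 1
  rw [← Complex.ofReal_sum]
  congr 1
  rw [← Finset.mul_sum]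
  congr 1
  have h3 : ∀ j ∈ range N, ∀ k ∈ range N, a j * a k * K j k = ∑ i ∈ range N, (a j * L j i) * (a k * L k i) := by
    intro j hj k hk
    rw [mem_range] at hj hk
    rw [hK N j k hj hk, Finset.mul_sum]
    refine Finset.sum_congr rfl fun i _ => ?_
    ring
  have h4 : ∑ j ∈ range N, ∑ k ∈ range N, a j * a k * K j k
      = ∑ j ∈ range N, ∑ k ∈ range N, ∑ i ∈ range N, (a j * L j i) * (a k * L k i) :=
    Finset.sum_congr rfl fun j hj => Finset.sum_congr rfl fun k hk => h3 j hj k hk
  rw [h4]
  have h5 : ∀ j ∈ range N, ∑ k ∈ range N, ∑ i ∈ range N, (a j * L j i) * (a k * L k i)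
      = ∑ i ∈ range N, ∑ k ∈ range N, (a j * L j i) * (a k * L k i) := fun j _ => Finset.sum_comm
  rw [Finset.sum_congr rfl h5, Finset.sum_comm]
  refine Finset.sum_congr rfl fun i _ => ?_
  rw [hb, sq, Finset.sum_mul_sum]

theorem exists_gauss {E : Type*} [NormedAddCommGroup E] [InnerProductSpace ℝ E] (h : ℕ → E) :
    ∃ γ : Measure (ℕ → ℝ), IsProbabilityMeasure γ ∧ HasCov γ (fun j k => inner ℝ (h j) (h k)) := by
  let v : ℕ → E := InnerProductSpace.gramSchmidt ℝ h
  let c : ℕ → ℕ → ℝ := fun n i => if i < n then inner ℝ (v i) (h n) / ‖v i‖ ^ 2 else if i = n then 1 else 0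
  have hexp : ∀ N n, n < N → h n = ∑ i ∈ range N, c n i • v i := by
    intro N n hn
    have hs : range (n+1) ⊆ range N := Finset.range_subset_range.2 hn
    rw [← Finset.sum_subset hs]
    · rw [Finset.sum_range_succ]
      have e1 : c n n = 1 := by simp [c]
      have e2 : ∀ i ∈ range n, c n i • v i = (inner ℝ (v i) (h n) / ‖v i‖ ^ 2) • v i := by
        intro i hi
        rw [mem_range] at hi
        simp only [c, if_pos hi]
      rw [Finset.sum_congr rfl e2, e1, one_smul, add_comm]
      have := InnerProductSpace.gramSchmidt_def'' ℝ h n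
      rw [Nat.Iio_eq_range] at this
      exact this
    · intro i _ hi
      rw [mem_range, not_lt] at hi
      have : c n i = 0 := by
        simp only [c]
        rw [if_neg (by omega), if_neg (by omega)]
      rw [this, zero_smul]
  apply exists_gauss_of_chol (fun n i => c n i * ‖v i‖)
  · intro n i hni
    have : c n i = 0 := by
      simp only [c]
      rw [if_neg (by omega), if_neg (by omega)]
    rw [this, zero_mul]
  · intro N j k hj hk
    show inner ℝ (h j) (h k) = _
    rw [hexp N j hj, hexp N k hk, sum_inner]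
    refine Finset.sum_congr rfl fun i hi => ?_
    rw [inner_sum, Finset.sum_eq_single i]
    · rw [inner_smul_left, inner_smul_right, real_inner_self_eq_norm_sq]
      simp only [conj_trivial]
      ring
    · intro l _ hl
      rw [inner_smul_left, inner_smul_right, InnerProductSpace.gramSchmidt_orthogonal ℝ h (Ne.symm hl)]
      simp
    · intro hi'; exact absurd hi hi'

end Pool.Agent.H514R3
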