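import Mathlib
import Pool.Agent.H514R3.Gau

set_option autoImplicit false
open MeasureTheory Filter Topology Finset ProbabilityTheory
open scoped ComplexConjugate

namespace Pool.Agent.H514R3

set_option linter.unusedSectionVars false
set_option linter.unusedVariables false

/-- one sided shift -/
def sh (w : ℕ → ℝ) : ℕ → ℝ := fun n => w (n + 1)

lemma sh_meas : Measurable sh := by
  rw [measurable_pi_iff]; intro n; exact measurable_pi_apply (n+1)

lemma sh_iter (n : ℕ) (w : ℕ → ℝ) (k : ℕ) : sh^[n] w k = w (k + n) := by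
  induction n generalizing w k with
  | zero => rfl
  | succ n ih =>
    rw [Function.iterate_succ_apply', sh, ih]
    congr 1; omega

lemma int_comp {X E : Type*} [MeasurableSpace X] [NormedAddCommGroup E] [NormedSpace ℝ E] {P : Measure X}
    {T : X → X} (hT : MeasurePreserving T P P) {f : X → E} (hf : AEStronglyMeasurable f P) :
    ∫ x, f (T x) ∂P = ∫ x, f x ∂P := by
  have hf' : AEStronglyMeasurable f (P.map T) := by rw [hT.map_eq]; exact hf
  rw [← integral_map hT.measurable.aemeasurable hf', hT.map_eq]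

/-- autocorrelation of an exponential -/
noncomputable def corr (γ : Measure (ℕ → ℝ)) (N : ℕ) (a : ℕ → ℝ) (n : ℕ) : ℂ :=
  ∫ w, (ex N a w - ∫ u, ex N a u ∂γ) * conj (ex N a (sh^[n] w) - ∫ u, ex N a u ∂γ) ∂γ

structure WM (γ : Measure (ℕ → ℝ)) : Prop where
  mp : MeasurePreserving sh γ γ
  ces : ∀ (N : ℕ) (a : ℕ → ℝ),
    Tendsto (fun M : ℕ => (1 / (M:ℝ)) * ∑ n ∈ range M, ‖corr γ N a n‖) atTop (𝓝 0)

lemma double_cesaro (q : ℕ → ℝ) (hq : ∀ n, 0 ≤ q n) (M : ℕ) :
    ∑ m ∈ range M, ∑ n ∈ range M, q (lag m n) ≤ 2 * M * ∑ n ∈ range M, q n := by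
  have h1 : ∀ m ∈ range M, ∑ n ∈ range M, q (lag m n) ≤ 2 * ∑ n ∈ range M, q n := by
    intro m hm
    rw [mem_range] at hm
    have h2 : ∑ n ∈ range M, q (lag m n) = ∑ n ∈ range (m+1), q (lag m n) + ∑ n ∈ Finset.Ico (m+1) M, q (lag m n) := by
      simp only [Finset.range_eq_Ico]
      rw [Finset.sum_Ico_consecutive _ (Nat.zero_le _) (by omega : m + 1 ≤ M)]
    have h3 : ∑ n ∈ range (m+1), q (lag m n) = ∑ n ∈ range (m+1), q n := by
      rw [← Finset.sum_range_reflect (fun n => q n) (m+1)]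
      refine Finset.sum_congr rfl fun n hn => ?_
      rw [mem_range] at hn
      congr 1
      unfold lag; omega
    have h4 : ∑ n ∈ Finset.Ico (m+1) M, q (lag m n) = ∑ n ∈ Finset.Ico 1 (M - m), q n := by
      rw [Finset.sum_Ico_eq_sum_range, Finset.sum_Ico_eq_sum_range]
      have : M - (m+1) = M - m - 1 := by omega
      rw [this]
      refine Finset.sum_congr rfl fun n hn => ?_
      congr 1
      unfold lag; omega
    rw [h2, h3, h4]
    have h5 : ∑ n ∈ range (m+1), q n ≤ ∑ n ∈ range M, q n :=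
      Finset.sum_le_sum_of_subset_of_nonneg (Finset.range_subset_range.2 (by omega)) (fun i _ _ => hq i)
    have h6 : ∑ n ∈ Finset.Ico 1 (M - m), q n ≤ ∑ n ∈ range M, q n := by
      apply Finset.sum_le_sum_of_subset_of_nonneg
      · intro x hx
        rw [Finset.mem_Ico] at hx; rw [mem_range]; omega
      · exact fun i _ _ => hq i
    linarith
  calc ∑ m ∈ range M, ∑ n ∈ range M, q (lag m n) ≤ ∑ m ∈ range M, 2 * ∑ n ∈ range M, q n := Finset.sum_le_sum h1
    _ = 2 * M * ∑ n ∈ range M, q n := by rw [Finset.sum_const, card_range, nsmul_eq_mul]; ring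

section
variable {X : Type*} [MeasurableSpace X] {μ : Measure X} [IsProbabilityMeasure μ] {S : X → X}
  {γ : Measure (ℕ → ℝ)} [IsProbabilityMeasure γ]

/-- the test function -/
noncomputable def tf (γ : Measure (ℕ → ℝ)) (A : Set X) (N : ℕ) (a : ℕ → ℝ) (z : X × (ℕ → ℝ)) : ℂ :=
  A.indicator (fun _ => (1:ℂ)) z.1 * (ex N a z.2 - ∫ u, ex N a u ∂γ)

lemma cmean_norm (N : ℕ) (a : ℕ → ℝ) : ‖∫ u, ex N a u ∂γ‖ ≤ 1 := by
  refine (norm_integral_le_integral_norm _).trans ?_
  simp_rw [ex_norm]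
  simp

lemma ind_norm (A : Set X) (x : X) : ‖A.indicator (fun _ => (1:ℂ)) x‖ ≤ 1 := by
  by_cases h : x ∈ A
  · simp [h]
  · simp [h]

lemma tf_norm (A : Set X) (N : ℕ) (a : ℕ → ℝ) (z : X × (ℕ → ℝ)) : ‖tf γ A N a z‖ ≤ 2 := by
  unfold tf
  rw [norm_mul]
  have h1 := ind_norm A z.1
  have h2 : ‖ex N a z.2 - ∫ u, ex N a u ∂γ‖ ≤ 2 := by
    refine (norm_sub_le _ _).trans ?_
    rw [ex_norm]
    linarith [cmean_norm (γ := γ) N a]
  calc _ ≤ 1 * 2 := mul_le_mul h1 h2 (norm_nonneg _) zero_le_one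
    _ = 2 := by norm_num

lemma tf_meas {A : Set X} (hA : MeasurableSet A) (N : ℕ) (a : ℕ → ℝ) : Measurable (tf γ A N a) := by
  unfold tf
  have h1 : Measurable (A.indicator (fun _ => (1:ℂ))) := measurable_const.indicator hA
  exact (h1.comp measurable_fst).mul (((ex_meas N a).comp measurable_snd).sub_const _)

lemma prodmap_iter (S : X → X) (n : ℕ) (z : X × (ℕ → ℝ)) :
    (Prod.map S sh)^[n] z = (S^[n] z.1, sh^[n] z.2) := by
  rw [Prod.map_iterate]; rfl

lemma corr_shift (hγ : WM γ) (N : ℕ) (a : ℕ → ℝ) (m n : ℕ) (hmn : m ≤ n) :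
    ∫ w, (ex N a (sh^[m] w) - ∫ u, ex N a u ∂γ) * conj (ex N a (sh^[n] w) - ∫ u, ex N a u ∂γ) ∂γ
      = corr γ N a (n - m) := by
  unfold corr
  have h := int_comp (hγ.mp.iterate m)
    (f := fun w => (ex N a w - ∫ u, ex N a u ∂γ) * conj (ex N a (sh^[n-m] w) - ∫ u, ex N a u ∂γ)) (by
      apply Measurable.aestronglyMeasurable
      have e1 := ex_meas N a
      have e2 : Measurable fun w => ex N a (sh^[n-m] w) := e1.comp (sh_meas.iterate _)
      exact (e1.sub_const _).mul (Complex.continuous_conj.measurable.comp (e2.sub_const _)))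
  rw [← h]
  refine integral_congr_ae (Filter.Eventually.of_forall fun w => ?_)
  simp only
  rw [← Function.iterate_add_apply, Nat.sub_add_cancel hmn]

lemma tf_corr (hS : MeasurePreserving S μ μ) (hγ : WM γ) {A : Set X} (hA : MeasurableSet A)
    (N : ℕ) (a : ℕ → ℝ) (m n : ℕ) :
    ‖∫ z, tf γ A N a ((Prod.map S sh)^[m] z) * conj (tf γ A N a ((Prod.map S sh)^[n] z)) ∂(μ.prod γ)‖
      ≤ ‖corr γ N a (lag m n)‖ := by
  have h1 : ∀ z : X × (ℕ → ℝ), tf γ A N a ((Prod.map S sh)^[m] z) * conj (tf γ A N a ((Prod.map S sh)^[n] z))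
      = (A.indicator (fun _ => (1:ℂ)) (S^[m] z.1) * conj (A.indicator (fun _ => (1:ℂ)) (S^[n] z.1)))
        * ((ex N a (sh^[m] z.2) - ∫ u, ex N a u ∂γ) * conj (ex N a (sh^[n] z.2) - ∫ u, ex N a u ∂γ)) := by
    intro z
    rw [prodmap_iter, prodmap_iter]
    unfold tf
    simp only [map_mul]
    ring
  simp_rw [h1]
  rw [integral_prod_mul (f := fun x => (A.indicator (fun _ => (1:ℂ)) (S^[m] x) * conj (A.indicator (fun _ => (1:ℂ)) (S^[n] x))))
    (g := fun w => ((ex N a (sh^[m] w) - ∫ u, ex N a u ∂γ) * conj (ex N a (sh^[n] w) - ∫ u, ex N a u ∂γ)))]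
  rw [norm_mul]
  have h2 : ‖∫ x, (A.indicator (fun _ => (1:ℂ)) (S^[m] x) * conj (A.indicator (fun _ => (1:ℂ)) (S^[n] x))) ∂μ‖ ≤ 1 := by
    have := norm_integral_le_of_norm_le_const (μ := μ) (C := 1)
      (f := fun x => (A.indicator (fun _ => (1:ℂ)) (S^[m] x) * conj (A.indicator (fun _ => (1:ℂ)) (S^[n] x))))
      (Filter.Eventually.of_forall fun x => by
        rw [norm_mul, RCLike.norm_conj]
        exact mul_le_one₀ (ind_norm _ _) (norm_nonneg _) (ind_norm _ _))
    simpa using this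
  have h3 : ‖∫ w, (ex N a (sh^[m] w) - ∫ u, ex N a u ∂γ) * conj (ex N a (sh^[n] w) - ∫ u, ex N a u ∂γ) ∂γ‖
      = ‖corr γ N a (lag m n)‖ := by
    rcases le_total m n with h | h
    · rw [corr_shift hγ N a m n h]
      congr 2; unfold lag; omega
    · have : lag m n = m - n := by unfold lag; omega
      rw [this, ← corr_shift hγ N a n m h, ← RCLike.norm_conj, ← integral_conj]
      congr 1
      refine integral_congr_ae (Filter.Eventually.of_forall fun w => ?_)
      simp only [map_mul, Complex.conj_conj]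
      ring
  rw [h3]
  calc _ ≤ 1 * ‖corr γ N a (lag m n)‖ := by gcongr
    _ = _ := one_mul _

theorem tf_orth (hS : MeasurePreserving S μ μ) (hγ : WM γ) {A : Set X} (hA : MeasurableSet A)
    (N : ℕ) (a : ℕ → ℝ) {E : Set (X × (ℕ → ℝ))} (hE : MeasurableSet E)
    (hinv : (Prod.map S sh) ⁻¹' E = E) :
    ∫ z in E, tf γ A N a z ∂(μ.prod γ) = 0 := by
  set P := μ.prod γ with hP
  set T := Prod.map S sh with hT
  have hTmp : MeasurePreserving T P P := hS.prod hγ.mp
  set G := tf γ A N a with hG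
  have hGm : Measurable G := tf_meas hA N a
  have hGn : ∀ z, ‖G z‖ ≤ 2 := tf_norm A N a
  have hGT : ∀ n, Measurable fun z => G (T^[n] z) := fun n => hGm.comp (hTmp.measurable.iterate n)
  have hGi : ∀ n, Integrable (fun z => G (T^[n] z)) P := fun n =>
    Integrable.mono' (g := fun _ => (2:ℝ)) (integrable_const _) (hGT n).aestronglyMeasurable
      (Filter.Eventually.of_forall fun z => hGn _)
  have hinvn : ∀ n, (T^[n]) ⁻¹' E = E := by
    intro n
    induction n with
    | zero => rfl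
    | succ n ih => rw [Function.iterate_succ, Set.preimage_comp, ih, hinv]
  have hstep : ∀ n, ∫ z in E, G (T^[n] z) ∂P = ∫ z in E, G z ∂P := by
    intro n
    rw [← integral_indicator hE, ← integral_indicator hE]
    rw [← int_comp (hTmp.iterate n) (f := E.indicator G) (hGm.indicator hE).aestronglyMeasurable]
    refine integral_congr_ae (Filter.Eventually.of_forall fun z => ?_)
    have : (T^[n] z ∈ E) ↔ z ∈ E := by
      conv_rhs => rw [← hinvn n]
      rfl
    show E.indicator (fun z => G (T^[n] z)) z = E.indicator G (T^[n] z)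
    by_cases hz : z ∈ E
    · rw [Set.indicator_of_mem hz, Set.indicator_of_mem (this.2 hz)]
    · rw [Set.indicator_of_notMem hz, Set.indicator_of_notMem (fun h => hz (this.1 h))]
  -- averages
  have havg : ∀ M : ℕ, 0 < M → ∫ z in E, G z ∂P = ∫ z in E, (1 / (M:ℂ)) * ∑ n ∈ range M, G (T^[n] z) ∂P := by
    intro M hM
    rw [integral_const_mul, integral_finsetSum]
    · simp_rw [hstep]
      rw [Finset.sum_const, card_range, nsmul_eq_mul]
      have : (M:ℂ) ≠ 0 := by exact_mod_cast hM.ne'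
      field_simp
    · intro n _; exact (hGi n).integrableOn
  have hbound : ∀ M : ℕ, ∀ δ : ℝ, 0 < M → 0 < δ →
      ‖∫ z in E, G z ∂P‖ ≤ (1/2) * (δ + (1/δ) * (2 * ((1 / (M:ℝ)) * ∑ n ∈ range M, ‖corr γ N a n‖))) := by
    intro M δ hM hδ
    rw [havg M hM]
    set H : X × (ℕ → ℝ) → ℂ := fun z => (1 / (M:ℂ)) * ∑ n ∈ range M, G (T^[n] z) with hH
    have hHm : Measurable H := by
      have : Measurable fun z => ∑ n ∈ range M, G (T^[n] z) := Finset.measurable_fun_sum _ fun n _ => hGT n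
      exact this.const_mul _
    have hHn : ∀ z, ‖H z‖ ≤ 2 := by
      intro z
      rw [hH]
      simp only [norm_mul, norm_div, norm_one, Complex.norm_natCast]
      have : ‖∑ n ∈ range M, G (T^[n] z)‖ ≤ M * 2 := by
        refine (norm_sum_le _ _).trans ?_
        calc ∑ n ∈ range M, ‖G (T^[n] z)‖ ≤ ∑ n ∈ range M, (2:ℝ) := Finset.sum_le_sum fun n _ => hGn _
          _ = M * 2 := by simp
      have hM' : (0:ℝ) < M := by exact_mod_cast hM
      calc 1 / (M:ℝ) * ‖∑ n ∈ range M, G (T^[n] z)‖ ≤ 1 / (M:ℝ) * (M * 2) := by gcongr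
        _ = 2 := by field_simp
    have hHi : Integrable (fun z => ‖H z‖) P :=
      Integrable.mono' (g := fun _ => (2:ℝ)) (integrable_const _) hHm.norm.aestronglyMeasurable
        (Filter.Eventually.of_forall fun z => by rw [norm_norm]; exact hHn z)
    have hHi2 : Integrable (fun z => ‖H z‖ ^ 2) P :=
      Integrable.mono' (g := fun _ => (4:ℝ)) (integrable_const _) (hHm.norm.pow_const 2).aestronglyMeasurable
        (Filter.Eventually.of_forall fun z => by
          rw [norm_pow, norm_norm]; nlinarith [hHn z, norm_nonneg (H z)])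
    have s1 : ‖∫ z in E, H z ∂P‖ ≤ ∫ z, ‖H z‖ ∂P := by
      refine (norm_integral_le_integral_norm _).trans ?_
      exact setIntegral_le_integral hHi (Filter.Eventually.of_forall fun z => norm_nonneg _)
    have s2 : ∫ z, ‖H z‖ ∂P ≤ ∫ z, (1/2) * (δ + (1/δ) * ‖H z‖ ^ 2) ∂P := by
      apply integral_mono hHi
      · exact ((integrable_const _).add (hHi2.const_mul _)).const_mul _
      · intro z
        show ‖H z‖ ≤ (1/2) * (δ + (1/δ) * ‖H z‖ ^ 2)
        have h : 0 ≤ (‖H z‖ - δ)^2 / δ := by positivity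
        have : (‖H z‖ - δ)^2 / δ = (1/δ) * ‖H z‖^2 - 2 * ‖H z‖ + δ := by field_simp; ring
        linarith
    have s3 : ∫ z, (1/2) * (δ + (1/δ) * ‖H z‖ ^ 2) ∂P = (1/2) * (δ + (1/δ) * ∫ z, ‖H z‖ ^ 2 ∂P) := by
      rw [integral_const_mul, integral_add (integrable_const _) (hHi2.const_mul _), integral_const_mul]
      simp
    have s4 : ∫ z, ‖H z‖ ^ 2 ∂P ≤ 2 * ((1 / (M:ℝ)) * ∑ n ∈ range M, ‖corr γ N a n‖) := by
      have e1 : ((∫ z, ‖H z‖ ^ 2 ∂P : ℝ) : ℂ) = ∫ z, H z * conj (H z) ∂P := by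
        rw [← integral_complex_ofReal]
        refine integral_congr_ae (Filter.Eventually.of_forall fun z => ?_)
        simp only
        rw [Complex.mul_conj, Complex.normSq_eq_norm_sq]
      have e2 : ∀ z, H z * conj (H z) = (1 / (M:ℂ))^2 * ∑ m ∈ range M, ∑ n ∈ range M, G (T^[m] z) * conj (G (T^[n] z)) := by
        intro z
        rw [hH]
        simp only [map_mul, map_sum, map_div₀, map_one, map_natCast]
        rw [← Finset.sum_mul_sum]
        ring
      have e3 : ∫ z, H z * conj (H z) ∂P = (1 / (M:ℂ))^2 * ∑ m ∈ range M, ∑ n ∈ range M, ∫ z, G (T^[m] z) * conj (G (T^[n] z)) ∂P := by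
        simp_rw [e2]
        have hi : ∀ m n, Integrable (fun z => G (T^[m] z) * conj (G (T^[n] z))) P := by
          intro m n
          refine Integrable.mono' (g := fun _ => (4:ℝ)) (integrable_const _)
            ((hGT m).mul (Complex.continuous_conj.measurable.comp (hGT n))).aestronglyMeasurable
            (Filter.Eventually.of_forall fun z => ?_)
          rw [norm_mul, RCLike.norm_conj]
          nlinarith [hGn (T^[m] z), hGn (T^[n] z), norm_nonneg (G (T^[m] z)), norm_nonneg (G (T^[n] z))]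
        rw [integral_const_mul, integral_finsetSum]
        · congr 1
          refine Finset.sum_congr rfl fun m _ => ?_
          rw [integral_finsetSum]
          intro n _; exact hi m n
        · intro m _
          exact integrable_finsetSum _ fun n _ => hi m n
      have e4 : ∫ z, ‖H z‖ ^ 2 ∂P ≤ ‖((∫ z, ‖H z‖ ^ 2 ∂P : ℝ) : ℂ)‖ := by
        rw [Complex.norm_real]; exact le_abs_self _
      refine e4.trans ?_
      rw [e1, e3, norm_mul]
      have e5 : ‖∑ m ∈ range M, ∑ n ∈ range M, ∫ z, G (T^[m] z) * conj (G (T^[n] z)) ∂P‖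
          ≤ 2 * M * ∑ n ∈ range M, ‖corr γ N a n‖ := by
        refine le_trans ?_ (double_cesaro (fun n => ‖corr γ N a n‖) (fun n => norm_nonneg _) M)
        refine (norm_sum_le _ _).trans (Finset.sum_le_sum fun m _ => ?_)
        refine (norm_sum_le _ _).trans (Finset.sum_le_sum fun n _ => ?_)
        exact tf_corr hS hγ hA N a m n
      have hM' : (0:ℝ) < M := by exact_mod_cast hM
      calc ‖(1 / (M:ℂ))^2‖ * ‖∑ m ∈ range M, ∑ n ∈ range M, ∫ z, G (T^[m] z) * conj (G (T^[n] z)) ∂P‖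
          ≤ (1 / (M:ℝ))^2 * (2 * M * ∑ n ∈ range M, ‖corr γ N a n‖) := by
            have : ‖(1 / (M:ℂ))^2‖ = (1 / (M:ℝ))^2 := by
              rw [norm_pow, norm_div, norm_one, Complex.norm_natCast]
            rw [this]; gcongr
        _ = 2 * ((1 / (M:ℝ)) * ∑ n ∈ range M, ‖corr γ N a n‖) := by field_simp
    calc ‖∫ z in E, H z ∂P‖ ≤ (1/2) * (δ + (1/δ) * ∫ z, ‖H z‖ ^ 2 ∂P) := by linarith
      _ ≤ _ := by gcongr
  have hfin : ∀ δ : ℝ, 0 < δ → ‖∫ z in E, G z ∂P‖ ≤ (1/2) * δ := by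
    intro δ hδ
    have ht : Tendsto (fun M : ℕ => (1/2) * (δ + (1/δ) * (2 * ((1 / (M:ℝ)) * ∑ n ∈ range M, ‖corr γ N a n‖))))
        atTop (𝓝 ((1/2) * (δ + (1/δ) * (2 * 0)))) :=
      (((hγ.ces N a).const_mul 2).const_mul (1/δ)).const_add δ |>.const_mul (1/2)
    simp only [mul_zero, add_zero] at ht
    refine ge_of_tendsto ht ?_
    filter_upwards [eventually_gt_atTop 0] with M hM
    exact hbound M δ hM hδ
  have h0 : ‖∫ z in E, G z ∂P‖ ≤ 0 := by
    apply le_of_forall_pos_le_add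
    intro δ hδ
    have := hfin δ hδ
    linarith
  exact norm_le_zero_iff.1 h0

end

end Pool.Agent.H514R3
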