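import Mathlib
import Pool.Agent.H514R3.Erg

set_option autoImplicit false
open MeasureTheory Filter Topology Finset ProbabilityTheory
open scoped ComplexConjugate

namespace Pool.Agent.H514R3

theorem erg_prod {X : Type*} [MeasurableSpace X] {μ : Measure X} [IsProbabilityMeasure μ] {S : X → X}
    {γ : Measure (ℕ → ℝ)} [IsProbabilityMeasure γ]
    (hS : Ergodic S μ) (hγ : WM γ) : Ergodic (Prod.map S sh) (μ.prod γ) := by
  have hmp : MeasurePreserving (Prod.map S sh) (μ.prod γ) (μ.prod γ) := hS.toMeasurePreserving.prod hγ.mp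
  refine ⟨hmp, ⟨?_⟩⟩
  intro E hE hinv
  set P := μ.prod γ with hP
  let φ : X → ENNReal := fun x => γ (Prod.mk x ⁻¹' E)
  have hφm : Measurable φ := measurable_measure_prodMk_left hE
  have hφS : φ ∘ S = φ := by
    funext x
    show γ (Prod.mk (S x) ⁻¹' E) = γ (Prod.mk x ⁻¹' E)
    rw [← hγ.mp.measure_preimage (measurable_prodMk_left hE).nullMeasurableSet]
    congr 1
    have : ∀ y, ((x, y) ∈ E) ↔ ((S x, sh y) ∈ E) := by
      intro y
      conv_lhs => rw [← hinv]
      rfl
    ext y
    exact (this y).symm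
  obtain ⟨c, hc⟩ := hS.toPreErgodic.ae_eq_const_of_ae_eq_comp hφm hφS
  have hA : ∀ A : Set X, MeasurableSet A → P (E ∩ (Prod.fst ⁻¹' A)) = c * μ A := by
    intro A hA
    rw [hP, Measure.prod_apply (hE.inter (measurable_fst hA))]
    have h1 : ∀ x, γ (Prod.mk x ⁻¹' (E ∩ (Prod.fst ⁻¹' A))) = A.indicator φ x := by
      intro x
      by_cases hx : x ∈ A
      · rw [Set.indicator_of_mem hx]
        show _ = γ (Prod.mk x ⁻¹' E)
        congr 1
        ext y; simp [hx]
      · rw [Set.indicator_of_notMem hx]
        have : Prod.mk x ⁻¹' (E ∩ (Prod.fst ⁻¹' A)) = (∅ : Set (ℕ → ℝ)) := by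
          ext y; simp [hx]
        rw [this, measure_empty]
    simp_rw [h1]
    rw [lintegral_indicator hA, lintegral_congr_ae (ae_restrict_of_ae hc)]
    simp
  have hc1 : P E = c := by
    have := hA Set.univ MeasurableSet.univ
    simpa using this
  have hcf : c ≠ ⊤ := by rw [← hc1]; exact measure_ne_top _ _
  have key : ∀ (A : Set X) (B : Set (ℕ → ℝ)), MeasurableSet A → MeasurableSet B →
      P (E ∩ (A ×ˢ B)) = c * μ A * γ B := by
    intro A B hA' hB'
    have hEA : MeasurableSet (E ∩ (Prod.fst ⁻¹' A)) := hE.inter (measurable_fst hA')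
    have hfin : IsFiniteMeasure ((c * μ A) • γ) := by
      constructor
      rw [Measure.smul_apply, smul_eq_mul]
      exact ENNReal.mul_lt_top (ENNReal.mul_lt_top hcf.lt_top (measure_lt_top _ _)) (measure_lt_top _ _)
    have heq : (P.restrict (E ∩ (Prod.fst ⁻¹' A))).map Prod.snd = (c * μ A) • γ := by
      have f1 : IsFiniteMeasure ((P.restrict (E ∩ (Prod.fst ⁻¹' A))).map Prod.snd) :=
        Measure.isFiniteMeasure_map _ _
      apply ext_of_ex
      intro N a
      rw [integral_map measurable_snd.aemeasurable (ex_meas N a).aestronglyMeasurable, integral_smul_measure]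
      have h0 := tf_orth hS.toMeasurePreserving hγ hA' N a hE hinv
      have i1 : Integrable (fun z : X × (ℕ → ℝ) => A.indicator (fun _ => (1:ℂ)) z.1 * ex N a z.2) P := by
        refine Integrable.mono' (g := fun _ => (1:ℝ)) (integrable_const _) ?_ ?_
        · exact (((measurable_const.indicator hA').comp measurable_fst).mul
            ((ex_meas N a).comp measurable_snd)).aestronglyMeasurable
        · exact Filter.Eventually.of_forall fun z => by
            rw [norm_mul, ex_norm, mul_one]; exact ind_norm A z.1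
      have i2 : Integrable (fun z : X × (ℕ → ℝ) => A.indicator (fun _ => (1:ℂ)) z.1 * ∫ u, ex N a u ∂γ) P := by
        refine Integrable.mono' (g := fun _ => (1:ℝ)) (integrable_const _) ?_ ?_
        · exact (((measurable_const.indicator hA').comp measurable_fst).mul_const _).aestronglyMeasurable
        · exact Filter.Eventually.of_forall fun z => by
            rw [norm_mul]
            exact mul_le_one₀ (ind_norm A z.1) (norm_nonneg _) (cmean_norm N a)
      have h2 : ∫ z in E, (A.indicator (fun _ => (1:ℂ)) z.1 * ex N a z.2) ∂P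
          = (∫ z in E, A.indicator (fun _ => (1:ℂ)) z.1 ∂P) * ∫ u, ex N a u ∂γ := by
        rw [← integral_mul_const, ← sub_eq_zero, ← integral_sub i1.integrableOn i2.integrableOn]
        rw [← h0]
        refine integral_congr_ae (Filter.Eventually.of_forall fun z => ?_)
        simp only [tf]
        ring
      have h3 : ∫ z in E, (A.indicator (fun _ => (1:ℂ)) z.1 * ex N a z.2) ∂P
          = ∫ z in (E ∩ (Prod.fst ⁻¹' A)), ex N a z.2 ∂P := by
        rw [← setIntegral_indicator (measurable_fst hA')]
        refine integral_congr_ae (Filter.Eventually.of_forall fun z => ?_)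
        by_cases hz : z.1 ∈ A
        · simp only [Set.indicator_of_mem hz, one_mul]
          rw [Set.indicator_of_mem (show z ∈ Prod.fst ⁻¹' A from hz)]
        · simp only [Set.indicator_of_notMem hz, zero_mul]
          rw [Set.indicator_of_notMem (show z ∉ Prod.fst ⁻¹' A from hz)]
      have h4 : ∫ z in E, A.indicator (fun _ => (1:ℂ)) z.1 ∂P = ((c * μ A).toReal : ℂ) := by
        have : (fun z : X × (ℕ → ℝ) => A.indicator (fun _ => (1:ℂ)) z.1)
            = (Prod.fst ⁻¹' A).indicator (fun _ : X × (ℕ → ℝ) => (1:ℂ)) := by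
          funext z; rfl
        rw [this, setIntegral_indicator (measurable_fst hA'), setIntegral_const, measureReal_def, hA A hA']
        simp
      rw [← h3, h2, h4, Complex.real_smul]
    have h5 : ((P.restrict (E ∩ (Prod.fst ⁻¹' A))).map Prod.snd) B = ((c * μ A) • γ) B := by rw [heq]
    rw [Measure.map_apply measurable_snd hB', Measure.restrict_apply (measurable_snd hB'),
      Measure.smul_apply, smul_eq_mul] at h5
    rw [← h5]
    congr 1
    ext z
    simp only [Set.mem_inter_iff, Set.mem_prod, Set.mem_preimage]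
    tauto
  have hfin : IsFiniteMeasure (c • μ) := by
    constructor
    rw [Measure.smul_apply, smul_eq_mul]
    exact ENNReal.mul_lt_top hcf.lt_top (measure_lt_top _ _)
  have hprod : (c • μ).prod γ = P.restrict E := by
    apply Measure.prod_eq
    intro A B hA' hB'
    rw [Measure.restrict_apply (hA'.prod hB'), Set.inter_comm, key A B hA' hB', Measure.smul_apply, smul_eq_mul]
  have h6 : P E = c * P E := by
    have h7 : ((c • μ).prod γ) E = (P.restrict E) E := by rw [hprod]
    rw [Measure.restrict_apply hE, Set.inter_self, Measure.prod_apply hE, lintegral_smul_measure,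
      ← Measure.prod_apply hE, smul_eq_mul] at h7
    exact h7.symm
  rw [hc1] at h6
  have h8 : c = 0 ∨ c = 1 := by
    by_cases h : c = 0
    · exact Or.inl h
    · right
      have : c * c = c * 1 := by rw [mul_one]; exact h6.symm
      exact (ENNReal.mul_right_inj h hcf).1 this
  rw [Filter.eventuallyConst_set']
  rcases h8 with h | h
  · left
    rw [ae_eq_empty, hc1, h]
  · right
    rw [ae_eq_univ, prob_compl_eq_zero_iff hE, hc1, h]


lemma ex_conj (N : ℕ) (a w : ℕ → ℝ) : conj (ex N a w) = ex N (fun i => - a i) w := by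
  unfold ex
  rw [← Complex.exp_conj]
  congr 1
  simp only [map_mul, Complex.conj_I, Complex.conj_ofReal]
  have : lin N (fun i => - a i) w = - lin N a w := by
    unfold lin; rw [← Finset.sum_neg_distrib]
    exact Finset.sum_congr rfl fun j _ => by ring
  rw [this]; push_cast; ring

lemma ex_sh (N : ℕ) (a w : ℕ → ℝ) :
    ex N a (sh w) = ex (N+1) (fun i => if i = 0 then 0 else a (i-1)) w := by
  unfold ex
  have : lin N a (sh w) = lin (N+1) (fun i => if i = 0 then 0 else a (i-1)) w := by
    unfold lin
    rw [Finset.sum_range_succ']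
    simp [sh]
  rw [this]

lemma corr_eq {γ : Measure (ℕ → ℝ)} [IsProbabilityMeasure γ] (hmp : MeasurePreserving sh γ γ)
    (N : ℕ) (a : ℕ → ℝ) (n : ℕ) :
    corr γ N a n = (∫ w, ex N a w * conj (ex N a (sh^[n] w)) ∂γ)
      - (∫ w, ex N a w ∂γ) * conj (∫ w, ex N a w ∂γ) := by
  unfold corr
  set c := ∫ u, ex N a u ∂γ with hc
  have hm2 : Measurable fun w => ex N a (sh^[n] w) := (ex_meas N a).comp (sh_meas.iterate _)
  have i1 : Integrable (fun w => ex N a w * conj (ex N a (sh^[n] w))) γ := by
    refine Integrable.mono' (g := fun _ => (1:ℝ)) (integrable_const _)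
      ((ex_meas N a).mul (Complex.continuous_conj.measurable.comp hm2)).aestronglyMeasurable
      (Filter.Eventually.of_forall fun w => ?_)
    rw [norm_mul, RCLike.norm_conj, ex_norm, ex_norm, mul_one]
  have i2 : Integrable (fun w => ex N a w * conj c) γ := (ex_int N a γ).mul_const _
  have i3 : Integrable (fun w => c * conj (ex N a (sh^[n] w))) γ := by
    refine (Integrable.mono' (g := fun _ => (1:ℝ)) (integrable_const _)
      (Complex.continuous_conj.measurable.comp hm2).aestronglyMeasurable
      (Filter.Eventually.of_forall fun w => ?_)).const_mul _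
    simp only [Function.comp]
    rw [RCLike.norm_conj, ex_norm]
  have e : ∀ w, (ex N a w - c) * conj (ex N a (sh^[n] w) - c)
      = (ex N a w * conj (ex N a (sh^[n] w)) - ex N a w * conj c) - (c * conj (ex N a (sh^[n] w)) - c * conj c) := by
    intro w
    rw [map_sub]; ring
  have i12 : Integrable (fun w => ex N a w * conj (ex N a (sh^[n] w)) - ex N a w * conj c) γ := i1.sub i2
  have i34 : Integrable (fun w => c * conj (ex N a (sh^[n] w)) - c * conj c) γ := i3.sub (integrable_const _)
  simp_rw [e]
  rw [integral_sub i12 i34, integral_sub i1 i2,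
    integral_sub i3 (integrable_const _), integral_mul_const, integral_const_mul, integral_const]
  have e2 : ∫ w, conj (ex N a (sh^[n] w)) ∂γ = conj c := by
    rw [integral_conj, int_comp (hmp.iterate n) (ex_meas N a).aestronglyMeasurable]
  rw [e2, ← hc]
  simp

lemma comb_sum (N : ℕ) (a : ℕ → ℝ) (n : ℕ) (X : ℕ → ℝ) :
    ∑ i ∈ range (n + N), ((if i < N then a i else 0) - (if n ≤ i then a (i - n) else 0)) * X i
      = ∑ j ∈ range N, a j * X j - ∑ j ∈ range N, a j * X (j + n) := by
  have e0 : ∀ j ∈ range (n + N), ((if j < N then a j else 0) - (if n ≤ j then a (j - n) else 0)) * X j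
      = (if j < N then a j * X j else 0) - (if n ≤ j then a (j - n) * X j else 0) := by
    intro j _
    split_ifs <;> ring
  rw [Finset.sum_congr rfl e0, Finset.sum_sub_distrib]
  congr 1
  · rw [← Finset.sum_filter]
    refine Finset.sum_congr ?_ fun _ _ => rfl
    ext x; simp only [mem_filter, mem_range]; omega
  · rw [Finset.sum_range_add]
    have z : ∑ x ∈ range n, (if n ≤ x then a (x - n) * X x else 0) = 0 := by
      apply Finset.sum_eq_zero
      intro x hx
      rw [mem_range] at hx
      rw [if_neg (by omega)]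
    rw [z, zero_add]
    refine Finset.sum_congr rfl fun j _ => ?_
    rw [if_pos (by omega)]
    have : n + j - n = j := by omega
    rw [this, add_comm n j]

/-- combination of `ex` and its conjugate shift -/
lemma ex_mul_conj_shift (N : ℕ) (a : ℕ → ℝ) (n : ℕ) (w : ℕ → ℝ) :
    ex N a w * conj (ex N a (sh^[n] w))
      = ex (n + N) (fun i => (if i < N then a i else 0) - (if n ≤ i then a (i - n) else 0)) w := by
  unfold ex
  rw [← Complex.exp_conj, ← Complex.exp_add]
  congr 1
  simp only [map_mul, Complex.conj_I, Complex.conj_ofReal]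
  have : lin (n + N) (fun i => (if i < N then a i else 0) - (if n ≤ i then a (i - n) else 0)) w
      = lin N a w - lin N a (sh^[n] w) := by
    unfold lin
    rw [comb_sum]
    simp_rw [sh_iter]
  rw [this]
  push_cast
  ring

lemma tendsto_of_eventually_zero (q : ℕ → ℝ) (N : ℕ) (hq : ∀ n, N ≤ n → q n = 0) :
    Tendsto (fun M : ℕ => (1 / (M:ℝ)) * ∑ n ∈ range M, q n) atTop (𝓝 0) := by
  have h1 : Tendsto (fun M : ℕ => (1 / (M:ℝ)) * ∑ n ∈ range N, q n) atTop (𝓝 0) := by
    simpa using (tendsto_one_div_atTop_nhds_zero_nat (𝕜 := ℝ)).mul_const (∑ n ∈ range N, q n)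
  refine h1.congr' ?_
  filter_upwards [eventually_ge_atTop N] with M hM
  congr 1
  apply Finset.sum_subset (Finset.range_subset_range.2 hM)
  intro x _ hx
  rw [mem_range, not_lt] at hx
  exact hq x hx

/-- iid sequences are weakly mixing -/
theorem wm_iid (lam : Measure ℝ) [IsProbabilityMeasure lam] : WM (Measure.infinitePi (fun _ : ℕ => lam)) := by
  set γ := Measure.infinitePi (fun _ : ℕ => lam) with hγ
  set F : ℝ → ℂ := fun t => ∫ x, Complex.exp ((t * x : ℝ) * Complex.I) ∂lam with hF
  have hF0 : F 0 = 1 := by simp [hF]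
  have hch : ∀ N b, ∫ w, ex N b w ∂γ = ∏ i ∈ range N, F (b i) := fun N b => iid_char lam N b
  have hmp : MeasurePreserving sh γ γ := by
    refine ⟨sh_meas, ?_⟩
    have f1 : IsProbabilityMeasure (γ.map sh) := Measure.isProbabilityMeasure_map sh_meas.aemeasurable
    apply ext_of_ex
    intro N a
    rw [integral_map sh_meas.aemeasurable (ex_meas N a).aestronglyMeasurable]
    simp_rw [ex_sh]
    rw [hch, hch, Finset.prod_range_succ']
    simp [hF0]
  refine ⟨hmp, ?_⟩
  intro N a
  apply tendsto_of_eventually_zero _ N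
  intro n hn
  rw [norm_eq_zero, corr_eq hmp, sub_eq_zero]
  simp_rw [ex_mul_conj_shift]
  rw [← integral_conj]
  simp_rw [ex_conj]
  rw [hch, hch, hch, Finset.prod_range_add]
  congr 1
  · symm
    apply Finset.prod_subset_one_on_sdiff (Finset.range_subset_range.2 hn)
    · intro j hj
      rw [Finset.mem_sdiff, mem_range, mem_range, not_lt] at hj
      rw [if_neg (by omega), if_neg (by omega), sub_zero, hF0]
    · intro j hj
      rw [mem_range] at hj
      rw [if_pos hj, if_neg (by omega), sub_zero]
  · refine Finset.prod_congr rfl fun j _ => ?_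
    rw [if_neg (by omega), if_pos (by omega), zero_sub]
    have : n + j - n = j := by omega
    rw [this]

lemma lag_succ (j k : ℕ) : lag (j+1) (k+1) = lag j k := by unfold lag; omega

/-- Cesaro means of shifted sequences -/
lemma cesaro_shift (q : ℕ → ℝ) (hq : ∀ n, 0 ≤ q n)
    (h : Tendsto (fun M : ℕ => (1 / (M:ℝ)) * ∑ n ∈ range M, q n) atTop (𝓝 0)) (hC : ∃ C, ∀ n, q n ≤ C)
    (j k : ℕ) : Tendsto (fun M : ℕ => (1 / (M:ℝ)) * ∑ n ∈ range M, q (lag j (k + n))) atTop (𝓝 0) := by
  obtain ⟨C, hC⟩ := hC
  have hC0 : 0 ≤ C := (hq 0).trans (hC 0)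
  have hb : ∀ M : ℕ, ∑ n ∈ range M, q (lag j (k + n)) ≤ (min M j : ℕ) * C + ∑ i ∈ range (k + M - j), q i := by
    intro M
    induction M with
    | zero =>
      have : 0 ≤ ∑ i ∈ range (k + 0 - j), q i := Finset.sum_nonneg fun i _ => hq i
      simp only [Finset.range_zero, Finset.sum_empty, Nat.zero_min, Nat.cast_zero, zero_mul, zero_add]
      exact this
    | succ M ih =>
      rw [Finset.sum_range_succ]
      by_cases hM : M < j
      · have e1 : min (M+1) j = min M j + 1 := by omega
        have e2 : ∑ i ∈ range (k + M - j), q i ≤ ∑ i ∈ range (k + (M+1) - j), q i :=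
          Finset.sum_le_sum_of_subset_of_nonneg (Finset.range_subset_range.2 (by omega)) (fun i _ _ => hq i)
        rw [e1]
        push_cast
        have := hC (lag j (k + M))
        push_cast at ih
        linarith
      · have e1 : min (M+1) j = min M j := by omega
        have e2 : k + (M+1) - j = (k + M - j) + 1 := by omega
        have e3 : lag j (k + M) = k + M - j := by unfold lag; omega
        rw [e1, e2, Finset.sum_range_succ, e3]
        linarith
  have hb2 : ∀ M : ℕ, ∑ i ∈ range (k + M), q i ≤ ∑ i ∈ range M, q i + k * C := by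
    intro M
    rw [add_comm k M, Finset.sum_range_add]
    have : ∑ x ∈ range k, q (M + x) ≤ ∑ x ∈ range k, C := Finset.sum_le_sum fun i _ => hC _
    rw [Finset.sum_const, card_range, nsmul_eq_mul] at this
    linarith
  have hb3 : ∀ M : ℕ, ∑ n ∈ range M, q (lag j (k + n)) ≤ ∑ n ∈ range M, q n + (j + k) * C := by
    intro M
    have h1 := hb M
    have h2 := hb2 M
    have h3 : ∑ i ∈ range (k + M - j), q i ≤ ∑ i ∈ range (k + M), q i :=
      Finset.sum_le_sum_of_subset_of_nonneg (Finset.range_subset_range.2 (by omega)) (fun i _ _ => hq i)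
    have h4 : ((min M j : ℕ) : ℝ) * C ≤ j * C := by
      apply mul_le_mul_of_nonneg_right _ hC0
      exact_mod_cast min_le_right M j
    linarith
  have h5 : Tendsto (fun M : ℕ => (1 / (M:ℝ)) * ∑ n ∈ range M, q n + (1 / (M:ℝ)) * ((j + k) * C)) atTop (𝓝 (0 + 0 * ((j + k) * C))) :=
    h.add ((tendsto_one_div_atTop_nhds_zero_nat (𝕜 := ℝ)).mul_const _)
  rw [zero_mul, add_zero] at h5
  refine squeeze_zero (fun M => ?_) (fun M => ?_) h5
  · exact mul_nonneg (by positivity) (Finset.sum_nonneg fun i _ => hq _)
  · rw [← mul_add]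
    exact mul_le_mul_of_nonneg_left (hb3 M) (by positivity)

/-- stationary Gaussian sequences with small mean absolute covariance are weakly mixing -/
theorem wm_gauss (γ : Measure (ℕ → ℝ)) [IsProbabilityMeasure γ] (r : ℕ → ℝ)
    (hcov : HasCov γ (fun j k => r (lag j k))) (hC : ∃ C, ∀ n, |r n| ≤ C)
    (hr : Tendsto (fun M : ℕ => (1 / (M:ℝ)) * ∑ n ∈ range M, |r n|) atTop (𝓝 0)) : WM γ := by
  have hmp : MeasurePreserving sh γ γ := by
    refine ⟨sh_meas, ?_⟩
    have f1 : IsProbabilityMeasure (γ.map sh) := Measure.isProbabilityMeasure_map sh_meas.aemeasurable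
    apply ext_of_ex
    intro N a
    rw [integral_map sh_meas.aemeasurable (ex_meas N a).aestronglyMeasurable]
    simp_rw [ex_sh]
    rw [hcov, hcov, Finset.sum_range_succ']
    congr 3
    simp only [Finset.sum_range_succ']
    simp [lag_succ]
  refine ⟨hmp, ?_⟩
  intro N a
  -- the cross covariance
  set ρ : ℕ → ℝ := fun n => ∑ j ∈ range N, ∑ k ∈ range N, a j * a k * r (lag j (k + n)) with hρ
  set Q : ℝ := ∑ j ∈ range N, ∑ k ∈ range N, a j * a k * r (lag j k) with hQ
  have hF : ∫ w, ex N a w ∂γ = Complex.exp ((-(1/2) * Q : ℝ) : ℂ) := hcov N a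
  have hcr : ∀ n, corr γ N a n = ((Real.exp (-Q) * (Real.exp (ρ n) - 1) : ℝ) : ℂ) := by
    intro n
    rw [corr_eq hmp]
    simp_rw [ex_mul_conj_shift]
    rw [hcov, hF, ← Complex.ofReal_exp, ← Complex.ofReal_exp, Complex.conj_ofReal, ← Complex.ofReal_mul,
      ← Complex.ofReal_sub]
    congr 1
    have hb : ∑ j ∈ range (n + N), ∑ k ∈ range (n + N),
        ((if j < N then a j else 0) - (if n ≤ j then a (j - n) else 0)) *
        ((if k < N then a k else 0) - (if n ≤ k then a (k - n) else 0)) * r (lag j k) = 2 * Q - 2 * ρ n := by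
      have h1 : ∀ j ∈ range (n + N), ∑ k ∈ range (n + N),
        ((if j < N then a j else 0) - (if n ≤ j then a (j - n) else 0)) *
        ((if k < N then a k else 0) - (if n ≤ k then a (k - n) else 0)) * r (lag j k)
        = ((if j < N then a j else 0) - (if n ≤ j then a (j - n) else 0)) *
          (∑ k ∈ range N, a k * r (lag j k) - ∑ k ∈ range N, a k * r (lag j (k + n))) := by
        intro j _
        rw [← comb_sum N a n (fun k => r (lag j k)), Finset.mul_sum]
        refine Finset.sum_congr rfl fun k _ => ?_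
        ring
      rw [Finset.sum_congr rfl h1]
      rw [comb_sum N a n (fun j => (∑ k ∈ range N, a k * r (lag j k) - ∑ k ∈ range N, a k * r (lag j (k + n))))]
      have e1 : ∑ j ∈ range N, a j * (∑ k ∈ range N, a k * r (lag j k) - ∑ k ∈ range N, a k * r (lag j (k + n)))
          = Q - ρ n := by
        rw [hQ, hρ]
        simp only [mul_sub, Finset.sum_sub_distrib, Finset.mul_sum]
        congr 1
        · exact Finset.sum_congr rfl fun j _ => Finset.sum_congr rfl fun k _ => by ring
        · exact Finset.sum_congr rfl fun j _ => Finset.sum_congr rfl fun k _ => by ring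
      have e2 : ∑ j ∈ range N, a j * (∑ k ∈ range N, a k * r (lag (j + n) k) - ∑ k ∈ range N, a k * r (lag (j + n) (k + n)))
          = ρ n - Q := by
        rw [hQ, hρ]
        simp only [mul_sub, Finset.sum_sub_distrib, Finset.mul_sum]
        congr 1
        · rw [Finset.sum_comm]
          refine Finset.sum_congr rfl fun j _ => Finset.sum_congr rfl fun k _ => ?_
          have : lag (k + n) j = lag j (k + n) := by unfold lag; omega
          rw [this]; ring
        · refine Finset.sum_congr rfl fun j _ => Finset.sum_congr rfl fun k _ => ?_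
          have : lag (j + n) (k + n) = lag j k := by unfold lag; omega
          rw [this]; ring
      rw [e1, e2]; ring
    rw [hb, ← Real.exp_add]
    have t1 : Real.exp (-(1 / 2) * (2 * Q - 2 * ρ n)) = Real.exp (-Q) * Real.exp (ρ n) := by
      rw [← Real.exp_add]; congr 1; ring
    have t2 : Real.exp (-(1 / 2) * Q + -(1 / 2) * Q) = Real.exp (-Q) := by congr 1; ring
    rw [t1, t2]; ring
  obtain ⟨C, hC⟩ := hC
  have hC0 : 0 ≤ C := (abs_nonneg _).trans (hC 0)
  set D : ℝ := ∑ j ∈ range N, ∑ k ∈ range N, |a j| * |a k| * C with hD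
  have hρD : ∀ n, |ρ n| ≤ D := by
    intro n
    refine (Finset.abs_sum_le_sum_abs _ _).trans (Finset.sum_le_sum fun j _ => ?_)
    refine (Finset.abs_sum_le_sum_abs _ _).trans (Finset.sum_le_sum fun k _ => ?_)
    rw [abs_mul, abs_mul]
    gcongr
    exact hC _
  have hD0 : 0 ≤ D := (abs_nonneg _).trans (hρD 0)
  have hexp : ∀ t : ℝ, |t| ≤ D → |Real.exp t - 1| ≤ Real.exp D * |t| := by
    intro t ht
    have h1 := Real.add_one_le_exp t
    have h2 := Real.add_one_le_exp (-t)
    have h3 : Real.exp t * Real.exp (-t) = 1 := by rw [← Real.exp_add]; simp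
    have h4 : Real.exp t ≤ Real.exp D := Real.exp_le_exp.2 ((le_abs_self t).trans ht)
    have h5 : 1 ≤ Real.exp D := Real.one_le_exp hD0
    have h6 : 0 < Real.exp t := Real.exp_pos t
    rw [abs_le]
    constructor
    · have : -(Real.exp D * |t|) ≤ t := by
        have : |t| ≤ Real.exp D * |t| := le_mul_of_one_le_left (abs_nonneg _) h5
        linarith [neg_abs_le t]
      linarith
    · have h7 : Real.exp t - 1 ≤ Real.exp t * t := by nlinarith
      have h8 : Real.exp t * t ≤ Real.exp t * |t| := by gcongr; exact le_abs_self t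
      have h9 : Real.exp t * |t| ≤ Real.exp D * |t| := by gcongr
      linarith
  have hbound : ∀ n, ‖corr γ N a n‖ ≤ Real.exp (-Q) * Real.exp D * |ρ n| := by
    intro n
    rw [hcr n, Complex.norm_real, Real.norm_eq_abs, abs_mul, abs_of_pos (Real.exp_pos _), mul_assoc]
    gcongr
    exact hexp _ (hρD n)
  have hρt : Tendsto (fun M : ℕ => (1 / (M:ℝ)) * ∑ n ∈ range M, |ρ n|) atTop (𝓝 0) := by
    have h1 : Tendsto (fun M : ℕ => ∑ j ∈ range N, ∑ k ∈ range N, |a j| * |a k| *
        ((1 / (M:ℝ)) * ∑ n ∈ range M, |r (lag j (k + n))|)) atTop (𝓝 (∑ j ∈ range N, ∑ k ∈ range N, |a j| * |a k| * 0)) := by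
      apply tendsto_finsetSum; intro j _
      apply tendsto_finsetSum; intro k _
      apply Tendsto.const_mul
      exact cesaro_shift (fun n => |r n|) (fun n => abs_nonneg _) hr ⟨C, hC⟩ j k
    simp only [mul_zero, Finset.sum_const_zero] at h1
    refine squeeze_zero (fun M => ?_) (fun M => ?_) h1
    · exact mul_nonneg (by positivity) (Finset.sum_nonneg fun i _ => abs_nonneg _)
    · have h2 : ∑ n ∈ range M, |ρ n| ≤ ∑ n ∈ range M, ∑ j ∈ range N, ∑ k ∈ range N, |a j| * |a k| * |r (lag j (k + n))| := by
        refine Finset.sum_le_sum fun n _ => ?_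
        refine (Finset.abs_sum_le_sum_abs _ _).trans (Finset.sum_le_sum fun j _ => ?_)
        refine (Finset.abs_sum_le_sum_abs _ _).trans (Finset.sum_le_sum fun k _ => ?_)
        rw [abs_mul, abs_mul]
      have h3 : ∑ n ∈ range M, ∑ j ∈ range N, ∑ k ∈ range N, |a j| * |a k| * |r (lag j (k + n))|
          = ∑ j ∈ range N, ∑ k ∈ range N, |a j| * |a k| * ∑ n ∈ range M, |r (lag j (k + n))| := by
        rw [Finset.sum_comm]
        refine Finset.sum_congr rfl fun j _ => ?_
        rw [Finset.sum_comm]
        refine Finset.sum_congr rfl fun k _ => ?_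
        rw [Finset.mul_sum]
      calc (1 / (M:ℝ)) * ∑ n ∈ range M, |ρ n|
          ≤ (1 / (M:ℝ)) * ∑ j ∈ range N, ∑ k ∈ range N, |a j| * |a k| * ∑ n ∈ range M, |r (lag j (k + n))| := by
            rw [← h3]; gcongr
        _ = _ := by
            rw [Finset.mul_sum]
            refine Finset.sum_congr rfl fun j _ => ?_
            rw [Finset.mul_sum]
            refine Finset.sum_congr rfl fun k _ => ?_
            ring
  have h9 : Tendsto (fun M : ℕ => Real.exp (-Q) * Real.exp D * ((1 / (M:ℝ)) * ∑ n ∈ range M, |ρ n|)) atTop (𝓝 0) := by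
    simpa using hρt.const_mul (Real.exp (-Q) * Real.exp D)
  refine squeeze_zero (fun M => ?_) (fun M => ?_) h9
  · exact mul_nonneg (by positivity) (Finset.sum_nonneg fun i _ => norm_nonneg _)
  · calc (1 / (M:ℝ)) * ∑ n ∈ range M, ‖corr γ N a n‖ ≤ (1 / (M:ℝ)) * ∑ n ∈ range M, Real.exp (-Q) * Real.exp D * |ρ n| := by
          gcongr; exact hbound _
      _ = _ := by rw [← Finset.mul_sum]; ring

end Pool.Agent.H514R3
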