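import Mathlib
import Pool.Agent.H514R3.Gau

set_option autoImplicit false
open MeasureTheory Filter Topology Finset ProbabilityTheory

namespace Pool.Agent.H514R3

/-- quadratic form -/
def qf (K : ℕ → ℕ → ℝ) (N : ℕ) (a : ℕ → ℝ) : ℝ := ∑ j ∈ range N, ∑ k ∈ range N, a j * a k * K j k

lemma qf_nonneg {γ : Measure (ℕ → ℝ)} [IsProbabilityMeasure γ] {K : ℕ → ℕ → ℝ} (h : HasCov γ K)
    (N : ℕ) (a : ℕ → ℝ) : 0 ≤ qf K N a := by
  have h1 : ‖∫ w, ex N a w ∂γ‖ ≤ 1 := by
    refine (norm_integral_le_integral_norm _).trans ?_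
    simp_rw [ex_norm]
    simp
  rw [h N a, Complex.norm_exp, Complex.ofReal_re] at h1
  have h2 := Real.exp_le_one_iff.1 h1
  unfold qf
  linarith

lemma law_lin {γ : Measure (ℕ → ℝ)} [IsProbabilityMeasure γ] {K : ℕ → ℕ → ℝ} (h : HasCov γ K)
    (N : ℕ) (a : ℕ → ℝ) : γ.map (lin N a) = gaussianReal 0 (qf K N a).toNNReal := by
  have f1 : IsProbabilityMeasure (γ.map (lin N a)) := Measure.isProbabilityMeasure_map (lin_meas N a).aemeasurable
  apply Measure.ext_of_charFun
  funext t
  rw [charFun_gaussianReal, charFun_apply_real, integral_map (lin_meas N a).aemeasurable (by fun_prop)]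
  have h1 : ∀ w, Complex.exp ((t:ℂ) * (lin N a w : ℝ) * Complex.I) = ex N (fun i => t * a i) w := by
    intro w
    unfold ex
    have : lin N (fun i => t * a i) w = t * lin N a w := by
      unfold lin; rw [Finset.mul_sum]
      exact Finset.sum_congr rfl fun j _ => by ring
    rw [this]; push_cast; ring_nf
  simp_rw [h1]
  rw [h]
  congr 1
  have h2 : ∑ j ∈ range N, ∑ k ∈ range N, t * a j * (t * a k) * K j k = t^2 * qf K N a := by
    unfold qf
    rw [Finset.mul_sum]
    refine Finset.sum_congr rfl fun j _ => ?_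
    rw [Finset.mul_sum]
    refine Finset.sum_congr rfl fun k _ => ?_
    ring
  rw [h2]
  have h3 : (((qf K N a).toNNReal : ℝ) : ℂ) = (qf K N a : ℂ) := by rw [Real.coe_toNNReal _ (qf_nonneg h N a)]
  push_cast
  rw [h3]
  ring

lemma lin_memLp {γ : Measure (ℕ → ℝ)} [IsProbabilityMeasure γ] {K : ℕ → ℕ → ℝ} (h : HasCov γ K)
    (N : ℕ) (a : ℕ → ℝ) : MemLp (lin N a) 2 γ := by
  have h1 : MemLp id 2 (γ.map (lin N a)) := by
    rw [law_lin h]
    exact memLp_id_gaussianReal' 2 (by norm_num)
  exact (memLp_map_measure_iff (by fun_prop) (lin_meas N a).aemeasurable).1 h1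

lemma lin_mean {γ : Measure (ℕ → ℝ)} [IsProbabilityMeasure γ] {K : ℕ → ℕ → ℝ} (h : HasCov γ K)
    (N : ℕ) (a : ℕ → ℝ) : ∫ w, lin N a w ∂γ = 0 := by
  have h1 : ∫ x, x ∂(γ.map (lin N a)) = ∫ w, lin N a w ∂γ :=
    integral_map (f := fun x : ℝ => x) (lin_meas N a).aemeasurable (by fun_prop)
  rw [← h1, law_lin h, integral_id_gaussianReal]

lemma lin_sq {γ : Measure (ℕ → ℝ)} [IsProbabilityMeasure γ] {K : ℕ → ℕ → ℝ} (h : HasCov γ K)
    (N : ℕ) (a : ℕ → ℝ) : ∫ w, (lin N a w)^2 ∂γ = qf K N a := by
  have h1 : ∫ x, x^2 ∂(γ.map (lin N a)) = ∫ w, (lin N a w)^2 ∂γ :=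
    integral_map (f := fun x : ℝ => x^2) (lin_meas N a).aemeasurable (by fun_prop)
  rw [← h1, law_lin h]
  have h2 := variance_id_gaussianReal (μ := 0) (v := (qf K N a).toNNReal)
  rw [variance_eq_sub (memLp_id_gaussianReal' 2 (by norm_num))] at h2
  have h3 : ∫ x, id x ∂(gaussianReal 0 (qf K N a).toNNReal) = 0 := by
    simpa using integral_id_gaussianReal (μ := 0) (v := (qf K N a).toNNReal)
  rw [h3, Real.coe_toNNReal _ (qf_nonneg h N a)] at h2
  simpa using h2

lemma lin_single (n : ℕ) (w : ℕ → ℝ) : lin (n+1) (fun i => if i = n then 1 else 0) w = w n := by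
  unfold lin
  rw [Finset.sum_eq_single n]
  · simp
  · intro b _ hb; simp [hb]
  · intro h; simp at h

lemma coord_memLp {γ : Measure (ℕ → ℝ)} [IsProbabilityMeasure γ] {K : ℕ → ℕ → ℝ} (h : HasCov γ K)
    (n : ℕ) : MemLp (fun w : ℕ → ℝ => w n) 2 γ := by
  have := lin_memLp h (n+1) (fun i => if i = n then 1 else 0)
  have e : lin (n+1) (fun i => if i = n then 1 else 0) = fun w : ℕ → ℝ => w n := by
    funext w; exact lin_single n w
  rwa [e] at this

lemma coord_mean {γ : Measure (ℕ → ℝ)} [IsProbabilityMeasure γ] {K : ℕ → ℕ → ℝ} (h : HasCov γ K)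
    (n : ℕ) : ∫ w, w n ∂γ = 0 := by
  have := lin_mean h (n+1) (fun i => if i = n then 1 else 0)
  simpa only [lin_single] using this

lemma coord_cov {γ : Measure (ℕ → ℝ)} [IsProbabilityMeasure γ] {K : ℕ → ℕ → ℝ} (h : HasCov γ K)
    (j k : ℕ) : ∫ w, w j * w k ∂γ = (K j k + K k j) / 2 := by
  set N := max j k + 1 with hN
  have hj : j ∈ range N := by rw [mem_range, hN]; omega
  have hk : k ∈ range N := by rw [mem_range, hN]; omega
  have q1 : ∀ i : ℕ, i ∈ range N → qf K N (fun l => if l = i then 1 else 0) = K i i := by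
    intro i hi
    unfold qf
    rw [Finset.sum_eq_single i, Finset.sum_eq_single i]
    · simp
    · intro b _ hb; simp [hb]
    · intro h'; exact absurd hi h'
    · intro b _ hb; simp [hb]
    · intro h'; exact absurd hi h'
  have l1 : ∀ i : ℕ, i ∈ range N → ∀ w, lin N (fun l => if l = i then 1 else 0) w = w i := by
    intro i hi w
    unfold lin
    rw [Finset.sum_eq_single i]
    · simp
    · intro b _ hb; simp [hb]
    · intro h'; exact absurd hi h'
  have l2 : ∀ w, lin N (fun l => (if l = j then 1 else 0) + (if l = k then 1 else 0)) w = w j + w k := by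
    intro w
    have : lin N (fun l => (if l = j then 1 else 0) + (if l = k then 1 else 0)) w
      = lin N (fun l => (if l = j then 1 else 0)) w + lin N (fun l => (if l = k then 1 else 0)) w := by
      unfold lin
      rw [← Finset.sum_add_distrib]
      exact Finset.sum_congr rfl fun i _ => by ring
    rw [this, l1 j hj, l1 k hk]
  have q2 : qf K N (fun l => (if l = j then 1 else 0) + (if l = k then 1 else 0)) = K j j + K k k + K j k + K k j := by
    unfold qf
    have e : ∀ x y : ℕ, ((if x = j then (1:ℝ) else 0) + (if x = k then 1 else 0)) * ((if y = j then 1 else 0) + (if y = k then 1 else 0)) * K x y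
      = (if x = j then (if y = j then K x y else 0) else 0) + (if x = k then (if y = k then K x y else 0) else 0)
        + (if x = j then (if y = k then K x y else 0) else 0) + (if x = k then (if y = j then K x y else 0) else 0) := by
      intro x y
      split_ifs <;> ring
    simp_rw [e]
    simp only [Finset.sum_add_distrib]
    have s1 : ∀ (p q : ℕ), p ∈ range N → q ∈ range N → ∑ x ∈ range N, ∑ y ∈ range N, (if x = p then (if y = q then K x y else 0) else 0) = K p q := by
      intro p q hp hq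
      rw [Finset.sum_eq_single p, Finset.sum_eq_single q]
      · simp
      · intro b _ hb; simp [hb]
      · intro h'; exact absurd hq h'
      · intro b _ hb; simp [hb]
      · intro h'; exact absurd hp h'
    rw [s1 j j hj hj, s1 k k hk hk, s1 j k hj hk, s1 k j hk hj]
  have m1 := lin_sq h N (fun l => (if l = j then 1 else 0) + (if l = k then 1 else 0))
  have m2 := lin_sq h N (fun l => (if l = j then 1 else 0))
  have m3 := lin_sq h N (fun l => (if l = k then 1 else 0))
  rw [q2] at m1
  rw [q1 j hj] at m2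
  rw [q1 k hk] at m3
  simp_rw [l2] at m1
  simp_rw [l1 j hj] at m2
  simp_rw [l1 k hk] at m3
  have ij := (coord_memLp h j).integrable_sq
  have ik := (coord_memLp h k).integrable_sq
  have ijk : Integrable (fun w : ℕ → ℝ => w j * w k) γ := (coord_memLp h j).integrable_mul (coord_memLp h k)
  have e2 : ∀ w : ℕ → ℝ, (w j + w k)^2 = (w j)^2 + (w k)^2 + 2 * (w j * w k) := fun w => by ring
  simp_rw [e2] at m1
  have i12 : Integrable (fun w : ℕ → ℝ => (w j)^2 + (w k)^2) γ := ij.add ik
  rw [integral_add i12 (ijk.const_mul 2), integral_add ij ik, m2, m3, integral_const_mul] at m1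
  linarith

end Pool.Agent.H514R3
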