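import Mathlib

set_option autoImplicit false
open MeasureTheory Filter Topology Finset
open scoped ComplexConjugate

namespace Pool.Agent.H514R3

set_option linter.unusedVariables false

noncomputable section

variable (S : Finset ℝ)

/-- generator of the monothetic group -/
def gen : (↥S → Circle) := fun s => Circle.exp (s : ℝ)

/-- the closed subgroup generated by `gen` -/
def HH : Subgroup (↥S → Circle) := (Subgroup.zpowers (gen S)).topologicalClosure

abbrev HT : Type := ↥(HH S)

instance : CompactSpace (HT S) := by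
  have : IsClosed ((HH S : Subgroup (↥S → Circle)) : Set (↥S → Circle)) := Subgroup.isClosed_topologicalClosure _
  exact isCompact_iff_compactSpace.1 this.isCompact

instance : MeasurableSpace (HT S) := borel _
instance : BorelSpace (HT S) := ⟨rfl⟩

/-- Haar probability -/
def hm : Measure (HT S) := Measure.haarMeasure ⊤

instance : IsProbabilityMeasure (hm S) := ⟨by
  have := Measure.haarMeasure_self (K₀ := (⊤ : TopologicalSpace.PositiveCompacts (HT S)))
  simpa [hm] using this⟩

instance : (hm S).IsMulLeftInvariant := by unfold hm; infer_instance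

def gg : HT S := ⟨gen S, Subgroup.le_topologicalClosure _ (Subgroup.mem_zpowers _)⟩

lemma dense_gg : DenseRange (fun n : ℤ => (gg S) ^ n) := by
  rw [DenseRange, Subtype.dense_iff]
  intro x hx
  have h1 : x ∈ closure ((Subgroup.zpowers (gen S) : Subgroup (↥S → Circle)) : Set (↥S → Circle)) := hx
  refine closure_mono ?_ h1
  rintro _ ⟨n, rfl⟩
  exact ⟨(gg S)^n, ⟨n, rfl⟩, rfl⟩

lemma erg_rot : Ergodic (fun x : HT S => gg S * x) (hm S) :=
  ergodic_mul_left_of_denseRange_zpow (dense_gg S) (hm S)

/-- coordinate -/
def co (s : ↥S) (x : HT S) : ℂ := ((x : ↥S → Circle) s : ℂ)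

lemma co_cont (s : ↥S) : Continuous (co S s) := by
  unfold co
  exact continuous_subtype_val.comp ((continuous_apply s).comp continuous_subtype_val)

lemma co_norm (s : ↥S) (x : HT S) : ‖co S s x‖ = 1 := Circle.norm_coe _

lemma co_mul (s : ↥S) (x : HT S) : co S s (gg S * x) = Complex.exp ((s:ℝ) * Complex.I) * co S s x := by
  unfold co gg gen
  simp

lemma co_iter (s : ↥S) (n : ℕ) (x : HT S) :
    co S s ((fun x => gg S * x)^[n] x) = Complex.exp ((n * (s:ℝ) : ℝ) * Complex.I) * co S s x := by
  induction n with
  | zero => simp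
  | succ n ih =>
    rw [Function.iterate_succ_apply', co_mul, ih, ← mul_assoc, ← Complex.exp_add]
    congr 2
    push_cast; ring

lemma haar_zero {F : HT S → ℂ} (hF : Continuous F) (c : ℂ) (hc : c ≠ 1)
    (h : ∀ x, F (gg S * x) = c * F x) : ∫ x, F x ∂(hm S) = 0 := by
  have h1 : ∫ x, F (gg S * x) ∂(hm S) = ∫ x, F x ∂(hm S) := integral_mul_left_eq_self F (gg S)
  simp_rw [h] at h1
  rw [integral_const_mul] at h1
  have h2 : (c - 1) * ∫ x, F x ∂(hm S) = 0 := by rw [sub_mul, h1]; ring
  rcases mul_eq_zero.1 h2 with h3 | h3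
  · exact absurd (sub_eq_zero.1 h3) hc
  · exact h3

lemma exp_ne_one {t : ℝ} (h1 : 0 < t) (h2 : t < 2 * Real.pi) : Complex.exp (t * Complex.I) ≠ 1 := by
  intro h
  have h3 := congrArg Complex.re h
  rw [Complex.exp_ofReal_mul_I_re, Complex.one_re, Real.cos_eq_one_iff_of_lt_of_lt (by linarith [Real.pi_pos]) h2] at h3
  linarith

lemma exp_ne_one' {t : ℝ} (h0 : t ≠ 0) (h1 : -(2 * Real.pi) < t) (h2 : t < 2 * Real.pi) :
    Complex.exp (t * Complex.I) ≠ 1 := by
  intro h
  have h3 := congrArg Complex.re h
  rw [Complex.exp_ofReal_mul_I_re, Complex.one_re, Real.cos_eq_one_iff_of_lt_of_lt h1 h2] at h3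
  exact h0 h3

variable {S}

lemma int_xx (hS : ∀ s ∈ S, 0 < s ∧ s ≤ Real.pi) (s t : ↥S) :
    ∫ x, co S s x * co S t x ∂(hm S) = if (s = t ∧ (s:ℝ) = Real.pi) then 1 else 0 := by
  have hs := hS s s.2
  have ht := hS t t.2
  by_cases h : (s:ℝ) + t = 2 * Real.pi
  · have h1 : (s:ℝ) = Real.pi := by linarith [hs.2, ht.2]
    have h2 : (t:ℝ) = Real.pi := by linarith [hs.2, ht.2]
    have h3 : s = t := Subtype.ext (by rw [h1, h2])
    rw [if_pos ⟨h3, h1⟩]
    subst h3
    have h4 : ∀ x : HT S, co S s x * co S s x = 1 := by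
      intro x
      -- closed subgroup
      let f : (↥S → Circle) →* Circle := (Pi.evalMonoidHom (fun _ : ↥S => Circle) s)
      have hle : HH S ≤ (f.range.comap f ⊓ (MonoidHom.ker (f * f))) := by
        unfold HH
        apply Subgroup.topologicalClosure_minimal
        · rw [Subgroup.zpowers_le]
          refine ⟨⟨gen S, rfl⟩, ?_⟩
          show f (gen S) * f (gen S) = 1
          show Circle.exp (s:ℝ) * Circle.exp (s:ℝ) = 1
          rw [← Circle.exp_add, h1, ← two_mul, Circle.exp_two_pi]
        · have : ((f.range.comap f ⊓ (MonoidHom.ker (f * f)) : Subgroup (↥S → Circle)) : Set (↥S → Circle))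
              = {x | x s * x s = 1} := by
            ext y
            constructor
            · rintro ⟨_, hy⟩; exact hy
            · intro hy; exact ⟨⟨y, rfl⟩, hy⟩
          rw [this]
          exact isClosed_eq (by fun_prop) continuous_const
      have hx := (hle x.2).2
      have hx' : (x : ↥S → Circle) s * (x : ↥S → Circle) s = 1 := hx
      have := congrArg (fun z : Circle => (z : ℂ)) hx'
      simpa [co] using this
    simp_rw [h4]
    simp
  · have hne : ¬ (s = t ∧ (s:ℝ) = Real.pi) := by
      rintro ⟨h1, h2⟩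
      apply h
      rw [← h1, h2]; ring
    rw [if_neg hne]
    apply haar_zero S (F := fun x => co S s x * co S t x) ((co_cont S s).mul (co_cont S t)) (Complex.exp (((s:ℝ) + t : ℝ) * Complex.I))
    · apply exp_ne_one
      · linarith [hs.1, ht.1]
      · exact lt_of_le_of_ne (by linarith [hs.2, ht.2]) h
    · intro x
      rw [co_mul, co_mul]
      push_cast
      rw [add_mul, Complex.exp_add]; ring

lemma int_xcx (hS : ∀ s ∈ S, 0 < s ∧ s ≤ Real.pi) (s t : ↥S) :
    ∫ x, co S s x * conj (co S t x) ∂(hm S) = if s = t then 1 else 0 := by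
  have hs := hS s s.2
  have ht := hS t t.2
  by_cases h : s = t
  · rw [if_pos h]; subst h
    have : ∀ x : HT S, co S s x * conj (co S s x) = 1 := by
      intro x
      rw [Complex.mul_conj, Complex.normSq_eq_norm_sq, co_norm]; simp
    simp_rw [this]; simp
  · rw [if_neg h]
    have hne : (s:ℝ) - t ≠ 0 := fun h' => h (Subtype.ext (sub_eq_zero.1 h'))
    apply haar_zero S (F := fun x => co S s x * conj (co S t x)) ((co_cont S s).mul (Complex.continuous_conj.comp (co_cont S t)))
      (Complex.exp (((s:ℝ) - t : ℝ) * Complex.I))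
    · apply exp_ne_one' hne
      · linarith [hs.1, hs.2, ht.1, ht.2, Real.pi_pos]
      · linarith [hs.1, hs.2, ht.1, ht.2, Real.pi_pos]
    · intro x
      rw [co_mul, co_mul]
      simp only [map_mul, ← Complex.exp_conj, Complex.conj_I, Complex.conj_ofReal]
      push_cast
      rw [sub_mul, sub_eq_add_neg, Complex.exp_add, ← mul_neg]
      ring

/-- weight -/
def kap (s : ℝ) : ℝ := if s = Real.pi then 1 else 1/2

lemma kap_pos (s : ℝ) : 0 < kap s := by unfold kap; split_ifs <;> norm_num

lemma int_re (hS : ∀ s ∈ S, 0 < s ∧ s ≤ Real.pi) (s t : ↥S) (n : ℕ) :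
    ∫ x, (co S s x).re * (co S t ((fun x => gg S * x)^[n] x)).re ∂(hm S)
      = if s = t then kap s * Real.cos (n * (s:ℝ)) else 0 := by
  set e : ℂ := Complex.exp ((n * (t:ℝ) : ℝ) * Complex.I) with he
  have h1 : ∀ x : HT S, (co S s x).re * (co S t ((fun x => gg S * x)^[n] x)).re
      = ((1/2 : ℂ) * (e * (co S s x * co S t x) + conj e * (co S s x * conj (co S t x)))).re := by
    intro x
    rw [co_iter, ← he]
    simp only [Complex.mul_re, Complex.add_re, Complex.conj_re, Complex.conj_im, Complex.mul_im, Complex.add_im]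
    norm_num
    ring
  simp_rw [h1]
  have i1 : Integrable (fun x => co S s x * co S t x) (hm S) :=
    ((co_cont S s).mul (co_cont S t)).integrable_of_hasCompactSupport (HasCompactSupport.of_compactSpace _)
  have i2 : Integrable (fun x => co S s x * conj (co S t x)) (hm S) :=
    ((co_cont S s).mul (Complex.continuous_conj.comp (co_cont S t))).integrable_of_hasCompactSupport (HasCompactSupport.of_compactSpace _)
  have i3 : Integrable (fun x => (1/2 : ℂ) * (e * (co S s x * co S t x) + conj e * (co S s x * conj (co S t x)))) (hm S) :=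
    ((i1.const_mul e).add (i2.const_mul (conj e))).const_mul _
  have h2 := integral_re (𝕜 := ℂ) i3
  have h3 : ∀ z : ℂ, RCLike.re z = z.re := fun z => rfl
  simp only [h3] at h2
  rw [h2, integral_const_mul, integral_add (i1.const_mul e) (i2.const_mul (conj e)), integral_const_mul,
    integral_const_mul, int_xx hS, int_xcx hS]
  have hre : e.re = Real.cos (n * (t:ℝ)) := by rw [he, Complex.exp_ofReal_mul_I_re]
  by_cases h : s = t
  · subst h
    by_cases hp : (s:ℝ) = Real.pi
    · simp only [hp, and_self, if_true, kap, mul_one]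
      rw [← hp]
      simp only [Complex.mul_re, Complex.add_re, Complex.conj_re, Complex.add_im, Complex.conj_im]
      rw [hre]
      norm_num
      ring
    · simp only [hp, and_false, if_false, kap, if_true, mul_one, mul_zero, zero_add]
      simp only [Complex.mul_re, Complex.conj_re, Complex.conj_im]
      rw [hre]
      norm_num
  · simp [h]

theorem exists_rot (hS : ∀ s ∈ S, 0 < s ∧ s ≤ Real.pi) (c : ℝ → ℝ) (hc : ∀ s, 0 ≤ c s) :
    ∃ d : HT S → ℝ, Measurable d ∧ (∃ C, ∀ x, |d x| ≤ C) ∧
      ∀ n : ℕ, ∫ x, d x * d ((fun x => gg S * x)^[n] x) ∂(hm S) = ∑ s ∈ S, c s * Real.cos (n * s) := by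
  let a : ↥S → ℝ := fun s => Real.sqrt (c s / kap s)
  let d : HT S → ℝ := fun x => ∑ s : ↥S, a s * (co S s x).re
  have hdc : Continuous d := by
    apply continuous_finsetSum
    intro s _
    exact continuous_const.mul (Complex.continuous_re.comp (co_cont S s))
  refine ⟨d, hdc.measurable, ⟨∑ s : ↥S, |a s|, fun x => ?_⟩, fun n => ?_⟩
  · refine (Finset.abs_sum_le_sum_abs _ _).trans (Finset.sum_le_sum fun s _ => ?_)
    rw [abs_mul]
    refine mul_le_of_le_one_right (abs_nonneg _) ?_
    rw [← co_norm S s x]
    exact Complex.abs_re_le_norm _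
  · have h1 : ∀ x, d x * d ((fun x => gg S * x)^[n] x)
        = ∑ s : ↥S, ∑ t : ↥S, (a s * a t) * ((co S s x).re * (co S t ((fun x => gg S * x)^[n] x)).re) := by
      intro x
      show (∑ s : ↥S, a s * (co S s x).re) * (∑ t : ↥S, a t * (co S t ((fun x => gg S * x)^[n] x)).re) = _
      rw [Finset.sum_mul_sum]
      refine Finset.sum_congr rfl fun s _ => Finset.sum_congr rfl fun t _ => ?_
      ring
    simp_rw [h1]
    have hit : Continuous ((fun x : HT S => gg S * x)^[n]) := Continuous.iterate (by fun_prop) n
    have hi : ∀ s t : ↥S, Integrable (fun x => (a s * a t) * ((co S s x).re * (co S t ((fun x => gg S * x)^[n] x)).re)) (hm S) := by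
      intro s t
      refine Continuous.integrable_of_hasCompactSupport ?_ (HasCompactSupport.of_compactSpace _)
      exact continuous_const.mul ((Complex.continuous_re.comp (co_cont S s)).mul
        (Complex.continuous_re.comp ((co_cont S t).comp hit)))
    rw [integral_finsetSum]
    · rw [← Finset.sum_coe_sort S]
      refine Finset.sum_congr rfl fun s _ => ?_
      rw [integral_finsetSum]
      · have h2 : ∀ t ∈ (Finset.univ : Finset ↥S), ∫ x, (a s * a t) * ((co S s x).re * (co S t ((fun x => gg S * x)^[n] x)).re) ∂(hm S)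
            = if s = t then (a s * a s) * (kap s * Real.cos (n * (s:ℝ))) else 0 := by
          intro t _
          rw [integral_const_mul, int_re hS]
          by_cases h : s = t
          · subst h; simp
          · simp [h]
        rw [Finset.sum_congr rfl h2, Finset.sum_ite_eq]
        simp only [Finset.mem_univ, if_true]
        have h3 : a s * a s = c s / kap s := Real.mul_self_sqrt (div_nonneg (hc _) (kap_pos _).le)
        rw [h3]
        have := (kap_pos (s:ℝ)).ne'
        field_simp
      · intro t _; exact hi s t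
    · intro s _
      exact integrable_finsetSum _ fun t _ => hi s t

end

end Pool.Agent.H514R3
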