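import Mathlib

set_option autoImplicit false
open MeasureTheory Filter Topology Finset

namespace Pool.Agent.H514R3

def atoms (σ : Measure ℝ) : Set ℝ := {x | 0 < σ {x}}

lemma atoms_countable (σ : Measure ℝ) [SFinite σ] : (atoms σ).Countable :=
  Measure.countable_meas_pos_of_disjoint_iUnion (fun i => measurableSet_singleton i)
    (fun i j h => by simpa [Function.onFun] using h)

lemma big_atoms_finite (σ : Measure ℝ) [IsFiniteMeasure σ] {δ : ENNReal} (hδ : 0 < δ) :
    {x : ℝ | δ ≤ σ {x}}.Finite :=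
  Measure.finite_const_le_meas_of_disjoint_iUnion σ hδ (fun i => measurableSet_singleton i)
    (fun i j h => by simpa [Function.onFun] using h) (measure_ne_top _ _)

lemma exists_fin_atoms (σ : Measure ℝ) [IsFiniteMeasure σ] {ε : ℝ} (hε : 0 < ε) :
    ∃ F : Finset ℝ, (∀ x ∈ F, 0 < σ {x}) ∧ σ.real (atoms σ \ F) ≤ ε := by
  let B : ℕ → Set ℝ := fun k => atoms σ \ {x : ℝ | (1 / ((k:ENNReal) + 1)) ≤ σ {x}}
  have hpos : ∀ k : ℕ, 0 < (1 / ((k:ENNReal) + 1)) := by
    intro k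
    apply ENNReal.div_pos one_ne_zero
    exact ENNReal.add_ne_top.2 ⟨ENNReal.natCast_ne_top k, ENNReal.one_ne_top⟩
  have hm : ∀ k, MeasurableSet (B k) := fun k =>
    (atoms_countable σ).measurableSet.diff (big_atoms_finite σ (hpos k)).measurableSet
  have hanti : Antitone B := by
    intro k l hkl x hx
    refine ⟨hx.1, fun h => hx.2 ?_⟩
    have h' : (1 / ((k:ENNReal) + 1)) ≤ σ {x} := h
    show (1 / ((l:ENNReal) + 1)) ≤ σ {x}
    refine le_trans ?_ h'
    apply ENNReal.div_le_div_left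
    gcongr
  have hinter : ⋂ k, B k = ∅ := by
    ext x
    simp only [Set.mem_iInter, Set.mem_empty_iff_false, iff_false, not_forall]
    by_cases hx : 0 < σ {x}
    · obtain ⟨n, hn⟩ := ENNReal.exists_inv_nat_lt hx.ne'
      refine ⟨n, fun h => h.2 ?_⟩
      show (1 / ((n:ENNReal) + 1)) ≤ σ {x}
      refine le_trans ?_ hn.le
      rw [one_div]
      apply ENNReal.inv_le_inv.2
      exact le_self_add
    · exact ⟨0, fun h => hx h.1⟩
  have ht := tendsto_measure_iInter_atTop (μ := σ) (s := B) (fun k => (hm k).nullMeasurableSet) hanti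
    ⟨0, measure_ne_top _ _⟩
  rw [hinter, measure_empty] at ht
  have h2 := (ENNReal.tendsto_toReal ENNReal.zero_ne_top).comp ht
  simp only [ENNReal.toReal_zero] at h2
  obtain ⟨k, hk⟩ := (h2.eventually (ge_mem_nhds hε)).exists
  refine ⟨(big_atoms_finite σ (hpos k)).toFinset, ?_, ?_⟩
  · intro x hx
    rw [Set.Finite.mem_toFinset] at hx
    exact lt_of_lt_of_le (hpos k) hx
  · rw [Set.Finite.coe_toFinset]
    exact hk

theorem split (σ : Measure ℝ) [IsFiniteMeasure σ] (hσ : σ (Set.Icc 0 Real.pi)ᶜ = 0)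
    {ε : ℝ} (hε : 0 < ε) :
    ∃ (S : Finset ℝ) (c : ℝ → ℝ) (τ : Measure ℝ), (∀ s ∈ S, 0 < s ∧ s ≤ Real.pi) ∧
      (∀ s, 0 ≤ c s) ∧ IsFiniteMeasure τ ∧ (∀ x, τ {x} = 0) ∧ τ (Set.Icc 0 Real.pi)ᶜ = 0 ∧
      ∀ n : ℕ, (∑ s ∈ S, c s * Real.cos (n * s)) + ∫ x, Real.cos (n * x) ∂τ
        ≤ (∫ x, Real.cos (n * x) ∂σ) + ε := by
  obtain ⟨F, hF, hsmall⟩ := exists_fin_atoms σ hε
  have hA := (atoms_countable σ).measurableSet
  have hFA : (F : Set ℝ) ⊆ atoms σ := fun x hx => hF x hx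
  refine ⟨F.erase 0, fun s => σ.real {s}, σ.restrict (atoms σ)ᶜ, ?_, ?_, inferInstance, ?_, ?_, ?_⟩
  · intro s hs
    rw [Finset.mem_erase] at hs
    have h1 := hF s hs.2
    have h2 : s ∈ Set.Icc 0 Real.pi := by
      by_contra h
      have : σ {s} ≤ σ (Set.Icc 0 Real.pi)ᶜ := measure_mono (by
        intro y hy; rw [Set.mem_singleton_iff] at hy; rw [hy]; exact h)
      rw [hσ] at this
      exact absurd h1 (not_lt.2 this)
    exact ⟨lt_of_le_of_ne h2.1 (Ne.symm hs.1), h2.2⟩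
  · intro s; exact measureReal_nonneg
  · intro x
    rw [Measure.restrict_apply (measurableSet_singleton x)]
    by_cases hx : 0 < σ {x}
    · have : ({x} : Set ℝ) ∩ (atoms σ)ᶜ = ∅ := by
        ext y
        simp only [Set.mem_inter_iff, Set.mem_singleton_iff, Set.mem_compl_iff, Set.mem_empty_iff_false,
          iff_false, not_and, not_not]
        intro h; rw [h]; exact hx
      rw [this, measure_empty]
    · have h0 : σ {x} = 0 := by simpa using hx
      exact measure_mono_null Set.inter_subset_left h0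
  · exact Measure.restrict_apply_eq_zero' hA.compl |>.2 (measure_mono_null Set.inter_subset_left hσ)
  · intro n
    have hint : ∀ s : Set ℝ, IntegrableOn (fun x : ℝ => Real.cos (n * x)) s σ := by
      intro s
      refine Integrable.mono' (g := fun _ => (1:ℝ)) (integrable_const _) ?_ ?_
      · exact (by fun_prop : Continuous fun x : ℝ => Real.cos (n * x)).aestronglyMeasurable
      · exact Filter.Eventually.of_forall fun x => by
          rw [Real.norm_eq_abs]; exact Real.abs_cos_le_one _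
    have e1 : ∫ x, Real.cos (n * x) ∂σ = (∫ x in atoms σ, Real.cos (n * x) ∂σ)
        + ∫ x in (atoms σ)ᶜ, Real.cos (n * x) ∂σ :=
      (integral_add_compl hA (by simpa using hint Set.univ)).symm
    have e2 : (∫ x in atoms σ, Real.cos (n * x) ∂σ) = (∫ x in (F : Set ℝ), Real.cos (n * x) ∂σ)
        + ∫ x in (atoms σ \ F), Real.cos (n * x) ∂σ := by
      rw [← setIntegral_union Set.disjoint_sdiff_right (hA.diff F.measurableSet) (hint _) (hint _)]
      rw [Set.union_sdiff_cancel hFA]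
    have e3 : (∫ x in (F : Set ℝ), Real.cos (n * x) ∂σ) = ∑ s ∈ F, σ.real {s} * Real.cos (n * s) := by
      rw [setIntegral_finset F (hint _)]
      simp only [smul_eq_mul]
    have e4 : ∑ s ∈ F.erase 0, σ.real {s} * Real.cos (n * s) ≤ ∑ s ∈ F, σ.real {s} * Real.cos (n * s) := by
      by_cases h0 : (0:ℝ) ∈ F
      · rw [← Finset.add_sum_erase F _ h0]
        simp only [mul_zero, Real.cos_zero, mul_one]
        have : 0 ≤ σ.real {(0:ℝ)} := measureReal_nonneg
        linarith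
      · rw [Finset.erase_eq_of_notMem h0]
    have e5 : |∫ x in (atoms σ \ F), Real.cos (n * x) ∂σ| ≤ ε := by
      have := norm_setIntegral_le_of_norm_le_const (μ := σ) (s := atoms σ \ F) (C := 1)
        (f := fun x : ℝ => Real.cos (n * x)) (measure_lt_top _ _) (fun x _ => by
          rw [Real.norm_eq_abs]; exact Real.abs_cos_le_one _)
      rw [Real.norm_eq_abs, one_mul] at this
      exact this.trans hsmall
    rw [abs_le] at e5
    linarith [e5.1, e5.2]

lemma cos_sum_bound {t : ℝ} (ht : Real.cos t ≠ 1) (N : ℕ) :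
    |∑ n ∈ range N, Real.cos (n * t)| ≤ 2 / ‖Complex.exp (t * Complex.I) - 1‖ := by
  set z := Complex.exp (t * Complex.I) with hz
  have hz1 : z ≠ 1 := by
    intro h
    apply ht
    have := congrArg Complex.re h
    rw [hz, Complex.exp_ofReal_mul_I_re] at this
    simpa using this
  have hnz : ‖z‖ = 1 := Complex.norm_exp_ofReal_mul_I t
  have h1 : ∑ n ∈ range N, Real.cos (n * t) = (∑ n ∈ range N, z ^ n).re := by
    rw [Complex.re_sum]
    refine Finset.sum_congr rfl fun n _ => ?_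
    rw [hz, ← Complex.exp_nat_mul, ← mul_assoc]
    have : ((n:ℂ) * (t:ℂ)) = (((n:ℝ) * t : ℝ) : ℂ) := by push_cast; ring
    rw [this, Complex.exp_ofReal_mul_I_re]
  rw [h1]
  refine (Complex.abs_re_le_norm _).trans ?_
  rw [geom_sum_eq hz1, norm_div]
  gcongr
  refine (norm_sub_le _ _).trans ?_
  rw [norm_pow, hnz]; norm_num

lemma cos_avg {t : ℝ} (ht : Real.cos t ≠ 1) :
    Tendsto (fun N : ℕ => (1 / (N:ℝ)) * ∑ n ∈ range N, Real.cos (n * t)) atTop (𝓝 0) := by
  apply squeeze_zero_norm (a := fun N : ℕ => (1 / (N:ℝ)) * (2 / ‖Complex.exp (t * Complex.I) - 1‖))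
  · intro N
    rw [norm_mul, Real.norm_eq_abs, Real.norm_eq_abs, abs_of_nonneg (by positivity : (0:ℝ) ≤ 1 / (N:ℝ))]
    gcongr
    exact cos_sum_bound ht N
  · simpa using (tendsto_one_div_atTop_nhds_zero_nat (𝕜 := ℝ)).mul_const
      (2 / ‖Complex.exp (t * Complex.I) - 1‖)

lemma cos_ne_one_sub {x y : ℝ} (hx : x ∈ Set.Icc 0 Real.pi) (hy : y ∈ Set.Icc 0 Real.pi) (h : x ≠ y) :
    Real.cos (x - y) ≠ 1 := by
  intro hc
  rw [Real.cos_eq_one_iff_of_lt_of_lt] at hc
  · exact h (sub_eq_zero.1 hc)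
  · linarith [hx.1, hy.2, Real.pi_pos]
  · linarith [hx.2, hy.1, Real.pi_pos]

lemma cos_ne_one_add {x y : ℝ} (hx : x ∈ Set.Icc 0 Real.pi) (hy : y ∈ Set.Icc 0 Real.pi) (h : x ≠ y) :
    Real.cos (x + y) ≠ 1 := by
  intro hc
  have hlt : x + y < 2 * Real.pi := by
    rcases lt_or_gt_of_ne h with h1 | h1
    · linarith [hx.2, hy.2]
    · linarith [hx.2, hy.2]
  have hgt : 0 < x + y := by
    rcases lt_or_gt_of_ne h with h1 | h1
    · linarith [hx.1, hy.1]
    · linarith [hx.1, hy.1]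
  rw [Real.cos_eq_one_iff_of_lt_of_lt (by linarith [Real.pi_pos]) hlt] at hc
  linarith

theorem wiener (τ : Measure ℝ) [IsFiniteMeasure τ] (h0 : ∀ x, τ {x} = 0)
    (hτ : τ (Set.Icc 0 Real.pi)ᶜ = 0) :
    Tendsto (fun N : ℕ => (1 / (N:ℝ)) * ∑ n ∈ range N, (∫ x, Real.cos (n * x) ∂τ) ^ 2) atTop (𝓝 0) := by
  have hsq : ∀ n : ℕ, (∫ x, Real.cos (n * x) ∂τ) ^ 2 = ∫ z : ℝ × ℝ, Real.cos (n * z.1) * Real.cos (n * z.2) ∂(τ.prod τ) := by
    intro n
    rw [integral_prod_mul (f := fun x : ℝ => Real.cos (n * x)) (g := fun x : ℝ => Real.cos (n * x)), sq]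
  have hint : ∀ n : ℕ, Integrable (fun z : ℝ × ℝ => Real.cos (n * z.1) * Real.cos (n * z.2)) (τ.prod τ) := by
    intro n
    refine Integrable.mono' (g := fun _ => (1:ℝ)) (integrable_const _) ?_ ?_
    · exact (by fun_prop : Continuous fun z : ℝ × ℝ => Real.cos (n * z.1) * Real.cos (n * z.2)).aestronglyMeasurable
    · exact Filter.Eventually.of_forall fun x => by
        rw [Real.norm_eq_abs, abs_mul]
        exact mul_le_one₀ (Real.abs_cos_le_one _) (abs_nonneg _) (Real.abs_cos_le_one _)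
  have hrew : ∀ N : ℕ, (1 / (N:ℝ)) * ∑ n ∈ range N, (∫ x, Real.cos (n * x) ∂τ) ^ 2
      = ∫ z : ℝ × ℝ, (1 / (N:ℝ)) * ∑ n ∈ range N, Real.cos (n * z.1) * Real.cos (n * z.2) ∂(τ.prod τ) := by
    intro N
    rw [integral_const_mul, integral_finsetSum]
    · simp_rw [hsq]
    · intro n _; exact hint n
  simp_rw [hrew]
  have hlim : Tendsto (fun N : ℕ => ∫ z : ℝ × ℝ, (1 / (N:ℝ)) * ∑ n ∈ range N, Real.cos (n * z.1) * Real.cos (n * z.2) ∂(τ.prod τ))
      atTop (𝓝 (∫ z : ℝ × ℝ, (0:ℝ) ∂(τ.prod τ))) := by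
    apply tendsto_integral_of_dominated_convergence (fun _ => (1:ℝ))
    · intro N
      exact (by fun_prop : Continuous fun z : ℝ × ℝ => (1 / (N:ℝ)) * ∑ n ∈ range N, Real.cos (n * z.1) * Real.cos (n * z.2)).aestronglyMeasurable
    · exact integrable_const _
    · intro N
      refine Filter.Eventually.of_forall fun z => ?_
      rw [norm_mul, Real.norm_eq_abs, abs_of_nonneg (by positivity : (0:ℝ) ≤ 1 / (N:ℝ))]
      have : ‖∑ n ∈ range N, Real.cos (n * z.1) * Real.cos (n * z.2)‖ ≤ N := by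
        refine (norm_sum_le _ _).trans ?_
        calc ∑ n ∈ range N, ‖Real.cos (n * z.1) * Real.cos (n * z.2)‖ ≤ ∑ n ∈ range N, (1:ℝ) := by
              refine Finset.sum_le_sum fun n _ => ?_
              rw [Real.norm_eq_abs, abs_mul]
              exact mul_le_one₀ (Real.abs_cos_le_one _) (abs_nonneg _) (Real.abs_cos_le_one _)
          _ = N := by simp
      by_cases hN : (N:ℝ) = 0
      · rw [hN]; simp
      · calc (1 / (N:ℝ)) * ‖∑ n ∈ range N, Real.cos (n * z.1) * Real.cos (n * z.2)‖ ≤ (1 / (N:ℝ)) * N := by gcongr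
          _ = 1 := by field_simp
    · have ha : ∀ᵐ x ∂τ, x ∈ Set.Icc 0 Real.pi := by
        rw [ae_iff]; exact hτ
      have ha1 : ∀ᵐ z ∂(τ.prod τ), z.1 ∈ Set.Icc 0 Real.pi := Measure.quasiMeasurePreserving_fst.ae ha
      have ha2 : ∀ᵐ z ∂(τ.prod τ), z.2 ∈ Set.Icc 0 Real.pi := Measure.quasiMeasurePreserving_snd.ae ha
      have ha3 : ∀ᵐ z ∂(τ.prod τ), z.1 ≠ z.2 := by
        rw [ae_iff]
        have hmeas : MeasurableSet {z : ℝ × ℝ | ¬ z.1 ≠ z.2} := by
          simp only [ne_eq, not_not]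
          exact measurableSet_eq_fun measurable_fst measurable_snd
        rw [Measure.prod_apply hmeas]
        have : ∀ x, τ (Prod.mk x ⁻¹' {z : ℝ × ℝ | ¬ z.1 ≠ z.2}) = 0 := by
          intro x
          have : (Prod.mk x ⁻¹' {z : ℝ × ℝ | ¬ z.1 ≠ z.2}) = {x} := by
            ext y; simp [eq_comm]
          rw [this, h0]
        simp_rw [this]; simp
      filter_upwards [ha1, ha2, ha3] with z h1 h2 h3
      have hA := cos_avg (cos_ne_one_sub h1 h2 h3)
      have hB := cos_avg (cos_ne_one_add h1 h2 h3)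
      have hAB := (hA.const_mul (1/2)).add (hB.const_mul (1/2))
      simp only [mul_zero, add_zero] at hAB
      refine hAB.congr fun N => ?_
      have : ∀ n : ℕ, Real.cos (n * z.1) * Real.cos (n * z.2)
          = (1/2) * Real.cos (n * (z.1 - z.2)) + (1/2) * Real.cos (n * (z.1 + z.2)) := by
        intro n
        rw [mul_sub, mul_add, Real.cos_sub, Real.cos_add]; ring
      simp_rw [this]
      rw [Finset.sum_add_distrib, ← Finset.mul_sum, ← Finset.mul_sum]
      ring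
  simpa using hlim

theorem wiener_abs (r : ℕ → ℝ)
    (h : Tendsto (fun N : ℕ => (1 / (N:ℝ)) * ∑ n ∈ range N, (r n) ^ 2) atTop (𝓝 0)) :
    Tendsto (fun N : ℕ => (1 / (N:ℝ)) * ∑ n ∈ range N, |r n|) atTop (𝓝 0) := by
  have h2 : Tendsto (fun N : ℕ => Real.sqrt ((1 / (N:ℝ)) * ∑ n ∈ range N, (r n) ^ 2)) atTop (𝓝 0) := by
    have := (Real.continuous_sqrt.tendsto 0).comp h
    rw [Real.sqrt_zero] at this
    exact this
  refine squeeze_zero (fun N => by positivity) (fun N => ?_) h2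
  apply Real.le_sqrt_of_sq_le
  have h3 : (∑ n ∈ range N, |r n|) ^ 2 ≤ (N:ℝ) * ∑ n ∈ range N, |r n| ^ 2 := by
    have := sq_sum_le_card_mul_sum_sq (s := range N) (f := fun n => |r n|)
    simpa using this
  simp only [sq_abs] at h3
  by_cases hN : (N:ℝ) = 0
  · simp [hN]
  · rw [mul_pow]
    calc (1 / (N:ℝ)) ^ 2 * (∑ n ∈ range N, |r n|) ^ 2 ≤ (1 / (N:ℝ)) ^ 2 * ((N:ℝ) * ∑ n ∈ range N, r n ^ 2) := by
          gcongr
      _ = (1 / (N:ℝ)) * ∑ n ∈ range N, (r n) ^ 2 := by field_simp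

end Pool.Agent.H514R3
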