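import Mathlib
import Pool.Agent.H514R3.Erg2

set_option autoImplicit false
open MeasureTheory Filter Topology Finset ProbabilityTheory

namespace Pool.Agent.H514R3

/-- truncation -/
noncomputable def clip (K t : ℝ) : ℝ := max (-K) (min t K)

lemma clip_cont (K : ℝ) : Continuous (clip K) := by unfold clip; fun_prop

lemma clip_abs {K : ℝ} (hK : 0 ≤ K) (t : ℝ) : |clip K t| ≤ K := by
  unfold clip
  rw [abs_le]
  constructor
  · exact le_max_left _ _
  · exact max_le (by linarith) (min_le_right _ _)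

lemma clip_le {K : ℝ} (hK : 0 ≤ K) (t : ℝ) : |clip K t| ≤ |t| := by
  unfold clip
  rcases abs_cases t with ⟨h1, h2⟩ | ⟨h1, h2⟩
  · rw [h1, abs_le]
    constructor
    · refine le_trans ?_ (le_max_right _ _)
      exact le_min (by linarith) (by linarith)
    · exact max_le (by linarith) (min_le_left _ _)
  · rw [h1, abs_le]
    constructor
    · refine le_trans ?_ (le_max_right _ _)
      exact le_min (by linarith) (by linarith)
    · exact max_le (by linarith) ((min_le_left _ _).trans (by linarith))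

lemma clip_eq {K t : ℝ} (h : |t| ≤ K) : clip K t = t := by
  rw [abs_le] at h
  unfold clip
  rw [min_eq_left h.2, max_eq_right h.1]

lemma clip_sub {K : ℝ} (hK : 0 ≤ K) (t : ℝ) : |t - clip K t| ≤ |t| := by
  unfold clip
  rcases le_total t (-K) with h | h
  · rw [min_eq_left (by linarith), max_eq_left h, abs_of_nonpos (by linarith), abs_of_nonpos (by linarith)]
    linarith
  · rcases le_total t K with h' | h'
    · rw [min_eq_left h', max_eq_right h, sub_self, abs_zero]; exact abs_nonneg _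
    · rw [min_eq_right h', max_eq_right (by linarith), abs_of_nonneg (by linarith), abs_of_nonneg (by linarith)]
      linarith

theorem exists_clip {Z : Type*} [MeasurableSpace Z] {P : Measure Z} [IsProbabilityMeasure P] {T : Z → Z}
    (hT : MeasurePreserving T P P) (W : Z → ℝ) (hWm : Measurable W) (hW : MemLp W 2 P)
    {ε : ℝ} (hε : 0 < ε) : ∃ K : ℝ, 1 ≤ K ∧ ∀ n : ℕ,
      ∫ z, clip K (W z) * clip K (W (T^[n] z)) ∂P ≤ (∫ z, W z * W (T^[n] z) ∂P) + ε := by
  set E2 := ∫ z, (W z)^2 ∂P with hE2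
  have hsq : Integrable (fun z => (W z)^2) P := hW.integrable_sq
  have hE2n : 0 ≤ E2 := integral_nonneg fun z => sq_nonneg _
  set δ := ε / (2 * (E2 + 1)) with hδ
  have hδ0 : 0 < δ := by positivity
  have hmq : ∀ K, Measurable fun z => clip K (W z) := fun K => (clip_cont K).measurable.comp hWm
  have hlim : Tendsto (fun k : ℕ => ∫ z, (W z - clip (k+1) (W z))^2 ∂P) atTop (𝓝 (∫ z, (0:ℝ) ∂P)) := by
    apply tendsto_integral_of_dominated_convergence (fun z => (W z)^2)
    · intro k; exact ((hWm.sub (hmq _)).pow_const 2).aestronglyMeasurable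
    · exact hsq
    · intro k
      refine Filter.Eventually.of_forall fun z => ?_
      rw [Real.norm_eq_abs, abs_pow, ← sq_abs (W z)]
      have := clip_sub (K := (k:ℝ)+1) (by positivity) (W z)
      gcongr
    · refine Filter.Eventually.of_forall fun z => ?_
      apply tendsto_const_nhds.congr'
      filter_upwards [eventually_ge_atTop ⌈|W z|⌉₊] with k hk
      have : |W z| ≤ (k:ℝ) + 1 := by
        have h1 := Nat.le_ceil (|W z|)
        have h2 : ((⌈|W z|⌉₊ : ℕ) : ℝ) ≤ k := by exact_mod_cast hk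
        linarith
      rw [clip_eq this]; ring
  simp only [integral_zero] at hlim
  obtain ⟨k, hk⟩ := (hlim.eventually (ge_mem_nhds (show (0:ℝ) < δ * ε / 2 by positivity))).exists
  have hK0 : (0:ℝ) ≤ (k:ℝ) + 1 := by positivity
  refine ⟨(k:ℝ)+1, by linarith [(Nat.cast_nonneg k : (0:ℝ) ≤ k)], fun n => ?_⟩
  set K := (k:ℝ) + 1 with hK
  have hTn : MeasurePreserving T^[n] P P := hT.iterate n
  have hWn : MemLp (fun z => W (T^[n] z)) 2 P := hW.comp_measurePreserving hTn
  have hsqn : Integrable (fun z => (W (T^[n] z))^2) P := hWn.integrable_sq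
  have hd : Integrable (fun z => (W z - clip K (W z))^2) P := by
    refine Integrable.mono' hsq ((hWm.sub (hmq _)).pow_const 2).aestronglyMeasurable
      (Filter.Eventually.of_forall fun z => ?_)
    rw [Real.norm_eq_abs, abs_pow, ← sq_abs (W z)]
    have := clip_sub hK0 (W z)
    gcongr
  have hdn : Integrable (fun z => (W (T^[n] z) - clip K (W (T^[n] z)))^2) P :=
    hTn.integrable_comp_of_integrable hd
  have hWW : Integrable (fun z => W z * W (T^[n] z)) P := hW.integrable_mul hWn
  have hqq : Integrable (fun z => clip K (W z) * clip K (W (T^[n] z))) P := by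
    refine Integrable.mono' (g := fun _ => K * K) (integrable_const _)
      ((hmq K).mul ((hmq K).comp hTn.measurable)).aestronglyMeasurable (Filter.Eventually.of_forall fun z => ?_)
    rw [Real.norm_eq_abs, abs_mul]
    exact mul_le_mul (clip_abs hK0 _) (clip_abs hK0 _) (abs_nonneg _) hK0
  have hpt : ∀ z, clip K (W z) * clip K (W (T^[n] z)) ≤ W z * W (T^[n] z)
      + ((1/(2*δ)) * (W z - clip K (W z))^2 + (δ/2) * (W (T^[n] z))^2
      + ((δ/2) * (W z)^2 + (1/(2*δ)) * (W (T^[n] z) - clip K (W (T^[n] z)))^2)) := by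
    intro z
    set x := W z
    set y := W (T^[n] z)
    set qx := clip K x with hqx
    set qy := clip K y with hqy
    have h1 : qx * qy = x * y - (x - qx) * y - qx * (y - qy) := by ring
    have am : ∀ u v : ℝ, -(u * v) ≤ (1/(2*δ)) * u^2 + (δ/2) * v^2 := by
      intro u v
      have : 0 ≤ (u + δ * v)^2 / (2 * δ) := by positivity
      have e : (u + δ * v)^2 / (2 * δ) = (1/(2*δ)) * u^2 + (δ/2) * v^2 + u * v := by field_simp; ring
      linarith
    have h2 := am (x - qx) y
    have h3 := am (y - qy) qx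
    have h4 : qx^2 ≤ x^2 := by
      rw [← sq_abs qx, ← sq_abs x]
      have := clip_le hK0 x
      gcongr
    have h5 : (δ/2) * qx^2 ≤ (δ/2) * x^2 := by gcongr
    rw [h1]
    linarith
  have i1 := hd.const_mul (1/(2*δ))
  have i2 := hsqn.const_mul (δ/2)
  have i3 := hsq.const_mul (δ/2)
  have i4 := hdn.const_mul (1/(2*δ))
  have i12 : Integrable (fun z => (1/(2*δ)) * (W z - clip K (W z))^2 + (δ/2) * (W (T^[n] z))^2) P := i1.add i2
  have i34 : Integrable (fun z => (δ/2) * (W z)^2 + (1/(2*δ)) * (W (T^[n] z) - clip K (W (T^[n] z)))^2) P := i3.add i4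
  have i1234 : Integrable (fun z => ((1/(2*δ)) * (W z - clip K (W z))^2 + (δ/2) * (W (T^[n] z))^2
      + ((δ/2) * (W z)^2 + (1/(2*δ)) * (W (T^[n] z) - clip K (W (T^[n] z)))^2))) P := i12.add i34
  have hI := integral_mono hqq (hWW.add i1234) hpt
  simp only [Pi.add_apply] at hI
  rw [integral_add hWW i1234, integral_add i12 i34, integral_add i1 i2, integral_add i3 i4,
    integral_const_mul, integral_const_mul, integral_const_mul, integral_const_mul] at hI
  have e1 : ∫ z, (W (T^[n] z))^2 ∂P = E2 := int_comp hTn (f := fun z => (W z)^2) hsq.aestronglyMeasurable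
  have e2 : ∫ z, (W (T^[n] z) - clip K (W (T^[n] z)))^2 ∂P = ∫ z, (W z - clip K (W z))^2 ∂P :=
    int_comp hTn (f := fun z => (W z - clip K (W z))^2) hd.aestronglyMeasurable
  rw [e1, e2] at hI
  have hk' : ∫ z, (W z - clip K (W z))^2 ∂P ≤ δ * ε / 2 := hk
  have h6 : (1/(2*δ)) * ∫ z, (W z - clip K (W z))^2 ∂P ≤ (1/(2*δ)) * (δ * ε / 2) := by gcongr
  have h7 : (1/(2*δ)) * (δ * ε / 2) = ε / 4 := by field_simp; ring
  have h8 : (δ/2) * E2 ≤ ε / 4 := by
    have : δ * (E2 + 1) = ε / 2 := by rw [hδ]; field_simp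
    nlinarith
  linarith

/-- uniform law -/
noncomputable def uni : Measure ℝ := volume.restrict (Set.Icc 0 1)

instance : IsProbabilityMeasure uni := ⟨by
  unfold uni
  rw [Measure.restrict_apply MeasurableSet.univ, Set.univ_inter, Real.volume_Icc]; simp⟩

lemma uni_Iio {v : ℝ} (h0 : 0 ≤ v) (h1 : v ≤ 1) : uni (Set.Iio v) = ENNReal.ofReal v := by
  unfold uni
  rw [Measure.restrict_apply measurableSet_Iio]
  have : Set.Iio v ∩ Set.Icc 0 1 = Set.Ico 0 v := by
    ext x
    simp only [Set.mem_inter_iff, Set.mem_Iio, Set.mem_Icc, Set.mem_Ico]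
    constructor
    · rintro ⟨h2, h3, h4⟩; exact ⟨h3, h2⟩
    · rintro ⟨h2, h3⟩; exact ⟨h3, h2, by linarith⟩
  rw [this, Real.volume_Ico, sub_zero]

/-- iid uniform noise -/
noncomputable def noi : Measure (ℕ → ℝ) := Measure.infinitePi (fun _ : ℕ => uni)

instance : IsProbabilityMeasure noi := by unfold noi; infer_instance

section
variable {Z : Type*} [MeasurableSpace Z] {P : Measure Z} [IsProbabilityMeasure P] {T : Z → Z}

def BB (V : Z → ℝ) : Set (Z × (ℕ → ℝ)) := {p | p.2 0 < V p.1}

lemma BB_meas {V : Z → ℝ} (hV : Measurable V) : MeasurableSet (BB V) := by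
  unfold BB
  exact measurableSet_lt ((measurable_pi_apply 0).comp measurable_snd) (hV.comp measurable_fst)

lemma BB_measure {V : Z → ℝ} (hV : Measurable V) (h0 : ∀ z, 0 ≤ V z) (h1 : ∀ z, V z ≤ 1) :
    ((P.prod noi) (BB V)).toReal = ∫ z, V z ∂P := by
  rw [Measure.prod_apply (BB_meas hV)]
  have hs : ∀ z, noi (Prod.mk z ⁻¹' (BB V)) = ENNReal.ofReal (V z) := by
    intro z
    have e : Prod.mk z ⁻¹' (BB V) = Set.pi (({0} : Finset ℕ) : Set ℕ) (fun _ => Set.Iio (V z)) := by
      ext u; simp [BB]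
    rw [e]
    unfold noi
    rw [Measure.infinitePi_pi _ (fun i _ => measurableSet_Iio)]
    simp [uni_Iio (h0 z) (h1 z)]
  simp_rw [hs]
  rw [integral_eq_lintegral_of_nonneg_ae (Filter.Eventually.of_forall h0) hV.aestronglyMeasurable]

lemma BB_corr (hT : MeasurePreserving T P P) {V : Z → ℝ} (hV : Measurable V) (h0 : ∀ z, 0 ≤ V z)
    (h1 : ∀ z, V z ≤ 1) (n : ℕ) (hn : n ≠ 0) :
    ((P.prod noi) (BB V ∩ (Prod.map T sh)^[n] ⁻¹' (BB V))).toReal = ∫ z, V z * V (T^[n] z) ∂P := by
  have hTm : Measurable (Prod.map T sh) := hT.measurable.prodMap sh_meas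
  have hVn : Measurable fun z => V (T^[n] z) := hV.comp (hT.measurable.iterate n)
  rw [Measure.prod_apply ((BB_meas hV).inter ((hTm.iterate n) (BB_meas hV)))]
  have hs : ∀ z, noi (Prod.mk z ⁻¹' (BB V ∩ (Prod.map T sh)^[n] ⁻¹' (BB V))) = ENNReal.ofReal (V z * V (T^[n] z)) := by
    intro z
    have e : Prod.mk z ⁻¹' (BB V ∩ (Prod.map T sh)^[n] ⁻¹' (BB V))
        = Set.pi (({0, n} : Finset ℕ) : Set ℕ) (fun i => if i = 0 then Set.Iio (V z) else Set.Iio (V (T^[n] z))) := by
      ext u
      simp only [Set.mem_preimage, Set.mem_inter_iff, prodmap_iter, BB, Set.mem_setOf_eq, sh_iter, Set.mem_pi,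
        Finset.coe_insert, Finset.coe_singleton, Set.mem_insert_iff, Set.mem_singleton_iff, forall_eq_or_imp,
        forall_eq, if_true, if_neg hn, Set.mem_Iio, zero_add]
    rw [e]
    unfold noi
    rw [Measure.infinitePi_pi _ (fun i _ => by split_ifs <;> exact measurableSet_Iio)]
    rw [Finset.prod_insert (by simp [Ne.symm hn]), Finset.prod_singleton]
    simp only [if_true, if_neg hn]
    rw [uni_Iio (h0 z) (h1 z), uni_Iio (h0 _) (h1 _), ENNReal.ofReal_mul (h0 z)]
  simp_rw [hs]
  rw [integral_eq_lintegral_of_nonneg_ae (Filter.Eventually.of_forall fun z => mul_nonneg (h0 _) (h0 _))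
    (hV.mul hVn).aestronglyMeasurable]

end

end Pool.Agent.H514R3
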