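import Mathlib
import Pool.Agent.H514R3.Thr
import Pool.Agent.H514R3.Mom
import Pool.Agent.H514R3.Spec
import Pool.Agent.H514R3.Rot

set_option autoImplicit false
open MeasureTheory Filter Topology Finset ProbabilityTheory

namespace Pool.Agent.H514R3

/-- cos and sin families have Gram matrix the Fourier transform -/
theorem exists_gauss_of_meas (τ : Measure ℝ) [IsFiniteMeasure τ] :
    ∃ γ : Measure (ℕ → ℝ), IsProbabilityMeasure γ ∧
      HasCov γ (fun j k => ∫ x, Real.cos ((lag j k : ℕ) * x) ∂τ) := by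
  have hc : ∀ n : ℕ, MemLp (fun x : ℝ => Real.cos (n * x)) 2 τ := fun n =>
    MemLp.of_bound (by fun_prop : Continuous fun x : ℝ => Real.cos (n * x)).aestronglyMeasurable 1
      (Filter.Eventually.of_forall fun x => by rw [Real.norm_eq_abs]; exact Real.abs_cos_le_one _)
  have hs : ∀ n : ℕ, MemLp (fun x : ℝ => Real.sin (n * x)) 2 τ := fun n =>
    MemLp.of_bound (by fun_prop : Continuous fun x : ℝ => Real.sin (n * x)).aestronglyMeasurable 1
      (Filter.Eventually.of_forall fun x => by rw [Real.norm_eq_abs]; exact Real.abs_sin_le_one _)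
  let h : ℕ → WithLp 2 (Lp ℝ 2 τ × Lp ℝ 2 τ) := fun n => WithLp.toLp 2 ((hc n).toLp _, (hs n).toLp _)
  obtain ⟨γ, h1, h2⟩ := exists_gauss h
  refine ⟨γ, h1, ?_⟩
  have key : ∀ j k : ℕ, inner ℝ (h j) (h k) = ∫ x, Real.cos ((lag j k : ℕ) * x) ∂τ := by
    intro j k
    rw [WithLp.prod_inner_apply]
    show inner ℝ ((hc j).toLp _) ((hc k).toLp _) + inner ℝ ((hs j).toLp _) ((hs k).toLp _) = _
    rw [L2.inner_def, L2.inner_def]
    have e1 : ∫ x, inner ℝ (((hc j).toLp (fun x : ℝ => Real.cos (j * x))) x) (((hc k).toLp (fun x : ℝ => Real.cos (k * x))) x) ∂τ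
        = ∫ x, Real.cos (j * x) * Real.cos (k * x) ∂τ := by
      apply integral_congr_ae
      filter_upwards [(hc j).coeFn_toLp, (hc k).coeFn_toLp] with x hx hy
      rw [hx, hy]
      simp [mul_comm]
    have e2 : ∫ x, inner ℝ (((hs j).toLp (fun x : ℝ => Real.sin (j * x))) x) (((hs k).toLp (fun x : ℝ => Real.sin (k * x))) x) ∂τ
        = ∫ x, Real.sin (j * x) * Real.sin (k * x) ∂τ := by
      apply integral_congr_ae
      filter_upwards [(hs j).coeFn_toLp, (hs k).coeFn_toLp] with x hx hy
      rw [hx, hy]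
      simp [mul_comm]
    have hi1 : Integrable (fun x : ℝ => Real.cos (j * x) * Real.cos (k * x)) τ := (hc j).integrable_mul (hc k)
    have hi2 : Integrable (fun x : ℝ => Real.sin (j * x) * Real.sin (k * x)) τ := (hs j).integrable_mul (hs k)
    rw [e1, e2, ← integral_add hi1 hi2]
    refine integral_congr_ae (Filter.Eventually.of_forall fun x => ?_)
    show Real.cos (j * x) * Real.cos (k * x) + Real.sin (j * x) * Real.sin (k * x) = Real.cos ((lag j k : ℕ) * x)
    rw [← Real.cos_sub, ← Real.cos_abs, ← sub_mul, abs_mul, ← Real.cos_abs ((lag j k : ℕ) * x), abs_mul]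
    congr 2
    have : ((lag j k : ℕ) : ℝ) = |(j:ℝ) - k| := by
      unfold lag
      rw [Nat.cast_natAbs]
      push_cast
      rfl
    rw [this, abs_abs]
  have e : (fun j k => inner ℝ (h j) (h k)) = fun j k : ℕ => ∫ x, Real.cos ((lag j k : ℕ) * x) ∂τ := by
    funext j k; exact key j k
  rw [e] at h2
  exact h2

/-- autocorrelation sequences are positive semidefinite -/
theorem pd_corr {X : Type*} [MeasurableSpace X] {μ : Measure X} [IsProbabilityMeasure μ] {T : X → X}
    (hT : MeasurePreserving T μ μ) {f : X → ℝ} (hf : Measurable f) (hb : ∃ C, ∀ x, |f x| ≤ C) :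
    PD (fun n => ∫ x, f x * f (T^[n] x) ∂μ) := by
  intro N a
  obtain ⟨C, hC⟩ := hb
  have hC0 : ∀ x : X, 0 ≤ C := fun x => (abs_nonneg _).trans (hC x)
  have hfn : ∀ n, Measurable fun x => f (T^[n] x) := fun n => hf.comp (hT.measurable.iterate n)
  have hle : ∀ j k, j ≤ k → ∫ x, f x * f (T^[k - j] x) ∂μ = ∫ x, f (T^[j] x) * f (T^[k] x) ∂μ := by
    intro j k hjk
    rw [← int_comp (hT.iterate j) (f := fun x => f x * f (T^[k-j] x)) (hf.mul (hfn _)).aestronglyMeasurable]
    refine integral_congr_ae (Filter.Eventually.of_forall fun x => ?_)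
    simp only
    rw [← Function.iterate_add_apply, Nat.sub_add_cancel hjk]
  have hl : ∀ j k, ∫ x, f x * f (T^[lag j k] x) ∂μ = ∫ x, f (T^[j] x) * f (T^[k] x) ∂μ := by
    intro j k
    rcases le_total j k with h | h
    · rw [← hle j k h]
      have : lag j k = k - j := by unfold lag; omega
      rw [this]
    · have : lag j k = j - k := by unfold lag; omega
      rw [this, hle k j h]
      refine integral_congr_ae (Filter.Eventually.of_forall fun x => ?_)
      simp only; ring
  simp only [hl]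
  have hi : ∀ j k, Integrable (fun x => a j * a k * (f (T^[j] x) * f (T^[k] x))) μ := by
    intro j k
    refine (Integrable.mono' (g := fun _ => C * C) (integrable_const _) ((hfn j).mul (hfn k)).aestronglyMeasurable
      (Filter.Eventually.of_forall fun x => ?_)).const_mul _
    show ‖f (T^[j] x) * f (T^[k] x)‖ ≤ C * C
    rw [Real.norm_eq_abs, abs_mul]
    exact mul_le_mul (hC _) (hC _) (abs_nonneg _) (hC0 x)
  have hsum : ∑ j ∈ range N, ∑ k ∈ range N, a j * a k * ∫ x, f (T^[j] x) * f (T^[k] x) ∂μ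
      = ∫ x, (∑ j ∈ range N, a j * f (T^[j] x))^2 ∂μ := by
    have e : ∀ x, (∑ j ∈ range N, a j * f (T^[j] x))^2 = ∑ j ∈ range N, ∑ k ∈ range N, a j * a k * (f (T^[j] x) * f (T^[k] x)) := by
      intro x
      rw [sq, Finset.sum_mul_sum]
      refine Finset.sum_congr rfl fun j _ => Finset.sum_congr rfl fun k _ => ?_
      ring
    simp_rw [e]
    rw [integral_finsetSum]
    · refine Finset.sum_congr rfl fun j _ => ?_
      rw [integral_finsetSum]
      · refine Finset.sum_congr rfl fun k _ => ?_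
        rw [integral_const_mul]
      · intro k _; exact hi j k
    · intro j _; exact integrable_finsetSum _ fun k _ => hi j k
  rw [hsum]
  exact integral_nonneg fun x => sq_nonneg _

lemma int_ind {X : Type*} [MeasurableSpace X] {μ : Measure X} {s : Set X} (hs : MeasurableSet s) :
    ∫ x, s.indicator (fun _ => (1:ℝ)) x ∂μ = μ.real s := by
  rw [integral_indicator hs]; simp

theorem core {X : Type*} [MeasurableSpace X] {μ : Measure X} [IsProbabilityMeasure μ] {T : X → X}
    (hT : MeasurePreserving T μ μ) {A : Set X} (hA : MeasurableSet A) {ε : ℝ} (hε : 0 < ε) (R : Set ℕ)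
    (hR : ∀ n ∈ R, (μ (A ∩ T^[n] ⁻¹' A)).toReal ≤ (μ A).toReal ^ 2 - ε) :
    ∃ (Y : Type) (_ : MeasurableSpace Y) (ν : Measure Y) (_ : IsProbabilityMeasure ν) (S : Y → Y) (B : Set Y),
      Ergodic S ν ∧ MeasurableSet B ∧ 0 < ν B ∧ ∃ ε' : ℝ, 0 < ε' ∧
        ∀ n ∈ R, (ν (B ∩ S^[n] ⁻¹' B)).toReal ≤ (ν B).toReal ^ 2 - ε' := by
  -- 0 is not in R
  have hR0 : ∀ n ∈ R, n ≠ 0 := by
    intro n hn h0
    have := hR n hn
    rw [h0] at this
    simp only [Function.iterate_zero, Set.preimage_id, Set.inter_self] at this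
    have h1 : (μ A).toReal ≤ 1 := by
      have := prob_le_one (μ := μ) (s := A)
      exact ENNReal.toReal_le_of_le_ofReal zero_le_one (by simpa using this)
    have h2 : 0 ≤ (μ A).toReal := ENNReal.toReal_nonneg
    nlinarith
  let f : X → ℝ := fun x => A.indicator (fun _ => (1:ℝ)) x - (μ A).toReal
  have hfm : Measurable f := (measurable_const.indicator hA).sub_const _
  have hind : ∀ x, |A.indicator (fun _ => (1:ℝ)) x| ≤ 1 := by
    intro x
    by_cases h : x ∈ A
    · simp [h]
    · simp [h]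
  have hfb : ∃ C, ∀ x, |f x| ≤ C := ⟨1 + |(μ A).toReal|, fun x => by
    refine (abs_sub _ _).trans ?_
    linarith [hind x]⟩
  have hrn : ∀ n, ∫ x, f x * f (T^[n] x) ∂μ = (μ (A ∩ T^[n] ⁻¹' A)).toReal - (μ A).toReal ^ 2 := by
    intro n
    have hTn := hT.iterate n
    have hAn : MeasurableSet (T^[n] ⁻¹' A) := hTn.measurable hA
    have e : ∀ x, f x * f (T^[n] x) = (A ∩ T^[n] ⁻¹' A).indicator (fun _ => (1:ℝ)) x
        - (μ A).toReal * A.indicator (fun _ => (1:ℝ)) x - (μ A).toReal * (T^[n] ⁻¹' A).indicator (fun _ => (1:ℝ)) x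
        + (μ A).toReal ^ 2 := by
      intro x
      simp only [f]
      by_cases h1 : x ∈ A
      · by_cases h2 : T^[n] x ∈ A
        · rw [Set.indicator_of_mem h1, Set.indicator_of_mem h2, Set.indicator_of_mem (show x ∈ A ∩ T^[n] ⁻¹' A from ⟨h1, h2⟩),
            Set.indicator_of_mem (show x ∈ T^[n] ⁻¹' A from h2)]
          ring
        · rw [Set.indicator_of_mem h1, Set.indicator_of_notMem h2, Set.indicator_of_notMem (show x ∉ A ∩ T^[n] ⁻¹' A from fun h => h2 h.2),
            Set.indicator_of_notMem (show x ∉ T^[n] ⁻¹' A from h2)]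
          ring
      · by_cases h2 : T^[n] x ∈ A
        · rw [Set.indicator_of_notMem h1, Set.indicator_of_mem h2, Set.indicator_of_notMem (show x ∉ A ∩ T^[n] ⁻¹' A from fun h => h1 h.1),
            Set.indicator_of_mem (show x ∈ T^[n] ⁻¹' A from h2)]
          ring
        · rw [Set.indicator_of_notMem h1, Set.indicator_of_notMem h2, Set.indicator_of_notMem (show x ∉ A ∩ T^[n] ⁻¹' A from fun h => h1 h.1),
            Set.indicator_of_notMem (show x ∉ T^[n] ⁻¹' A from h2)]
          ring
    simp_rw [e]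
    have ii : ∀ s : Set X, MeasurableSet s → Integrable (s.indicator (fun _ => (1:ℝ))) μ := fun s hs =>
      (integrable_const _).indicator hs
    have i1 := ii _ (hA.inter hAn)
    have i2 := (ii _ hA).const_mul (μ A).toReal
    have i3 := (ii _ hAn).const_mul (μ A).toReal
    have i12 : Integrable (fun x => (A ∩ T^[n] ⁻¹' A).indicator (fun _ => (1:ℝ)) x - (μ A).toReal * A.indicator (fun _ => (1:ℝ)) x) μ := i1.sub i2
    have i123 : Integrable (fun x => (A ∩ T^[n] ⁻¹' A).indicator (fun _ => (1:ℝ)) x - (μ A).toReal * A.indicator (fun _ => (1:ℝ)) x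
      - (μ A).toReal * (T^[n] ⁻¹' A).indicator (fun _ => (1:ℝ)) x) μ := i12.sub i3
    rw [integral_add i123 (integrable_const _), integral_sub i12 i3, integral_sub i1 i2, integral_const_mul, integral_const_mul,
      int_ind (hA.inter hAn), int_ind hA, int_ind hAn]
    have e3 : μ.real (T^[n] ⁻¹' A) = (μ A).toReal := by
      rw [measureReal_def, hTn.measure_preimage hA.nullMeasurableSet]
    rw [e3, measureReal_def, measureReal_def]
    simp
    ring
  obtain ⟨σ, hσf, hσ0, hσ⟩ := herglotz _ (pd_corr hT hfm hfb)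
  obtain ⟨F, c, τ, hF, hc, hτf, hτa, hτ0, hsum⟩ := split σ hσ0 (show 0 < ε / 4 by positivity)
  set rc : ℕ → ℝ := fun n => ∫ x, Real.cos (n * x) ∂τ with hrc
  have hle : ∀ n ∈ R, (∑ s ∈ F, c s * Real.cos (n * s)) + rc n ≤ - ε + ε / 4 := by
    intro n hn
    have h1 := hsum n
    rw [← hσ n] at h1
    rw [hrn n] at h1
    have h2 := hR n hn
    simp only [hrc]
    linarith
  obtain ⟨γ, hγp, hγ⟩ := exists_gauss_of_meas τ
  have hγ' : HasCov γ (fun j k => rc (lag j k)) := hγ
  have hwm : WM γ := by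
    apply wm_gauss γ rc hγ'
    · refine ⟨τ.real Set.univ, fun n => ?_⟩
      have := norm_integral_le_of_norm_le_const (μ := τ) (C := 1) (f := fun x : ℝ => Real.cos (n * x))
        (Filter.Eventually.of_forall fun x => by rw [Real.norm_eq_abs]; exact Real.abs_cos_le_one _)
      rw [Real.norm_eq_abs, one_mul] at this
      exact this
    · exact wiener_abs rc (wiener τ hτa hτ0)
  obtain ⟨d, hdm, hdb, hdc⟩ := exists_rot hF c hc
  have herg1 : Ergodic (Prod.map (fun x : HT F => gg F * x) sh) ((hm F).prod γ) := erg_prod (erg_rot F) hwm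
  set T1 : HT F × (ℕ → ℝ) → HT F × (ℕ → ℝ) := Prod.map (fun x : HT F => gg F * x) sh with hT1
  set P := (hm F).prod γ with hP
  let W : HT F × (ℕ → ℝ) → ℝ := fun z => d z.1 + z.2 0
  have hWm : Measurable W := (hdm.comp measurable_fst).add ((measurable_pi_apply 0).comp measurable_snd)
  obtain ⟨C, hC⟩ := hdb
  have hdL : MemLp d 2 (hm F) := MemLp.of_bound hdm.aestronglyMeasurable C
    (Filter.Eventually.of_forall fun x => by rw [Real.norm_eq_abs]; exact hC x)
  have hfst : MeasurePreserving (Prod.fst : HT F × (ℕ → ℝ) → HT F) P (hm F) := measurePreserving_fst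
  have hsnd : MeasurePreserving (Prod.snd : HT F × (ℕ → ℝ) → (ℕ → ℝ)) P γ := measurePreserving_snd
  have hWL : MemLp W 2 P := (hdL.comp_measurePreserving hfst).add ((coord_memLp hγ' 0).comp_measurePreserving hsnd)
  have hWW : ∀ n, ∫ z, W z * W (T1^[n] z) ∂P = (∑ s ∈ F, c s * Real.cos (n * s)) + rc n := by
    intro n
    have hdn : MemLp (fun x => d ((fun x : HT F => gg F * x)^[n] x)) 2 (hm F) :=
      hdL.comp_measurePreserving ((erg_rot F).toMeasurePreserving.iterate n)
    have e : ∀ z, W z * W (T1^[n] z) = d z.1 * d ((fun x : HT F => gg F * x)^[n] z.1) * 1 + d z.1 * z.2 n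
        + (d ((fun x : HT F => gg F * x)^[n] z.1) * z.2 0) + 1 * (z.2 0 * z.2 n) := by
      intro z
      rw [hT1, prodmap_iter]
      simp only [W, sh_iter, zero_add]
      ring
    simp_rw [e]
    have m1 : MemLp (fun z : HT F × (ℕ → ℝ) => d z.1) 2 P := hdL.comp_measurePreserving hfst
    have m2 : MemLp (fun z : HT F × (ℕ → ℝ) => d ((fun x : HT F => gg F * x)^[n] z.1)) 2 P := hdn.comp_measurePreserving hfst
    have m3 : MemLp (fun z : HT F × (ℕ → ℝ) => z.2 0) 2 P := (coord_memLp hγ' 0).comp_measurePreserving hsnd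
    have m4 : MemLp (fun z : HT F × (ℕ → ℝ) => z.2 n) 2 P := (coord_memLp hγ' n).comp_measurePreserving hsnd
    have j1 : Integrable (fun z : HT F × (ℕ → ℝ) => d z.1 * d ((fun x : HT F => gg F * x)^[n] z.1) * 1) P := by
      have : Integrable (fun z : HT F × (ℕ → ℝ) => d z.1 * d ((fun x : HT F => gg F * x)^[n] z.1)) P := m1.integrable_mul m2
      exact this.mul_const 1
    have j2 : Integrable (fun z : HT F × (ℕ → ℝ) => d z.1 * z.2 n) P := m1.integrable_mul m4
    have j3 : Integrable (fun z : HT F × (ℕ → ℝ) => d ((fun x : HT F => gg F * x)^[n] z.1) * z.2 0) P := m2.integrable_mul m3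
    have j4 : Integrable (fun z : HT F × (ℕ → ℝ) => 1 * (z.2 0 * z.2 n)) P := by
      have : Integrable (fun z : HT F × (ℕ → ℝ) => z.2 0 * z.2 n) P := m3.integrable_mul m4
      exact this.const_mul 1
    have j12 : Integrable (fun z : HT F × (ℕ → ℝ) => d z.1 * d ((fun x : HT F => gg F * x)^[n] z.1) * 1 + d z.1 * z.2 n) P := j1.add j2
    have j123 : Integrable (fun z : HT F × (ℕ → ℝ) => d z.1 * d ((fun x : HT F => gg F * x)^[n] z.1) * 1 + d z.1 * z.2 n
      + d ((fun x : HT F => gg F * x)^[n] z.1) * z.2 0) P := j12.add j3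
    rw [integral_add j123 j4, integral_add j12 j3, integral_add j1 j2]
    rw [hP, integral_prod_mul (f := fun x : HT F => d x * d ((fun x : HT F => gg F * x)^[n] x)) (g := fun _ : ℕ → ℝ => (1:ℝ)),
      integral_prod_mul (f := fun x : HT F => d x) (g := fun w : ℕ → ℝ => w n),
      integral_prod_mul (f := fun x : HT F => d ((fun x : HT F => gg F * x)^[n] x)) (g := fun w : ℕ → ℝ => w 0),
      integral_prod_mul (f := fun _ : HT F => (1:ℝ)) (g := fun w : ℕ → ℝ => w 0 * w n),
      hdc n, coord_mean hγ', coord_mean hγ', coord_cov hγ']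
    have l1 : lag 0 n = n := by unfold lag; omega
    have l2 : lag n 0 = n := by unfold lag; omega
    rw [l1, l2]
    simp
  obtain ⟨K, hK1, hK⟩ := exists_clip herg1.toMeasurePreserving W hWm hWL (show 0 < ε / 4 by positivity)
  have hK0 : (0:ℝ) < K := by linarith
  have hqm : Measurable fun z => clip K (W z) := (clip_cont K).measurable.comp hWm
  let V : HT F × (ℕ → ℝ) → ℝ := fun z => 1/2 + clip K (W z) / (4 * K)
  have hVm : Measurable V := (hqm.div_const _).const_add _
  have hqb : ∀ z, |clip K (W z) / (4 * K)| ≤ 1/4 := by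
    intro z
    rw [abs_div, abs_of_pos (show (0:ℝ) < 4 * K by positivity), div_le_iff₀ (by positivity)]
    have := clip_abs hK0.le (W z)
    linarith
  have hV0 : ∀ z, 1/4 ≤ V z := by
    intro z
    have := (abs_le.1 (hqb z)).1
    show 1/4 ≤ 1/2 + clip K (W z) / (4 * K)
    linarith
  have hV0' : ∀ z, 0 ≤ V z := fun z => le_trans (by norm_num) (hV0 z)
  have hV1 : ∀ z, V z ≤ 1 := by
    intro z
    have := (abs_le.1 (hqb z)).2
    show 1/2 + clip K (W z) / (4 * K) ≤ 1
    linarith
  have hqi : Integrable (fun z => clip K (W z)) P :=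
    Integrable.mono' (g := fun _ => K) (integrable_const _) hqm.aestronglyMeasurable
      (Filter.Eventually.of_forall fun z => by rw [Real.norm_eq_abs]; exact clip_abs hK0.le _)
  set m := ∫ z, clip K (W z) ∂P with hmdef
  have hVint : ∫ z, V z ∂P = 1/2 + m / (4 * K) := by
    show ∫ z, (1/2 + clip K (W z) / (4 * K)) ∂P = _
    rw [integral_add (integrable_const _) (hqi.div_const _), integral_div (4 * K) (fun z => clip K (W z))]
    simp [hmdef]
  have herg2 : Ergodic (Prod.map T1 sh) (P.prod noi) := erg_prod herg1 (wm_iid uni)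
  refine ⟨(HT F × (ℕ → ℝ)) × (ℕ → ℝ), inferInstance, P.prod noi, inferInstance, Prod.map T1 sh, BB V, herg2,
    BB_meas hVm, ?_, ε / (32 * K^2), by positivity, ?_⟩
  · have h1 : ((P.prod noi) (BB V)).toReal = ∫ z, V z ∂P := BB_measure hVm hV0' hV1
    have hVi : Integrable V P := (integrable_const _).add (hqi.div_const _)
    have h2 : (1/4 : ℝ) ≤ ∫ z, V z ∂P := by
      have := integral_mono (μ := P) (integrable_const (1/4 : ℝ)) hVi hV0
      simpa using this
    have h3 : 0 < ((P.prod noi) (BB V)).toReal := by rw [h1]; linarith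
    exact (ENNReal.toReal_pos_iff.1 h3).1
  · intro n hn
    have hn0 := hR0 n hn
    have h1 : ((P.prod noi) (BB V)).toReal = 1/2 + m / (4 * K) := by
      rw [BB_measure hVm hV0' hV1, hVint]
    rw [BB_corr herg1.toMeasurePreserving hVm hV0' hV1 n hn0, h1]
    have hTn := herg1.toMeasurePreserving.iterate n
    have hqni : Integrable (fun z => clip K (W (T1^[n] z))) P := hTn.integrable_comp_of_integrable hqi
    have hqqi : Integrable (fun z => clip K (W z) * clip K (W (T1^[n] z))) P := by
      refine Integrable.mono' (g := fun _ => K * K) (integrable_const _)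
        (hqm.mul (hqm.comp hTn.measurable)).aestronglyMeasurable (Filter.Eventually.of_forall fun z => ?_)
      rw [Real.norm_eq_abs, abs_mul]
      exact mul_le_mul (clip_abs hK0.le _) (clip_abs hK0.le _) (abs_nonneg _) hK0.le
    have hmn : ∫ z, clip K (W (T1^[n] z)) ∂P = m := int_comp hTn (f := fun z => clip K (W z)) hqi.aestronglyMeasurable
    have e : ∀ z, V z * V (T1^[n] z) = (1/4 + (1/(8*K)) * clip K (W z)) + ((1/(8*K)) * clip K (W (T1^[n] z))
        + (1/(16*K^2)) * (clip K (W z) * clip K (W (T1^[n] z)))) := by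
      intro z
      show (1/2 + clip K (W z) / (4 * K)) * (1/2 + clip K (W (T1^[n] z)) / (4 * K)) = _
      field_simp
      ring
    simp_rw [e]
    have a1 : Integrable (fun z => (1/4 + (1/(8*K)) * clip K (W z))) P := (integrable_const _).add (hqi.const_mul _)
    have a2 : Integrable (fun z => ((1/(8*K)) * clip K (W (T1^[n] z))
        + (1/(16*K^2)) * (clip K (W z) * clip K (W (T1^[n] z))))) P := (hqni.const_mul _).add (hqqi.const_mul _)
    rw [integral_add a1 a2, integral_add (integrable_const _) (hqi.const_mul _),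
      integral_add (hqni.const_mul _) (hqqi.const_mul _), integral_const_mul, integral_const_mul, integral_const_mul, hmn]
    have hcn : ∫ z, clip K (W z) * clip K (W (T1^[n] z)) ∂P ≤ - ε / 2 := by
      have h2 := hK n
      rw [hWW n] at h2
      have h3 := hle n hn
      linarith
    set cn := ∫ z, clip K (W z) * clip K (W (T1^[n] z)) ∂P with hcndef
    have hm2 : m = ∫ z, clip K (W z) ∂P := rfl
    simp only [integral_const, probReal_univ, one_smul]
    rw [← hm2]
    have h5 : (1/2 + m / (4 * K))^2 = 1/4 + (1/(8*K)) * m + (1/(8*K)) * m + (1/(16*K^2)) * m^2 := by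
      field_simp; ring
    rw [h5]
    have h6 : (1/(16*K^2)) * cn ≤ (1/(16*K^2)) * (-ε/2) := by gcongr
    have h7 : (1/(16*K^2)) * (-ε/2) = - (ε / (32*K^2)) := by field_simp; ring
    have h8 : 0 ≤ (1/(16*K^2)) * m^2 := by positivity
    linarith

end Pool.Agent.H514R3
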