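import Mathlib
import Pool.Agent.H514R3.Thr

set_option autoImplicit false
open MeasureTheory Filter Topology Finset ProbabilityTheory

namespace Pool.Agent.H514R3.Ram

universe u

section mp
variable {X : Type*} [MeasurableSpace X]

/-- perms preserving the measure together with their inverse -/
def mpSub (μ : Measure X) : Subgroup (Equiv.Perm X) where
  carrier := {σ | MeasurePreserving (⇑σ) μ μ ∧ MeasurePreserving (⇑σ⁻¹) μ μ}
  mul_mem' := by
    intro a b ha hb
    refine ⟨ha.1.comp hb.1, ?_⟩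
    rw [mul_inv_rev]
    exact hb.2.comp ha.2
  one_mem' := ⟨MeasurePreserving.id μ, by rw [inv_one]; exact MeasurePreserving.id μ⟩
  inv_mem' := by
    intro a ha
    exact ⟨ha.2, by rw [inv_inv]; exact ha.1⟩

lemma mem_mpSub {μ : Measure X} {T : Equiv.Perm X} (h1 : Measurable T) (h2 : Measurable T.symm)
    (h : MeasurePreserving (⇑T) μ μ) : T ∈ mpSub μ := by
  refine ⟨h, ?_⟩
  let e : X ≃ᵐ X := ⟨T, h1, h2⟩
  have h' : MeasurePreserving e μ μ := h
  exact h'.symm e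

lemma zpow_mp {μ : Measure X} {T : Equiv.Perm X} (h : T ∈ mpSub μ) (n : ℤ) :
    MeasurePreserving (⇑(T ^ n)) μ μ := (zpow_mem h n).1

end mp

/-- invertible measure preserving systems -/
structure Sys where
  X : Type u
  mX : MeasurableSpace X
  μ : @Measure X mX
  pr : IsProbabilityMeasure μ
  T : Equiv.Perm X
  hT : T ∈ mpSub μ

attribute [instance] Sys.mX Sys.pr

/-- bounded functions and their autocorrelations -/
def Corr (w : ℤ → ℝ) : Prop :=
  ∃ (S : Sys.{u}) (g : S.X → ℝ) (K : ℝ), Measurable g ∧ (∀ x, |g x| ≤ K) ∧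
    ∀ n : ℤ, w n = ∫ x, g x * g ((S.T ^ n) x) ∂S.μ

/-- the same with mean zero -/
def Corr0 (w : ℤ → ℝ) : Prop :=
  ∃ (S : Sys.{u}) (g : S.X → ℝ) (K : ℝ), Measurable g ∧ (∀ x, |g x| ≤ K) ∧ ∫ x, g x ∂S.μ = 0 ∧
    ∀ n : ℤ, w n = ∫ x, g x * g ((S.T ^ n) x) ∂S.μ

/-- product hom -/
def prodHom (X Y : Type*) : Equiv.Perm X × Equiv.Perm Y →* Equiv.Perm (X × Y) where
  toFun p := Equiv.prodCongr p.1 p.2
  map_one' := by ext ⟨x, y⟩ <;> rfl
  map_mul' a b := by ext ⟨x, y⟩ <;> rfl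

lemma prod_zpow {X Y : Type*} (S : Equiv.Perm X) (T : Equiv.Perm Y) (n : ℤ) (z : X × Y) :
    ((Equiv.prodCongr S T : Equiv.Perm (X × Y)) ^ n) z = ((S ^ n) z.1, (T ^ n) z.2) := by
  have : (Equiv.prodCongr S T : Equiv.Perm (X × Y)) ^ n = prodHom X Y ((S, T) ^ n) := by
    rw [map_zpow]; rfl
  rw [this]
  rfl

/-- product system -/
noncomputable def Sys.prod (S T : Sys.{u}) : Sys.{u} where
  X := S.X × T.X
  mX := inferInstance
  μ := S.μ.prod T.μ
  pr := inferInstance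
  T := Equiv.prodCongr S.T T.T
  hT := by
    constructor
    · exact S.hT.1.prod T.hT.1
    · exact S.hT.2.prod T.hT.2

lemma integrable_of_bdd {X : Type*} [MeasurableSpace X] {μ : Measure X} [IsProbabilityMeasure μ] {f : X → ℝ}
    {K : ℝ} (hf : Measurable f) (hK : ∀ x, |f x| ≤ K) : Integrable f μ :=
  Integrable.mono' (g := fun _ => K) (integrable_const _) hf.aestronglyMeasurable
    (Filter.Eventually.of_forall fun x => by rw [Real.norm_eq_abs]; exact hK x)

lemma Corr.mul {w1 w2 : ℤ → ℝ} (h1 : Corr.{u} w1) (h2 : Corr.{u} w2) : Corr.{u} (fun n => w1 n * w2 n) := by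
  obtain ⟨S, g, K, hg, hK, hw⟩ := h1
  obtain ⟨S', g', K', hg', hK', hw'⟩ := h2
  refine ⟨S.prod S', fun z => g z.1 * g' z.2, K * K', (hg.comp measurable_fst).mul (hg'.comp measurable_snd), ?_, ?_⟩
  · intro z
    rw [abs_mul]
    exact mul_le_mul (hK _) (hK' _) (abs_nonneg _) ((abs_nonneg _).trans (hK z.1))
  · intro n
    show w1 n * w2 n = ∫ z : S.X × S'.X, g z.1 * g' z.2 * (g (((Equiv.prodCongr S.T S'.T : Equiv.Perm (S.X × S'.X)) ^ n) z).1
        * g' (((Equiv.prodCongr S.T S'.T : Equiv.Perm (S.X × S'.X)) ^ n) z).2) ∂(S.μ.prod S'.μ)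
    simp_rw [prod_zpow]
    rw [hw n, hw' n, ← integral_prod_mul]
    refine integral_congr_ae (Filter.Eventually.of_forall fun z => ?_)
    simp only
    ring

lemma Corr0.mul {w1 w2 : ℤ → ℝ} (h1 : Corr0.{u} w1) (h2 : Corr.{u} w2) : Corr0.{u} (fun n => w1 n * w2 n) := by
  obtain ⟨S, g, K, hg, hK, h0, hw⟩ := h1
  obtain ⟨S', g', K', hg', hK', hw'⟩ := h2
  refine ⟨S.prod S', fun z => g z.1 * g' z.2, K * K', (hg.comp measurable_fst).mul (hg'.comp measurable_snd), ?_, ?_, ?_⟩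
  · intro z
    rw [abs_mul]
    exact mul_le_mul (hK _) (hK' _) (abs_nonneg _) ((abs_nonneg _).trans (hK z.1))
  · show ∫ z, g z.1 * g' z.2 ∂(S.μ.prod S'.μ) = 0
    rw [integral_prod_mul (f := g) (g := g'), h0, zero_mul]
  · intro n
    show w1 n * w2 n = ∫ z : S.X × S'.X, g z.1 * g' z.2 * (g (((Equiv.prodCongr S.T S'.T : Equiv.Perm (S.X × S'.X)) ^ n) z).1
        * g' (((Equiv.prodCongr S.T S'.T : Equiv.Perm (S.X × S'.X)) ^ n) z).2) ∂(S.μ.prod S'.μ)
    simp_rw [prod_zpow]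
    rw [hw n, hw' n, ← integral_prod_mul]
    refine integral_congr_ae (Filter.Eventually.of_forall fun z => ?_)
    simp only
    ring

lemma Corr0.one_add {w : ℤ → ℝ} (h : Corr0.{u} w) : Corr.{u} (fun n => 1 + w n) := by
  obtain ⟨S, g, K, hg, hK, h0, hw⟩ := h
  refine ⟨S, fun x => 1 + g x, 1 + K, hg.const_add _, ?_, ?_⟩
  · intro x
    refine (abs_add_le _ _).trans ?_
    rw [abs_one]
    linarith [hK x]
  · intro n
    show 1 + w n = ∫ x, (1 + g x) * (1 + g ((S.T ^ n) x)) ∂S.μ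
    rw [hw n]
    have hTn := zpow_mp S.hT n
    have i1 : Integrable g S.μ := integrable_of_bdd hg hK
    have i2 : Integrable (fun x => g ((S.T ^ n) x)) S.μ := hTn.integrable_comp_of_integrable i1
    have i3 : Integrable (fun x => g x * g ((S.T ^ n) x)) S.μ :=
      integrable_of_bdd (K := K * K) (hg.mul (hg.comp hTn.measurable)) fun x => by
        rw [abs_mul]
        exact mul_le_mul (hK _) (hK _) (abs_nonneg _) ((abs_nonneg _).trans (hK x))
    have e : ∀ x, (1 + g x) * (1 + g ((S.T ^ n) x)) = (1 + g x) + (g ((S.T ^ n) x) + g x * g ((S.T ^ n) x)) := fun x => by ring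
    simp_rw [e]
    have j1 : Integrable (fun x => 1 + g x) S.μ := (integrable_const _).add i1
    have j2 : Integrable (fun x => g ((S.T ^ n) x) + g x * g ((S.T ^ n) x)) S.μ := i2.add i3
    rw [integral_add j1 j2, integral_add (integrable_const _) i1, integral_add i2 i3, h0,
      int_comp hTn i1.aestronglyMeasurable, h0]
    simp

lemma Corr0.add {w1 w2 : ℤ → ℝ} (h1 : Corr0.{u} w1) (h2 : Corr0.{u} w2) : Corr0.{u} (fun n => w1 n + w2 n) := by
  obtain ⟨S, g, K, hg, hK, h0, hw⟩ := h1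
  obtain ⟨S', g', K', hg', hK', h0', hw'⟩ := h2
  refine ⟨S.prod S', fun z => g z.1 + g' z.2, K + K', (hg.comp measurable_fst).add (hg'.comp measurable_snd), ?_, ?_, ?_⟩
  · intro z
    exact (abs_add_le _ _).trans (add_le_add (hK _) (hK' _))
  · have i1 : Integrable (fun z : S.X × S'.X => g z.1) (S.μ.prod S'.μ) :=
      integrable_of_bdd (hg.comp measurable_fst) fun z => hK z.1
    have i2 : Integrable (fun z : S.X × S'.X => g' z.2) (S.μ.prod S'.μ) :=
      integrable_of_bdd (hg'.comp measurable_snd) fun z => hK' z.2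
    show ∫ z, (g z.1 + g' z.2) ∂(S.μ.prod S'.μ) = 0
    rw [integral_add i1 i2, integral_fun_fst, integral_fun_snd, h0, h0']
    simp
  · intro n
    have hTn := zpow_mp S.hT n
    have hTn' := zpow_mp S'.hT n
    show w1 n + w2 n = ∫ z, (g z.1 + g' z.2) * (g (((Equiv.prodCongr S.T S'.T : Equiv.Perm (S.X × S'.X)) ^ n) z).1
        + g' (((Equiv.prodCongr S.T S'.T : Equiv.Perm (S.X × S'.X)) ^ n) z).2) ∂(S.μ.prod S'.μ)
    rw [hw n, hw' n]
    simp_rw [prod_zpow]
    have e : ∀ z : S.X × S'.X, (g z.1 + g' z.2) * (g ((S.T ^ n) z.1) + g' ((S'.T ^ n) z.2))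
        = ((g z.1 * g ((S.T ^ n) z.1)) * 1 + g z.1 * g' ((S'.T ^ n) z.2))
          + (g ((S.T ^ n) z.1) * g' z.2 + 1 * (g' z.2 * g' ((S'.T ^ n) z.2))) := fun z => by ring
    simp_rw [e]
    have mg : Measurable fun z : S.X × S'.X => g z.1 := hg.comp measurable_fst
    have mg' : Measurable fun z : S.X × S'.X => g' z.2 := hg'.comp measurable_snd
    have mgn : Measurable fun z : S.X × S'.X => g ((S.T ^ n) z.1) := (hg.comp hTn.measurable).comp measurable_fst
    have mgn' : Measurable fun z : S.X × S'.X => g' ((S'.T ^ n) z.2) := (hg'.comp hTn'.measurable).comp measurable_snd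
    have hKK : ∀ {a b A B : ℝ}, |a| ≤ A → |b| ≤ B → |a * b| ≤ A * B := fun ha hb => by
      rw [abs_mul]; exact mul_le_mul ha hb (abs_nonneg _) ((abs_nonneg _).trans ha)
    have i1 : Integrable (fun z : S.X × S'.X => (g z.1 * g ((S.T ^ n) z.1)) * 1) (S.μ.prod S'.μ) :=
      (integrable_of_bdd (mg.mul mgn) fun z => hKK (hK _) (hK _)).mul_const 1
    have i2 : Integrable (fun z : S.X × S'.X => g z.1 * g' ((S'.T ^ n) z.2)) (S.μ.prod S'.μ) :=
      integrable_of_bdd (mg.mul mgn') fun z => hKK (hK _) (hK' _)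
    have i3 : Integrable (fun z : S.X × S'.X => g ((S.T ^ n) z.1) * g' z.2) (S.μ.prod S'.μ) :=
      integrable_of_bdd (mgn.mul mg') fun z => hKK (hK _) (hK' _)
    have i4 : Integrable (fun z : S.X × S'.X => 1 * (g' z.2 * g' ((S'.T ^ n) z.2))) (S.μ.prod S'.μ) :=
      (integrable_of_bdd (mg'.mul mgn') fun z => hKK (hK' _) (hK' _)).const_mul 1
    have i12 : Integrable (fun z : S.X × S'.X => (g z.1 * g ((S.T ^ n) z.1)) * 1 + g z.1 * g' ((S'.T ^ n) z.2)) (S.μ.prod S'.μ) := i1.add i2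
    have i34 : Integrable (fun z : S.X × S'.X => g ((S.T ^ n) z.1) * g' z.2 + 1 * (g' z.2 * g' ((S'.T ^ n) z.2))) (S.μ.prod S'.μ) := i3.add i4
    rw [integral_add i12 i34, integral_add i1 i2, integral_add i3 i4,
      integral_prod_mul (f := fun x => g x * g ((S.T ^ n) x)) (g := fun _ : S'.X => (1:ℝ)),
      integral_prod_mul (f := g) (g := fun y => g' ((S'.T ^ n) y)),
      integral_prod_mul (f := fun x => g ((S.T ^ n) x)) (g := g'),
      integral_prod_mul (f := fun _ : S.X => (1:ℝ)) (g := fun y => g' y * g' ((S'.T ^ n) y)), h0, h0']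
    simp

lemma Corr.one : Corr.{u} (fun _ => 1) := by
  refine ⟨⟨PUnit, ⊤, Measure.dirac PUnit.unit, inferInstance, 1, Subgroup.one_mem _⟩, fun _ => 1, 1, measurable_const,
    fun _ => by simp, fun n => by simp⟩

lemma Corr.pow {w : ℤ → ℝ} (h : Corr.{u} w) (N : ℕ) : Corr.{u} (fun n => w n ^ N) := by
  induction N with
  | zero => simpa using Corr.one
  | succ N ih =>
    have := ih.mul h
    simpa only [pow_succ] using this

lemma Corr0.comb {u' v' : ℤ → ℝ} (hu : Corr0.{u} u') (hv : Corr0.{u} v') (N : ℕ) :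
    Corr0.{u} (fun n => u' n * (1 + v' n) ^ N + v' n * (1 + u' n) ^ N) :=
  (hu.mul (hv.one_add.pow N)).add (hv.mul (hu.one_add.pow N))

lemma real_ineq {a b ε : ℝ} (ha : |a| ≤ 1/4) (hb : |b| ≤ 1/4) (h : a ≤ -ε) (hε : 0 < ε) (N : ℕ) (hN : 1 ≤ N * ε) :
    a * (1 + b) ^ N + b * (1 + a) ^ N ≤ - (ε * (3/4) ^ N) := by
  rw [abs_le] at ha hb
  have h34 : ((3:ℝ)/4) ^ N ≤ 1 := pow_le_one₀ (by norm_num) (by norm_num)
  have hp : 0 < (1 + b) ^ N := pow_pos (by linarith) N
  have hq : 0 ≤ (1 + a) ^ N := pow_nonneg (by linarith) N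
  have hq1 : (1 + a) ^ N ≤ 1 := pow_le_one₀ (by linarith) (by linarith)
  rcases le_total b 0 with hb0 | hb0
  · have h1 : ((3:ℝ)/4) ^ N ≤ (1 + b) ^ N := by
      apply pow_le_pow_left₀ (by norm_num); linarith
    have h2 : a * (1 + b) ^ N ≤ -ε * (1 + b) ^ N := by gcongr
    have h3 : b * (1 + a) ^ N ≤ 0 := mul_nonpos_of_nonpos_of_nonneg hb0 hq
    nlinarith
  · have h1 : 1 + N * b ≤ (1 + b) ^ N := one_add_mul_le_pow (by linarith) N
    have h2 : a * (1 + b) ^ N ≤ -ε * (1 + b) ^ N := by gcongr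
    have h3 : b * (1 + a) ^ N ≤ b := mul_le_of_le_one_right hb0 hq1
    have h4 : -ε * (1 + b) ^ N ≤ -ε * (1 + N * b) := by nlinarith
    have h5 : b ≤ N * ε * b := by nlinarith
    nlinarith

end Pool.Agent.H514R3.Ram
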