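import Mathlib
import Pool.Agent.H514R3.Ram

set_option autoImplicit false
open MeasureTheory Filter Topology Finset ProbabilityTheory

namespace Pool.Agent.H514R3.Ram

universe u

set_option linter.unusedSectionVars false

/-- two sided shift -/
def shZ : Equiv.Perm (ℤ → ℝ) where
  toFun w k := w (k + 1)
  invFun w k := w (k - 1)
  left_inv w := by funext k; simp
  right_inv w := by funext k; simp

lemma shZ_zpow (n : ℤ) (w : ℤ → ℝ) (k : ℤ) : (shZ ^ n) w k = w (k + n) := by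
  induction n using Int.induction_on generalizing w k with
  | zero => simp
  | succ n ih =>
    rw [zpow_add, zpow_one, Equiv.Perm.mul_apply, ih]
    show w (k + n + 1) = w (k + (n + 1))
    congr 1; ring
  | pred n ih =>
    rw [zpow_sub, zpow_one, Equiv.Perm.mul_apply, ih]
    show w (k + -n - 1) = w (k + (-n - 1))
    congr 1; ring

/-- two sided noise -/
noncomputable def noZ : Measure (ℤ → ℝ) := Measure.infinitePi (fun _ : ℤ => uni)

instance : IsProbabilityMeasure noZ := by unfold noZ; infer_instance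

lemma noZ_shift_aux (m : ℤ) (s : Finset ℤ) (t : ℤ → Set ℝ) (ht : ∀ i, MeasurableSet (t i)) :
    ((Measure.infinitePi (fun _ : ℤ => uni)).map (fun (w : ℤ → ℝ) (k : ℤ) => w (k + m))) (Set.pi (s : Set ℤ) t)
      = ∏ i ∈ s, uni (t i) := by
  have hm : Measurable (fun (w : ℤ → ℝ) (k : ℤ) => w (k + m)) := by
    rw [measurable_pi_iff]; intro k; exact measurable_pi_apply (k + m)
  have hts : MeasurableSet (Set.pi (s : Set ℤ) t) := MeasurableSet.pi s.countable_toSet fun i _ => ht i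
  rw [Measure.map_apply hm hts]
  have e : (fun (w : ℤ → ℝ) (k : ℤ) => w (k + m)) ⁻¹' (Set.pi (s : Set ℤ) t)
      = Set.pi ((s.map (Equiv.addRight m).toEmbedding : Finset ℤ) : Set ℤ) (fun k => t (k - m)) := by
    ext w
    simp only [Set.mem_preimage, Set.mem_pi, Finset.mem_coe, Finset.mem_map]
    constructor
    · rintro h _ ⟨k, hk, rfl⟩
      have := h k hk
      have e : (Equiv.addRight m).toEmbedding k - m = k := by simp
      rw [e]
      exact this
    · intro h k hk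
      have := h _ ⟨k, hk, rfl⟩
      have e : (Equiv.addRight m).toEmbedding k - m = k := by simp
      rw [e] at this
      exact this
  rw [e, Measure.infinitePi_pi]
  · rw [Finset.prod_map]
    refine Finset.prod_congr rfl fun k _ => ?_
    have e : (Equiv.addRight m).toEmbedding k - m = k := by simp
    rw [e]
  · intro k hk
    exact ht _

lemma noZ_shift (m : ℤ) : MeasurePreserving (fun (w : ℤ → ℝ) (k : ℤ) => w (k + m)) noZ noZ := by
  have hm : Measurable (fun (w : ℤ → ℝ) (k : ℤ) => w (k + m)) := by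
    rw [measurable_pi_iff]; intro k; exact measurable_pi_apply (k + m)
  refine ⟨hm, ?_⟩
  unfold noZ
  apply Measure.eq_infinitePi
  intro s t ht
  exact noZ_shift_aux m s t ht

lemma shZ_mem : shZ ∈ mpSub noZ := by
  constructor
  · exact noZ_shift 1
  · have := noZ_shift (-1)
    exact this

/-- nice recurrence along a filter -/
def NiceAlong (l : Filter ℤ) (R : Set ℤ) : Prop :=
  ∀ (X : Type u) [MeasurableSpace X] (μ : Measure X) [IsProbabilityMeasure μ] (T : Equiv.Perm X),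
    Measurable T → Measurable T.symm → MeasurePreserving (⇑T) μ μ →
    ∀ A : Set X, MeasurableSet A →
      (μ A) ^ 2 ≤ limsup (fun n : ℤ => μ (A ∩ (⇑(T ^ n)) '' A)) (l ⊓ 𝓟 R)

lemma image_eq {X : Type*} [MeasurableSpace X] {μ : Measure X} {T : Equiv.Perm X} (h : T ∈ mpSub μ)
    {A : Set X} (hA : MeasurableSet A) (n : ℤ) :
    μ (A ∩ (⇑(T ^ n)) '' A) = μ (A ∩ (⇑(T ^ n)) ⁻¹' A) := by
  have h1 := zpow_mp h n
  have h2 := zpow_mp h (-n)
  have e : (⇑(T ^ n)) '' A = (⇑(T ^ (-n))) ⁻¹' A := by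
    rw [zpow_neg]
    exact Equiv.image_eq_preimage_symm (T ^ n) A
  have hm : MeasurableSet (A ∩ (⇑(T ^ (-n))) ⁻¹' A) := hA.inter (h2.measurable hA)
  rw [e, ← h1.measure_preimage hm.nullMeasurableSet]
  congr 1
  ext x
  simp only [Set.mem_preimage, Set.mem_inter_iff]
  have : (T ^ (-n)) ((T ^ n) x) = x := by
    rw [← Equiv.Perm.mul_apply, ← zpow_add, neg_add_cancel, zpow_zero, Equiv.Perm.one_apply]
  rw [this]
  exact and_comm

/-- the class of bad data -/
def Bad (l : Filter ℤ) (C : Set ℤ) : Prop :=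
  ∃ w : ℤ → ℝ, Corr0.{u} w ∧ ∃ δ : ℝ, 0 < δ ∧ ∀ᶠ n in l, n ∈ C → w n ≤ -δ

lemma int_ind' {X : Type*} [MeasurableSpace X] {μ : Measure X} {s : Set X} (hs : MeasurableSet s) :
    ∫ x, s.indicator (fun _ => (1:ℝ)) x ∂μ = μ.real s := by
  rw [integral_indicator hs]; simp

theorem bad_of_not_nice {l : Filter ℤ} {C : Set ℤ} (h : ¬ NiceAlong.{u} l C) :
    ∃ w : ℤ → ℝ, Corr0.{u} w ∧ (∀ n, |w n| ≤ 1/4) ∧ ∃ δ : ℝ, 0 < δ ∧ ∀ᶠ n in l, n ∈ C → w n ≤ -δ := by
  unfold NiceAlong at h
  push Not at h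
  obtain ⟨X, mX, μ, pμ, T, hT1, hT2, hT, A, hA, hlt⟩ := h
  have hmem := mem_mpSub hT1 hT2 hT
  obtain ⟨c, hc1, hc2⟩ := exists_between hlt
  have hev : ∀ᶠ n in l ⊓ 𝓟 C, μ (A ∩ (⇑(T ^ n)) '' A) < c := eventually_lt_of_limsup_lt hc1
  rw [eventually_inf_principal] at hev
  have hAf : μ A ≤ 1 := prob_le_one
  have hA2 : (μ A)^2 ≠ ⊤ := ENNReal.pow_ne_top (measure_ne_top _ _)
  have hcf : c ≠ ⊤ := (hc2.trans_le le_top).ne
  set a : ℝ := (μ A).toReal with ha
  have ha0 : 0 ≤ a := ENNReal.toReal_nonneg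
  have ha1 : a ≤ 1 := ENNReal.toReal_le_of_le_ofReal zero_le_one (by simpa using hAf)
  have hca : c.toReal < a^2 := by
    rw [ha, ← ENNReal.toReal_pow]
    exact (ENNReal.toReal_lt_toReal hcf hA2).2 hc2
  let g : X → ℝ := fun x => (1/2) * (A.indicator (fun _ => (1:ℝ)) x - a)
  have hgm : Measurable g := ((measurable_const.indicator hA).sub_const _).const_mul _
  have hind : ∀ x, A.indicator (fun _ => (1:ℝ)) x = 0 ∨ A.indicator (fun _ => (1:ℝ)) x = 1 := by
    intro x
    by_cases hx : x ∈ A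
    · right; simp [hx]
    · left; simp [hx]
  have hgb : ∀ x, |g x| ≤ 1/2 := by
    intro x
    simp only [g]
    rw [abs_mul, abs_of_pos (by norm_num : (0:ℝ) < 1/2)]
    have : |A.indicator (fun _ => (1:ℝ)) x - a| ≤ 1 := by
      rw [abs_le]
      rcases hind x with h | h <;> rw [h] <;> constructor <;> linarith
    linarith
  have ii : ∀ s : Set X, MeasurableSet s → Integrable (s.indicator (fun _ => (1:ℝ))) μ := fun s hs =>
      (integrable_const _).indicator hs
  have hg0 : ∫ x, g x ∂μ = 0 := by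
    show ∫ x, (1/2) * (A.indicator (fun _ => (1:ℝ)) x - a) ∂μ = 0
    rw [integral_const_mul, integral_sub (ii A hA) (integrable_const _), int_ind' hA, measureReal_def, ← ha]
    simp
  refine ⟨fun n => ∫ x, g x * g ((T ^ n) x) ∂μ, ⟨⟨X, mX, μ, pμ, T, hmem⟩, g, 1/2, hgm, hgb, hg0, fun n => rfl⟩, ?_, ?_⟩
  · intro n
    have := norm_integral_le_of_norm_le_const (μ := μ) (C := 1/4) (f := fun x => g x * g ((T ^ n) x))
      (Filter.Eventually.of_forall fun x => by
        rw [Real.norm_eq_abs, abs_mul]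
        have h1 := hgb x
        have h2 := hgb ((T ^ n) x)
        nlinarith [abs_nonneg (g x), abs_nonneg (g ((T ^ n) x))])
    simpa using this
  · refine ⟨(1/4) * (a^2 - c.toReal), by linarith, ?_⟩
    filter_upwards [hev] with n hn hnC
    have h1 := hn hnC
    rw [image_eq hmem hA] at h1
    have hTn := zpow_mp hmem n
    have hAn : MeasurableSet ((⇑(T ^ n)) ⁻¹' A) := hTn.measurable hA
    have h2 : (μ (A ∩ (⇑(T ^ n)) ⁻¹' A)).toReal ≤ c.toReal := ENNReal.toReal_mono hcf h1.le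
    have e : ∀ x, g x * g ((T ^ n) x) = (1/4) * (((A ∩ (⇑(T ^ n)) ⁻¹' A).indicator (fun _ => (1:ℝ)) x
        - a * A.indicator (fun _ => (1:ℝ)) x) - (a * ((⇑(T ^ n)) ⁻¹' A).indicator (fun _ => (1:ℝ)) x - a ^ 2)) := by
      intro x
      simp only [g]
      by_cases h1 : x ∈ A
      · by_cases h2 : (T ^ n) x ∈ A
        · rw [Set.indicator_of_mem h1, Set.indicator_of_mem h2, Set.indicator_of_mem (show x ∈ A ∩ (⇑(T ^ n)) ⁻¹' A from ⟨h1, h2⟩),
            Set.indicator_of_mem (show x ∈ (⇑(T ^ n)) ⁻¹' A from h2)]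
          ring
        · rw [Set.indicator_of_mem h1, Set.indicator_of_notMem h2, Set.indicator_of_notMem (show x ∉ A ∩ (⇑(T ^ n)) ⁻¹' A from fun h => h2 h.2),
            Set.indicator_of_notMem (show x ∉ (⇑(T ^ n)) ⁻¹' A from h2)]
          ring
      · by_cases h2 : (T ^ n) x ∈ A
        · rw [Set.indicator_of_notMem h1, Set.indicator_of_mem h2, Set.indicator_of_notMem (show x ∉ A ∩ (⇑(T ^ n)) ⁻¹' A from fun h => h1 h.1),
            Set.indicator_of_mem (show x ∈ (⇑(T ^ n)) ⁻¹' A from h2)]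
          ring
        · rw [Set.indicator_of_notMem h1, Set.indicator_of_notMem h2, Set.indicator_of_notMem (show x ∉ A ∩ (⇑(T ^ n)) ⁻¹' A from fun h => h1 h.1),
            Set.indicator_of_notMem (show x ∉ (⇑(T ^ n)) ⁻¹' A from h2)]
          ring
    show ∫ x, g x * g ((T ^ n) x) ∂μ ≤ _
    simp_rw [e]
    have i1 := ii _ (hA.inter hAn)
    have i2 := (ii _ hA).const_mul a
    have i3 := (ii _ hAn).const_mul a
    have i12 : Integrable (fun x => (A ∩ (⇑(T ^ n)) ⁻¹' A).indicator (fun _ => (1:ℝ)) x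
        - a * A.indicator (fun _ => (1:ℝ)) x) μ := i1.sub i2
    have i34 : Integrable (fun x => a * ((⇑(T ^ n)) ⁻¹' A).indicator (fun _ => (1:ℝ)) x - a ^ 2) μ := i3.sub (integrable_const _)
    rw [integral_const_mul, integral_sub i12 i34, integral_sub i1 i2, integral_sub i3 (integrable_const _),
      integral_const_mul, integral_const_mul, int_ind' (hA.inter hAn), int_ind' hA, int_ind' hAn]
    have e3 : μ.real ((⇑(T ^ n)) ⁻¹' A) = a := by
      rw [measureReal_def, hTn.measure_preimage hA.nullMeasurableSet]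
    rw [e3, measureReal_def, measureReal_def, ← ha]
    simp only [integral_const, probReal_univ, one_smul]
    nlinarith

/-- threshold sets for two sided noise -/
def BZ {Z : Type*} (V : Z → ℝ) : Set (Z × (ℤ → ℝ)) := {p | p.2 0 < V p.1}

section
variable {Z : Type*} [MeasurableSpace Z] {P : Measure Z} [IsProbabilityMeasure P]

lemma BZ_meas {V : Z → ℝ} (hV : Measurable V) : MeasurableSet (BZ V) := by
  unfold BZ
  exact measurableSet_lt ((measurable_pi_apply 0).comp measurable_snd) (hV.comp measurable_fst)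

lemma BZ_measure {V : Z → ℝ} (hV : Measurable V) (h0 : ∀ z, 0 ≤ V z) (h1 : ∀ z, V z ≤ 1) :
    ((P.prod noZ) (BZ V)).toReal = ∫ z, V z ∂P := by
  rw [Measure.prod_apply (BZ_meas hV)]
  have hs : ∀ z, noZ (Prod.mk z ⁻¹' (BZ V)) = ENNReal.ofReal (V z) := by
    intro z
    have e : Prod.mk z ⁻¹' (BZ V) = Set.pi (({0} : Finset ℤ) : Set ℤ) (fun _ => Set.Iio (V z)) := by
      ext u; simp [BZ]
    rw [e]
    unfold noZ
    rw [Measure.infinitePi_pi _ (fun i _ => measurableSet_Iio)]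
    simp [uni_Iio (h0 z) (h1 z)]
  simp_rw [hs]
  rw [integral_eq_lintegral_of_nonneg_ae (Filter.Eventually.of_forall h0) hV.aestronglyMeasurable]

lemma BZ_corr {T : Equiv.Perm Z} (hT : T ∈ mpSub P) {V : Z → ℝ} (hV : Measurable V) (h0 : ∀ z, 0 ≤ V z)
    (h1 : ∀ z, V z ≤ 1) (n : ℤ) (hn : n ≠ 0) :
    ((P.prod noZ) (BZ V ∩ (⇑((Equiv.prodCongr T shZ : Equiv.Perm (Z × (ℤ → ℝ))) ^ n)) ⁻¹' (BZ V))).toReal
      = ∫ z, V z * V ((T ^ n) z) ∂P := by
  have hTn := zpow_mp hT n
  have hSn := zpow_mp shZ_mem n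
  have hVn : Measurable fun z => V ((T ^ n) z) := hV.comp hTn.measurable
  have hset : (⇑((Equiv.prodCongr T shZ : Equiv.Perm (Z × (ℤ → ℝ))) ^ n)) ⁻¹' (BZ V)
      = {p : Z × (ℤ → ℝ) | p.2 n < V ((T ^ n) p.1)} := by
    ext p
    simp only [Set.mem_preimage, prod_zpow, BZ]
    show (shZ ^ n) p.2 0 < V ((T ^ n) p.1) ↔ _
    rw [shZ_zpow, zero_add]
    rfl
  have hmeas : MeasurableSet {p : Z × (ℤ → ℝ) | p.2 n < V ((T ^ n) p.1)} :=
    measurableSet_lt ((measurable_pi_apply n).comp measurable_snd) (hVn.comp measurable_fst)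
  rw [hset, Measure.prod_apply ((BZ_meas hV).inter hmeas)]
  have hs : ∀ z, noZ (Prod.mk z ⁻¹' (BZ V ∩ {p : Z × (ℤ → ℝ) | p.2 n < V ((T ^ n) p.1)})) = ENNReal.ofReal (V z * V ((T ^ n) z)) := by
    intro z
    have e : Prod.mk z ⁻¹' (BZ V ∩ {p : Z × (ℤ → ℝ) | p.2 n < V ((T ^ n) p.1)})
        = Set.pi (({0, n} : Finset ℤ) : Set ℤ) (fun i => if i = 0 then Set.Iio (V z) else Set.Iio (V ((T ^ n) z))) := by
      ext u
      simp only [Set.mem_preimage, Set.mem_inter_iff, BZ, Set.mem_ofPred_eq, Set.mem_pi,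
        Finset.coe_insert, Finset.coe_singleton, Set.mem_insert_iff, Set.mem_singleton_iff, forall_eq_or_imp,
        forall_eq, if_true, if_neg hn, Set.mem_Iio]
    rw [e]
    unfold noZ
    rw [Measure.infinitePi_pi _ (fun i _ => by split_ifs <;> exact measurableSet_Iio)]
    rw [Finset.prod_insert (by simp [Ne.symm hn]), Finset.prod_singleton]
    simp only [if_true, if_neg hn]
    rw [uni_Iio (h0 z) (h1 z), uni_Iio (h0 _) (h1 _), ENNReal.ofReal_mul (h0 z)]
  simp_rw [hs]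
  rw [integral_eq_lintegral_of_nonneg_ae (Filter.Eventually.of_forall fun z => mul_nonneg (h0 _) (h0 _))
    (hV.mul hVn).aestronglyMeasurable]

end

theorem not_nice_of_bad {l : Filter ℤ} (hl : l ≤ cofinite) {C : Set ℤ} (h : Bad.{u} l C) : ¬ NiceAlong.{u} l C := by
  obtain ⟨w, ⟨S, g, K0, hg, hK0, hg0, hw⟩, δ, hδ, hev⟩ := h
  intro hnice
  set K := max K0 1 with hK
  have hK1 : 1 ≤ K := le_max_right _ _
  have hKpos : 0 < K := by linarith
  have hgK : ∀ x, |g x| ≤ K := fun x => (hK0 x).trans (le_max_left _ _)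
  let V : S.X → ℝ := fun x => 1/2 + g x / (4 * K)
  have hVm : Measurable V := (hg.div_const _).const_add _
  have hqb : ∀ x, |g x / (4 * K)| ≤ 1/4 := by
    intro x
    rw [abs_div, abs_of_pos (show (0:ℝ) < 4 * K by positivity), div_le_iff₀ (by positivity)]
    linarith [hgK x]
  have hV0 : ∀ x, 0 ≤ V x := by
    intro x
    have := (abs_le.1 (hqb x)).1
    show 0 ≤ 1/2 + g x / (4 * K)
    linarith
  have hV1 : ∀ x, V x ≤ 1 := by
    intro x
    have := (abs_le.1 (hqb x)).2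
    show 1/2 + g x / (4 * K) ≤ 1
    linarith
  have hgi : Integrable g S.μ := integrable_of_bdd hg hK0
  have hVint : ∫ x, V x ∂S.μ = 1/2 := by
    show ∫ x, (1/2 + g x / (4 * K)) ∂S.μ = _
    rw [integral_add (integrable_const _) (hgi.div_const _), integral_div (4 * K) g, hg0]
    simp
  have hTm : Measurable (⇑(Equiv.prodCongr S.T shZ : Equiv.Perm (S.X × (ℤ → ℝ)))) :=
    S.hT.1.measurable.prodMap shZ_mem.1.measurable
  have hTs : Measurable (⇑(Equiv.prodCongr S.T shZ : Equiv.Perm (S.X × (ℤ → ℝ))).symm) :=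
    S.hT.2.measurable.prodMap shZ_mem.2.measurable
  have hmp : MeasurePreserving (⇑(Equiv.prodCongr S.T shZ : Equiv.Perm (S.X × (ℤ → ℝ)))) (S.μ.prod noZ) (S.μ.prod noZ) :=
    S.hT.1.prod shZ_mem.1
  have hmem := mem_mpSub hTm hTs hmp
  have hle := hnice (S.X × (ℤ → ℝ)) (S.μ.prod noZ) (Equiv.prodCongr S.T shZ) hTm hTs hmp (BZ V) (BZ_meas hVm)
  have hνB : ((S.μ.prod noZ) (BZ V)).toReal = 1/2 := by rw [BZ_measure hVm hV0 hV1, hVint]
  have hνB' : (S.μ.prod noZ) (BZ V) = ENNReal.ofReal (1/2) := by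
    rw [← hνB, ENNReal.ofReal_toReal (measure_ne_top _ _)]
  have hcorr : ∀ n : ℤ, n ≠ 0 → ((S.μ.prod noZ) (BZ V ∩ (⇑((Equiv.prodCongr S.T shZ : Equiv.Perm (S.X × (ℤ → ℝ))) ^ n)) '' (BZ V)))
      = ENNReal.ofReal (1/4 + w n / (16 * K^2)) := by
    intro n hn
    rw [image_eq hmem (BZ_meas hVm), ← ENNReal.ofReal_toReal (measure_ne_top (S.μ.prod noZ) _), BZ_corr S.hT hVm hV0 hV1 n hn]
    congr 1
    have hTn := zpow_mp S.hT n
    have i2 : Integrable (fun x => g ((S.T ^ n) x)) S.μ := hTn.integrable_comp_of_integrable hgi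
    have i3 : Integrable (fun x => g x * g ((S.T ^ n) x)) S.μ :=
      integrable_of_bdd (K := K * K) (hg.mul (hg.comp hTn.measurable)) fun x => by
        rw [abs_mul]
        exact mul_le_mul (hgK _) (hgK _) (abs_nonneg _) hKpos.le
    have e : ∀ x, V x * V ((S.T ^ n) x) = (1/4 + (1/(8*K)) * g x) + ((1/(8*K)) * g ((S.T ^ n) x)
        + (1/(16*K^2)) * (g x * g ((S.T ^ n) x))) := by
      intro x
      show (1/2 + g x / (4 * K)) * (1/2 + g ((S.T ^ n) x) / (4 * K)) = _
      field_simp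
      ring
    simp_rw [e]
    have a1 : Integrable (fun x => (1/4 + (1/(8*K)) * g x)) S.μ := (integrable_const _).add (hgi.const_mul _)
    have a2 : Integrable (fun x => ((1/(8*K)) * g ((S.T ^ n) x) + (1/(16*K^2)) * (g x * g ((S.T ^ n) x)))) S.μ :=
      (i2.const_mul _).add (i3.const_mul _)
    rw [integral_add a1 a2, integral_add (integrable_const _) (hgi.const_mul _),
      integral_add (i2.const_mul _) (i3.const_mul _), integral_const_mul, integral_const_mul, integral_const_mul, hg0,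
      int_comp hTn hgi.aestronglyMeasurable, hg0, ← hw n]
    simp only [integral_const, probReal_univ, one_smul, mul_zero, add_zero, zero_add]
    ring
  have hbound : ∀ᶠ n in l ⊓ 𝓟 C, ((S.μ.prod noZ) (BZ V ∩ (⇑((Equiv.prodCongr S.T shZ : Equiv.Perm (S.X × (ℤ → ℝ))) ^ n)) '' (BZ V)))
      ≤ ENNReal.ofReal (1/4 - δ / (16 * K^2)) := by
    rw [eventually_inf_principal]
    have hne : ∀ᶠ n : ℤ in l, n ≠ 0 := hl ((Set.finite_singleton (0:ℤ)).compl_mem_cofinite)
    filter_upwards [hev, hne] with n hn hn0 hnC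
    rw [hcorr n hn0]
    apply ENNReal.ofReal_le_ofReal
    have := hn hnC
    have h2 : w n / (16 * K^2) ≤ -δ / (16 * K^2) := by gcongr
    have h3 : -δ / (16 * K^2) = -(δ / (16 * K^2)) := by ring
    linarith
  have h1 := limsup_le_of_le (h := hbound)
  have h2 := hle.trans h1
  rw [hνB', ← ENNReal.ofReal_pow (by norm_num)] at h2
  have h3 : ENNReal.ofReal (1/4 - δ / (16 * K^2)) < ENNReal.ofReal ((1/2)^2) := by
    rw [ENNReal.ofReal_lt_ofReal_iff (by norm_num)]
    have : 0 < δ / (16 * K^2) := by positivity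
    linarith
  exact absurd h2 (not_le.2 h3)

theorem union_step {l : Filter ℤ} (hl : l ≤ cofinite) {C D : Set ℤ} (hC : ¬ NiceAlong.{u} l C)
    (hD : ¬ NiceAlong.{u} l D) : ¬ NiceAlong.{u} l (C ∪ D) := by
  obtain ⟨a, ha, ha4, δ1, hδ1, h1⟩ := bad_of_not_nice hC
  obtain ⟨b, hb, hb4, δ2, hδ2, h2⟩ := bad_of_not_nice hD
  apply not_nice_of_bad hl
  set ε := min δ1 δ2 with hε
  have hε0 : 0 < ε := lt_min hδ1 hδ2
  obtain ⟨N, hN⟩ := exists_nat_ge (1 / ε)
  have hN' : 1 ≤ N * ε := by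
    rw [div_le_iff₀ hε0] at hN; exact hN
  refine ⟨_, ha.comb hb N, ε * (3/4) ^ N, by positivity, ?_⟩
  filter_upwards [h1, h2] with n hn1 hn2 hn
  rcases hn with hn | hn
  · exact real_ineq (ha4 n) (hb4 n) ((hn1 hn).trans (by linarith [min_le_left δ1 δ2])) hε0 N hN'
  · have := real_ineq (hb4 n) (ha4 n) ((hn2 hn).trans (by linarith [min_le_right δ1 δ2])) hε0 N hN'
    linarith

theorem empty_not_nice (l : Filter ℤ) : ¬ NiceAlong.{u} l (∅ : Set ℤ) := by
  intro h
  have := h PUnit.{u+1} (Measure.dirac PUnit.unit) 1 measurable_id measurable_id (MeasurePreserving.id _) Set.univ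
    MeasurableSet.univ
  simp at this

theorem ramsey {l : Filter ℤ} (hl : l ≤ cofinite) (r : ℕ) (C : Fin r → Set ℤ)
    (h : NiceAlong.{u} l (⋃ i, C i)) : ∃ i, NiceAlong.{u} l (C i) := by
  by_contra hcon
  push Not at hcon
  have key : ∀ s : Finset (Fin r), ¬ NiceAlong.{u} l (⋃ i ∈ s, C i) := by
    intro s
    induction s using Finset.induction_on with
    | empty => simpa using empty_not_nice l
    | insert i s _ ih =>
      rw [Finset.set_biUnion_insert]
      exact union_step hl (hcon i) ih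
  apply key Finset.univ
  simpa using h

end Pool.Agent.H514R3.Ram
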